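import Mathlib
import Pool.Agent.Zk24.SC.Last

/-!
Finite measures on the circle and an increasing sequence of finite groups of translations: the part
on which sets with few points in each coset have small measure, and the part with few points in each
coset.
-/

set_option autoImplicit false

open MeasureTheory Filter Topology Set
open scoped ENNReal NNReal

namespace Pool.Agent.Zk24.NZ

open Pool.Agent.Zk24.SC

/-- the points killed by `t` -/
noncomputable def Hf (t : ℕ) (ht : 0 < t) : Finset T :=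
  (AddCircle.finite_torsion (1 : ℝ) ht).toFinset

lemma mem_Hf {t : ℕ} (ht : 0 < t) {h : T} : h ∈ Hf t ht ↔ t • h = 0 := mem_H ht

open Classical in
/-- at most `M` points in each coset of the group of the points killed by `t` -/
def Few (t : ℕ) (ht : 0 < t) (E : Set T) (M : ℕ) : Prop :=
  ∀ x : T, ((Hf t ht).filter fun h => x + h ∈ E).card ≤ M

lemma tr_apply {t : ℕ} (ht : 0 < t) (μ : Measure T) {E : Set T} (hE : MeasurableSet E) :
    tr t ht μ E = ∑ h ∈ Hf t ht, μ {x | x + h ∈ E} := by
  unfold tr Hf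
  rw [Measure.finsetSum_apply]
  refine Finset.sum_congr rfl fun h _ => ?_
  rw [Measure.map_apply (measurable_add_const h) hE]
  rfl

lemma tr_few {t : ℕ} (ht : 0 < t) (μ : Measure T) {E : Set T} (hE : MeasurableSet E) {M : ℕ}
    (h : Few t ht E M) : tr t ht μ E ≤ M * μ univ := by
  classical
  rw [tr_apply ht μ hE]
  have e : ∀ h ∈ Hf t ht, μ {x | x + h ∈ E} =
      ∫⁻ x, ({x | x + h ∈ E} : Set T).indicator 1 x ∂μ := by
    intro h _
    have hm : MeasurableSet {x : T | x + h ∈ E} := measurable_add_const h hE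
    rw [lintegral_indicator_one hm]
  rw [Finset.sum_congr rfl e, ← lintegral_finsetSum]
  · rw [← lintegral_const]
    refine lintegral_mono fun x => ?_
    have e2 : ∑ h ∈ Hf t ht, ({x | x + h ∈ E} : Set T).indicator (1 : T → ℝ≥0∞) x =
        (((Hf t ht).filter fun h => x + h ∈ E).card : ℝ≥0∞) := by
      rw [Finset.card_filter]
      push_cast
      refine Finset.sum_congr rfl fun h _ => ?_
      by_cases hx : x + h ∈ E
      · rw [if_pos hx, indicator_of_mem (by exact hx)]; rfl
      · rw [if_neg hx, indicator_of_notMem (by exact hx)]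
    rw [e2]
    refine Nat.cast_le.2 ?_
    convert h x
  · intro h _
    exact measurable_one.indicator (measurable_add_const h hE)

lemma Hf_mono {t t' : ℕ} (ht : 0 < t) (ht' : 0 < t') (hd : t ∣ t') : Hf t ht ⊆ Hf t' ht' := by
  intro h hh
  rw [mem_Hf] at hh ⊢
  obtain ⟨k, rfl⟩ := hd
  rw [mul_comm, mul_smul, hh, smul_zero]

lemma tr_mono {t t' : ℕ} (ht : 0 < t) (ht' : 0 < t') (hd : t ∣ t') (μ : Measure T) :
    tr t ht μ ≤ tr t' ht' μ := by
  refine Measure.le_intro fun E hE _ => ?_
  rw [tr_apply ht μ hE, tr_apply ht' μ hE]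
  exact Finset.sum_le_sum_of_subset (Hf_mono ht ht' hd)

lemma Few.mono {t t' : ℕ} {ht : 0 < t} (ht' : 0 < t') (hd : t' ∣ t) {E : Set T} {M : ℕ}
    (h : Few t ht E M) : Few t' ht' E M := by
  classical
  intro x
  refine (Finset.card_le_card ?_).trans (h x)
  exact Finset.filter_subset_filter _ (Hf_mono ht' ht hd)

lemma Few.subset {t : ℕ} {ht : 0 < t} {E E' : Set T} {M : ℕ} (h : Few t ht E M) (hE : E' ⊆ E) :
    Few t ht E' M := by
  classical
  intro x
  refine (Finset.card_le_card ?_).trans (h x)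
  intro y hy
  rw [Finset.mem_filter] at hy ⊢
  exact ⟨hy.1, hE hy.2⟩

/-- translates of a set all of which are in a set where `ω` is a good part of the sum of its
translates -/
lemma null_multi {t : ℕ} (ht : 0 < t) {ω : Measure T} [IsFiniteMeasure ω] {n : ℕ} {A : Set T}
    (hA : ∀ B, MeasurableSet B → B ⊆ A → tr t ht ω B ≤ (n + 1) * ω B) {B : Set T}
    (hB : MeasurableSet B) {S : Finset T} (hS : S ⊆ Hf t ht) (hcard : S.card = n + 2)
    (hSB : ∀ x ∈ B, ∀ h ∈ S, x + h ∈ A) : ω B = 0 := by
  classical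
  have hfin := tr_finite ht ω
  have hBm : ∀ h : T, MeasurableSet {y : T | y + h ∈ B} := fun h => measurable_add_const h hB
  -- the translates
  have h1 : ∀ h ∈ S, tr t ht ω B ≤ (n + 1) * ω {y | y + (-h) ∈ B} := by
    intro h hh
    have hsub : {y : T | y + (-h) ∈ B} ⊆ A := by
      intro y hy
      have := hSB _ hy h hh
      rwa [neg_add_cancel_right] at this
    have h2 := hA _ (hBm (-h)) hsub
    have h3 : tr t ht ω {y : T | y + (-h) ∈ B} = tr t ht ω B := by
      have hz : t • (-h) = 0 := by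
        have := (mem_Hf ht).1 (hS hh)
        rw [smul_neg, this, neg_zero]
      have h4 := tr_trans ht ω hz
      conv_rhs => rw [← h4]
      rw [Measure.map_apply (measurable_add_const _) hB]
      rfl
    rwa [h3] at h2
  have h2 : ((n : ℝ≥0∞) + 2) * tr t ht ω B ≤ (n + 1) * ∑ h ∈ S, ω {y | y + (-h) ∈ B} := by
    rw [Finset.mul_sum]
    calc ((n : ℝ≥0∞) + 2) * tr t ht ω B = ∑ _h ∈ S, tr t ht ω B := by
          rw [Finset.sum_const, hcard, nsmul_eq_mul]
          push_cast
          ring
      _ ≤ _ := Finset.sum_le_sum h1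
  have h3 : ∑ h ∈ S, ω {y | y + (-h) ∈ B} ≤ tr t ht ω B := by
    rw [tr_apply ht ω hB]
    calc ∑ h ∈ S, ω {y | y + (-h) ∈ B} = ∑ h ∈ S.image (fun h => -h), ω {y | y + h ∈ B} := by
          rw [Finset.sum_image]
          intro a _ b _ hab
          exact neg_injective hab
      _ ≤ _ := by
          refine Finset.sum_le_sum_of_subset ?_
          intro h hh
          rw [Finset.mem_image] at hh
          obtain ⟨a, ha, rfl⟩ := hh
          rw [mem_Hf, smul_neg, (mem_Hf ht).1 (hS ha), neg_zero]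
  have h4 : ((n : ℝ≥0∞) + 2) * tr t ht ω B ≤ (n + 1) * tr t ht ω B :=
    h2.trans (mul_le_mul_right h3 _)
  have h5 : tr t ht ω B = 0 := by
    have hne : tr t ht ω B ≠ ∞ := measure_ne_top _ _
    have h6 : ((n : ℝ≥0∞) + 1) * tr t ht ω B + tr t ht ω B ≤ (n + 1) * tr t ht ω B := by
      have h9 : ((n : ℝ≥0∞) + 1) * tr t ht ω B + tr t ht ω B =
          ((n : ℝ≥0∞) + 2) * tr t ht ω B := by
        rw [show (n : ℝ≥0∞) + 2 = (n + 1) + 1 by rw [add_assoc]; norm_num,
          add_mul ((n : ℝ≥0∞) + 1) 1, one_mul]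
      rw [h9]
      exact h4
    have h7 : ((n : ℝ≥0∞) + 1) * tr t ht ω B ≠ ∞ :=
      ENNReal.mul_ne_top (by simp) hne
    have h8 : ((n : ℝ≥0∞) + 1) * tr t ht ω B + tr t ht ω B ≤ (n + 1) * tr t ht ω B + 0 := by
      rw [add_zero]; exact h6
    exact le_antisymm ((ENNReal.add_le_add_iff_left h7).1 h8) bot_le
  exact le_antisymm ((le_tr ht ω B).trans h5.le) bot_le

end Pool.Agent.Zk24.NZ
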