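import Mathlib
import Pool.Agent.Zk24.NZ.Sep

/-!
The decomposition of a finite measure with respect to an increasing sequence of finite groups of
translations.
-/

set_option autoImplicit false

open MeasureTheory Filter Topology Set
open scoped ENNReal NNReal

namespace Pool.Agent.Zk24.NZ

open Pool.Agent.Zk24.SC

lemma finset_null {ι : Type*} (ω : Measure T) (s : Finset ι) (f : ι → Set T)
    (h : ∀ i ∈ s, ω (f i) = 0) : ω (⋃ i ∈ s, f i) = 0 := by
  refine le_antisymm ((measure_biUnion_finset_le s f).trans ?_) bot_le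
  exact (Finset.sum_eq_zero h).le

/-- the decomposition -/
theorem split {t : ℕ → ℕ} (ht : ∀ j, 0 < t j) (hd : ∀ j, t j ∣ t (j + 1)) (ω : Measure T)
    [IsFiniteMeasure ω] : ∃ F : ℕ → Set T, (∀ n, MeasurableSet (F n)) ∧
      (∀ n j, Few (t j) (ht j) (F n) (n + 1)) ∧
      ∀ (M : ℕ) (ε : ℝ≥0∞), ε ≠ 0 → ∃ j, ∀ E, MeasurableSet E → Few (t j) (ht j) E M →
        ω (E \ ⋃ n, F n) ≤ ε := by
  classical
  have hfin : ∀ j, IsFiniteMeasure (tr (t j) (ht j) ω) := fun j => tr_finite (ht j) ω
  have hH : ∀ (n j : ℕ), ∃ A : Set T, MeasurableSet A ∧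
      (∀ B, MeasurableSet B → B ⊆ A → tr (t j) (ht j) ω B ≤ (n + 1) * ω B) ∧
      (∀ B, MeasurableSet B → B ⊆ Aᶜ → (n + 1) * ω B ≤ tr (t j) (ht j) ω B) := by
    intro n j
    have := hfin j
    obtain ⟨s, hs, h1, h2⟩ := hahn_decomposition (((n : ℝ≥0) + 1) • ω) (tr (t j) (ht j) ω)
    have e : ∀ B : Set T, (((n : ℝ≥0) + 1) • ω) B = ((n : ℝ≥0∞) + 1) * ω B := by
      intro B
      rw [Measure.smul_apply, ENNReal.smul_def, smul_eq_mul]
      push_cast
      rfl
    refine ⟨s, hs, fun B hB hBs => ?_, fun B hB hBs => ?_⟩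
    · rw [← e]; exact h1 B hB hBs
    · rw [← e]; exact h2 B hB hBs
  choose A hAm hA1 hA2 using hH
  set A' : ℕ → ℕ → Set T := fun n j => ⋂ i ∈ Finset.range (j + 1), A n i with hA'
  set F' : ℕ → Set T := fun n => ⋂ j, A n j with hF'
  have hA'm : ∀ n j, MeasurableSet (A' n j) := fun n j =>
    Finset.measurableSet_biInter _ fun i _ => hAm n i
  have hF'm : ∀ n, MeasurableSet (F' n) := fun n => MeasurableSet.iInter fun j => hAm n j
  set Bs : ℕ → Finset T → Set T := fun n S => {x | ∀ h ∈ S, x + h ∈ F' n} with hBs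
  have hBsm : ∀ n S, MeasurableSet (Bs n S) := by
    intro n S
    have : Bs n S = ⋂ h ∈ S, {x | x + h ∈ F' n} := by
      ext x; simp [hBs]
    rw [this]
    exact Finset.measurableSet_biInter _ fun h _ => measurable_add_const h (hF'm n)
  set Z : ℕ → Set T := fun n => ⋃ j, ⋃ S ∈ ((Hf (t j) (ht j)).powerset.filter
    fun S => S.card = n + 2 ∧ (0 : T) ∈ S), Bs n S with hZ
  have hZm : ∀ n, MeasurableSet (Z n) := fun n =>
    MeasurableSet.iUnion fun j => Finset.measurableSet_biUnion _ fun S _ => hBsm n S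
  have hZ0 : ∀ n, ω (Z n) = 0 := by
    intro n
    refine measure_iUnion_null fun j => ?_
    refine finset_null ω _ _ fun S hS => ?_
    rw [Finset.mem_filter, Finset.mem_powerset] at hS
    refine null_multi (ht j) (A := A n j) (hA1 n j) (hBsm n S) hS.1 hS.2.1 ?_
    intro x hx h hh
    exact mem_iInter.1 (hx h hh) j
  refine ⟨fun n => F' n \ Z n, fun n => (hF'm n).diff (hZm n), ?_, ?_⟩
  · intro n j x
    by_contra hcon
    push Not at hcon
    have hcard : n + 2 ≤ ((Hf (t j) (ht j)).filter fun h => x + h ∈ F' n \ Z n).card := by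
      have := hcon
      have e : ((Hf (t j) (ht j)).filter fun h => x + h ∈ F' n \ Z n).card =
        ((Hf (t j) (ht j)).filter fun h => x + h ∈ F' n \ Z n).card := rfl
      omega
    obtain ⟨S', hS', hS'c⟩ := Finset.exists_subset_card_eq hcard
    have hne : S'.Nonempty := by
      rw [← Finset.card_pos]; omega
    obtain ⟨h₀, hh₀⟩ := hne
    have hm0 := Finset.mem_filter.1 (hS' hh₀)
    set S : Finset T := S'.image (fun h => h - h₀) with hS
    have hSc : S.card = n + 2 := by
      rw [hS, Finset.card_image_of_injective _ (sub_left_injective), hS'c]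
    have hSH : S ⊆ Hf (t j) (ht j) := by
      intro a ha
      rw [hS, Finset.mem_image] at ha
      obtain ⟨h, hh, rfl⟩ := ha
      have h1 := (Finset.mem_filter.1 (hS' hh)).1
      rw [mem_Hf] at h1 ⊢
      have h2 := (mem_Hf _).1 hm0.1
      rw [smul_sub, h1, h2, sub_zero]
    have h0S : (0 : T) ∈ S := by
      rw [hS, Finset.mem_image]
      exact ⟨h₀, hh₀, sub_self _⟩
    apply hm0.2.2
    rw [hZ]
    refine mem_iUnion.2 ⟨j, mem_iUnion₂.2 ⟨S, ?_, ?_⟩⟩
    · rw [Finset.mem_filter, Finset.mem_powerset]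
      exact ⟨hSH, hSc, h0S⟩
    · intro a ha
      rw [hS, Finset.mem_image] at ha
      obtain ⟨h, hh, rfl⟩ := ha
      have h1 := (Finset.mem_filter.1 (hS' hh)).2.1
      have : x + h₀ + (h - h₀) = x + h := by abel
      rw [this]
      exact h1
  · intro M ε hε
    have hind : ∀ n j, ∀ B, MeasurableSet B → B ⊆ (A' n j)ᶜ →
        (n + 1) * ω B ≤ tr (t j) (ht j) ω B := by
      intro n j
      induction j with
      | zero =>
        intro B hB hBA
        refine hA2 n 0 B hB (hBA.trans ?_)
        rw [hA']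
        simp
      | succ j ih =>
        intro B hB hBA
        have e1 : ω B = ω (B ∩ A' n j) + ω (B \ A' n j) :=
          (measure_inter_add_sdiff B (hA'm n j)).symm
        have e2 : tr (t (j + 1)) (ht (j + 1)) ω B =
            tr (t (j + 1)) (ht (j + 1)) ω (B ∩ A' n j) +
            tr (t (j + 1)) (ht (j + 1)) ω (B \ A' n j) :=
          (measure_inter_add_sdiff B (hA'm n j)).symm
        have e3 : A' n (j + 1) = A' n j ∩ A n (j + 1) := by
          rw [hA']
          ext x
          simp only [mem_iInter, Finset.mem_range, mem_inter_iff]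
          constructor
          · intro h
            exact ⟨fun i hi => h i (by omega), h (j + 1) (by omega)⟩
          · rintro ⟨h1, h2⟩ i hi
            rcases Nat.lt_succ_iff_lt_or_eq.1 hi with h | h
            · exact h1 i h
            · rw [h]; exact h2
        rw [e1, e2, mul_add]
        refine add_le_add ?_ ?_
        · refine hA2 n (j + 1) _ (hB.inter (hA'm n j)) ?_
          rintro x ⟨hx1, hx2⟩ hx3
          exact hBA hx1 (by rw [e3]; exact ⟨hx2, hx3⟩)
        · refine (ih _ (hB.diff (hA'm n j)) (fun x hx => hx.2)).trans ?_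
          exact tr_mono _ _ (hd j) ω _
    -- choose `n`
    have hω : ω univ ≠ ∞ := measure_ne_top _ _
    have hε2 : ε / 2 ≠ 0 := by simpa using hε
    obtain ⟨n, hn⟩ := ENNReal.exists_nat_mul_gt hε2
      (ENNReal.mul_ne_top (ENNReal.natCast_ne_top M) hω)
    have hanti : Antitone (fun j => A' n j \ F' n) := by
      intro i j hij
      refine sdiff_subset_sdiff_left ?_
      intro x hx
      rw [hA'] at hx ⊢
      simp only [mem_iInter, Finset.mem_range] at hx ⊢
      exact fun l hl => hx l (by omega)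
    have hlim := tendsto_measure_iInter_atTop (μ := ω)
      (fun j => ((hA'm n j).diff (hF'm n)).nullMeasurableSet) hanti ⟨0, measure_ne_top _ _⟩
    have hemp : (⋂ j, A' n j \ F' n) = ∅ := by
      rw [eq_empty_iff_forall_notMem]
      intro x hx
      rw [mem_iInter] at hx
      apply (hx 0).2
      rw [hF']
      refine mem_iInter.2 fun j => ?_
      have := (hx j).1
      rw [hA'] at this
      simp only [mem_iInter, Finset.mem_range] at this
      exact this j (by omega)
    rw [hemp, measure_empty] at hlim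
    obtain ⟨j, hj⟩ := ((tendsto_order.1 hlim).2 (ε / 2) (pos_iff_ne_zero.2 hε2)).exists
    refine ⟨j, fun E hE hfew => ?_⟩
    have hcov : E \ ⋃ n, F' n \ Z n ⊆ Z n ∪ ((A' n j \ F' n) ∪ (E ∩ (A' n j)ᶜ)) := by
      rintro x ⟨hx1, hx2⟩
      by_cases h1 : x ∈ Z n
      · exact Or.inl h1
      · refine Or.inr ?_
        have h2 : x ∉ F' n := fun h => hx2 (mem_iUnion.2 ⟨n, h, h1⟩)
        by_cases h3 : x ∈ A' n j
        · exact Or.inl ⟨h3, h2⟩
        · exact Or.inr ⟨hx1, h3⟩
    have hEm : MeasurableSet (E ∩ (A' n j)ᶜ) := hE.inter (hA'm n j).compl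
    have h5 : ω (E ∩ (A' n j)ᶜ) ≤ ε / 2 := by
      have h6 := hind n j _ hEm inter_subset_right
      have h7 := tr_few (ht j) ω hEm (hfew.subset inter_subset_left)
      have h8 : (n : ℝ≥0∞) * ω (E ∩ (A' n j)ᶜ) ≤ n * (ε / 2) := by
        calc (n : ℝ≥0∞) * ω (E ∩ (A' n j)ᶜ) ≤ (n + 1) * ω (E ∩ (A' n j)ᶜ) := by
              gcongr; exact le_self_add
          _ ≤ M * ω univ := h6.trans h7
          _ ≤ n * (ε / 2) := hn.le
      by_cases hn0 : n = 0
      · subst hn0
        exfalso
        simp at hn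
      · exact (ENNReal.mul_le_mul_iff_right (by exact_mod_cast hn0)
          (ENNReal.natCast_ne_top n)).1 h8
    calc ω (E \ ⋃ n, F' n \ Z n) ≤ ω (Z n ∪ ((A' n j \ F' n) ∪ (E ∩ (A' n j)ᶜ))) :=
          measure_mono hcov
      _ ≤ ω (Z n) + (ω (A' n j \ F' n) + ω (E ∩ (A' n j)ᶜ)) :=
          (measure_union_le _ _).trans (by gcongr; exact measure_union_le _ _)
      _ ≤ 0 + (ε / 2 + ε / 2) := by
          refine add_le_add (hZ0 n).le (add_le_add hj.le h5)
      _ = ε := by rw [zero_add, ENNReal.add_halves]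

end Pool.Agent.Zk24.NZ
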