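import Mathlib
import Pool.Agent.Zk24.NZ.Split

/-!
Measures recurrent under a countable set of translations.
-/

set_option autoImplicit false

open MeasureTheory Filter Topology Set
open scoped ENNReal NNReal

namespace Pool.Agent.Zk24.NZ

open Pool.Agent.Zk24.SC

/-- every set of positive measure meets one of its translates in a set of positive measure -/
def Ret (C : Set T) (η : Measure T) : Prop :=
  ∀ E : Set T, MeasurableSet E → η E ≠ 0 → ∃ θ ∈ C, η {x | x ∈ E ∧ x + θ ∈ E} ≠ 0

lemma Ret.conv {C : Set T} {η : Measure T} [IsFiniteMeasure η] (hC : C.Countable) (h : Ret C η)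
    (ω : Measure T) [IsFiniteMeasure ω] : Ret C (η.conv ω) := by
  intro E hE hE0
  by_contra hcon
  push Not at hcon
  apply hE0
  rw [conv_apply η ω hE]
  have hFm : ∀ θ, MeasurableSet {x : T | x ∈ E ∧ x + θ ∈ E} := fun θ =>
    hE.inter (measurable_add_const θ hE)
  have h1 : ∀ θ ∈ C, ∀ᵐ t ∂ω, η {x | x + t ∈ {x : T | x ∈ E ∧ x + θ ∈ E}} = 0 := by
    intro θ hθ
    have h2 := hcon θ hθ
    rw [conv_apply η ω (hFm θ)] at h2
    have hmeas : Measurable fun t => η {x | x + t ∈ {x : T | x ∈ E ∧ x + θ ∈ E}} := by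
      have e : (fun t => η {x | x + t ∈ {x : T | x ∈ E ∧ x + θ ∈ E}}) = fun t =>
          η (Prod.mk t ⁻¹' ((fun z : T × T => z.1 + z.2) ⁻¹' {x : T | x ∈ E ∧ x + θ ∈ E})) := by
        funext t
        congr 1
        ext x
        simp [add_comm]
      rw [e]
      exact measurable_measure_prodMk_left (measurable_add (hFm θ))
    exact (lintegral_eq_zero_iff hmeas).1 h2
  have h3 : ∀ᵐ t ∂ω, ∀ θ ∈ C, η {x | x + t ∈ {x : T | x ∈ E ∧ x + θ ∈ E}} = 0 :=
    (ae_ball_iff hC).2 h1
  rw [← lintegral_zero (μ := ω)]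
  refine lintegral_congr_ae ?_
  filter_upwards [h3] with t ht
  by_contra hne
  obtain ⟨θ, hθ, hθ2⟩ := h {x | x + t ∈ E} (measurable_add_const t hE) hne
  apply hθ2
  rw [← ht θ hθ]
  congr 1
  ext x
  simp only [mem_ofPred_eq]
  rw [add_right_comm]

/-- the part of a translate which is absolutely continuous -/
lemma part_fin {σ : Measure T} [IsFiniteMeasure σ] (θ : T) :
    ∃ κ : Measure T, Part σ κ θ ∧ (κ = 0 → σ.map (fun x => x + θ) ⟂ₘ σ) := by
  have hf : IsFiniteMeasure (σ.map (fun x => x + θ)) := inferInstance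
  set ν := σ.map (fun x => x + θ) with hν
  set τ := σ.withDensity (ν.rnDeriv σ) with hτ
  have hle : τ ≤ ν := Measure.withDensity_rnDeriv_le ν σ
  have m1 : Measurable (fun x : T => x - θ) := by fun_prop
  have e1 : (τ.map (fun x => x - θ)).map (fun x => x + θ) = τ := by
    rw [Measure.map_map (measurable_add_const θ) m1]
    have : ((fun x : T => x + θ) ∘ fun x : T => x - θ) = id := by funext x; simp
    rw [this, Measure.map_id]
  refine ⟨τ.map (fun x => x - θ), ⟨?_, ?_⟩, ?_⟩
  · refine (Measure.map_mono hle m1).trans (le_of_eq ?_)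
    rw [hν, Measure.map_map m1 (measurable_add_const θ)]
    have : ((fun x : T => x - θ) ∘ fun x : T => x + θ) = id := by funext x; simp
    rw [this, Measure.map_id]
  · rw [e1]
    exact withDensity_absolutelyContinuous _ _
  · intro h0
    have hld : ν.HaveLebesgueDecomposition σ :=
      Measure.haveLebesgueDecomposition_of_sigmaFinite ν σ
    have h1 : τ = 0 := by rw [← e1, h0, Measure.map_zero]
    have h2 := Measure.haveLebesgueDecomposition_add ν σ
    rw [← hτ, h1, add_zero] at h2
    rw [h2]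
    exact Measure.mutuallySingular_singularPart ν σ

/-- a recurrent measure is singular to a measure no part of which is moved -/
lemma ret_sing {C : Set T} {η μ : Measure T} [IsFiniteMeasure η] [IsProbabilityMeasure μ]
    (hC : C.Countable) (h : Ret C η) (hΓ : ∀ θ ∈ C, ∀ κ : Measure T, Part μ κ θ → κ = 0) :
    μ ⟂ₘ η := by
  by_contra hns
  obtain ⟨e, he, E, hE, hE0, hle⟩ := Measure.exists_positive_of_not_mutuallySingular μ η hns
  set σ := η.restrict E with hσ
  have hσμ : (e : ℝ≥0∞) • σ ≤ μ := by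
    refine Measure.le_intro fun A hA _ => ?_
    rw [Measure.smul_apply, smul_eq_mul, hσ, Measure.restrict_apply hA]
    exact (hle A hA).trans (measure_mono inter_subset_left)
  have hac : σ ≪ μ := by
    intro A hA
    have h2 := hσμ A
    rw [hA, Measure.smul_apply, smul_eq_mul] at h2
    have h4 := le_antisymm h2 bot_le
    rcases mul_eq_zero.1 h4 with h5 | h5
    · rw [ENNReal.coe_eq_zero] at h5
      exact absurd h5 he.ne'
    · exact h5
  have hS : ∀ θ ∈ C, ∃ S : Set T, MeasurableSet S ∧ σ {x | x + θ ∈ S} = 0 ∧ σ Sᶜ = 0 := by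
    intro θ hθ
    obtain ⟨κ, h1, h2⟩ := part_fin (σ := σ) θ
    have hp : Part μ ((e : ℝ≥0∞) • κ) θ := by
      refine ⟨?_, ?_⟩
      · refine le_trans ?_ hσμ
        refine Measure.le_intro fun A hA _ => ?_
        rw [Measure.smul_apply, Measure.smul_apply, smul_eq_mul, smul_eq_mul]
        exact mul_le_mul_right (h1.le A) _
      · rw [Measure.map_smul]
        exact (h1.ac.trans hac).smul_left _
    have h0 := hΓ θ hθ _ hp
    have hκ : κ = 0 := by
      have h3 : ((e : ℝ≥0∞) • κ) univ = 0 := by rw [h0]; rfl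
      rw [Measure.smul_apply, smul_eq_mul] at h3
      rcases mul_eq_zero.1 h3 with h5 | h5
      · rw [ENNReal.coe_eq_zero] at h5
        exact absurd h5 he.ne'
      · exact Measure.measure_univ_eq_zero.1 h5
    obtain ⟨S, hS, hS1, hS2⟩ := h2 hκ
    rw [Measure.map_apply (measurable_add_const θ) hS] at hS1
    exact ⟨S, hS, hS1, hS2⟩
  choose! S hSm hS1 hS2 using hS
  set E' : Set T := E ∩ ⋂ θ ∈ C, (S θ ∩ {x | x + θ ∉ S θ}) with hE'
  have hE'm : MeasurableSet E' := hE.inter (MeasurableSet.biInter hC fun θ hθ =>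
    (hSm θ hθ).inter (measurable_add_const θ (hSm θ hθ)).compl)
  have hdiff : σ E'ᶜ = 0 := by
    have : E'ᶜ ⊆ Eᶜ ∪ ⋃ θ ∈ C, ((S θ)ᶜ ∪ {x | x + θ ∈ S θ}) := by
      intro x hx
      by_contra hcon
      apply hx
      rw [mem_union, not_or] at hcon
      refine ⟨not_not.1 hcon.1, mem_iInter₂.2 fun θ hθ => ?_⟩
      have h3 := hcon.2
      rw [mem_iUnion₂] at h3
      push Not at h3
      have h4 := h3 θ hθ
      rw [mem_union, not_or] at h4
      exact ⟨not_not.1 h4.1, h4.2⟩
    refine measure_mono_null this (measure_union_null ?_ ?_)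
    · rw [hσ, Measure.restrict_apply hE.compl, compl_inter_self, measure_empty]
    · exact (measure_biUnion_null_iff hC).2 fun θ hθ => measure_union_null (hS2 θ hθ) (hS1 θ hθ)
  have hE'0 : η E' ≠ 0 := by
    intro h0
    apply hE0.ne'
    have h1 : σ univ = 0 := by
      rw [← union_compl_self E']
      refine measure_union_null ?_ hdiff
      exact le_antisymm ((Measure.restrict_apply_le E E').trans h0.le) bot_le
    rwa [hσ, Measure.restrict_apply_univ] at h1
  obtain ⟨θ, hθ, hθ2⟩ := h E' hE'm hE'0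
  apply hθ2
  have : {x | x ∈ E' ∧ x + θ ∈ E'} = ∅ := by
    rw [eq_empty_iff_forall_notMem]
    rintro x ⟨hx1, hx2⟩
    exact (mem_iInter₂.1 hx1.2 θ hθ).2 (mem_iInter₂.1 hx2.2 θ hθ).1
  rw [this, measure_empty]

/-- a set with boundedly many points in each coset contains one with at most one point -/
lemma wander {t : ℕ → ℕ} (ht : ∀ j, 0 < t j) (hd : ∀ i j, i ≤ j → t i ∣ t j) {ω : Measure T}
    [IsFiniteMeasure ω] (M : ℕ) : ∀ E : Set T, MeasurableSet E → ω E ≠ 0 →
      (∀ j, Few (t j) (ht j) E M) → ∃ H ⊆ E, MeasurableSet H ∧ ω H ≠ 0 ∧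
        ∀ x ∈ H, ∀ θ : T, θ ≠ 0 → (∃ j, t j • θ = 0) → x + θ ∉ H := by
  classical
  induction M using Nat.strong_induction_on with
  | _ M ih =>
    intro E hE hE0 hfew
    by_cases hret : ∃ θ : T, θ ≠ 0 ∧ (∃ j, t j • θ = 0) ∧ ω {x | x ∈ E ∧ x + θ ∈ E} ≠ 0
    · obtain ⟨θ, hθ0, ⟨j₀, hj₀⟩, hθ⟩ := hret
      obtain ⟨x₀, -, hx₀⟩ := exists_mem_forall_mem_nhdsWithin_pos_measure hθ
      have hr : 0 < ‖θ‖ / 2 := half_pos (norm_pos_iff.2 hθ0)
      set E₂ : Set T := {x | x ∈ E ∧ x + θ ∈ E} ∩ Metric.ball x₀ (‖θ‖ / 2) with hE₂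
      have hE₂m : MeasurableSet E₂ :=
        (hE.inter (measurable_add_const θ hE)).inter measurableSet_ball
      have hE₂0 : ω E₂ ≠ 0 := by
        refine (hx₀ E₂ ?_).ne'
        exact inter_mem self_mem_nhdsWithin
          (mem_nhdsWithin_of_mem_nhds (Metric.ball_mem_nhds _ hr))
      have hdisj : ∀ x ∈ E₂, x + θ ∉ E₂ := by
        intro x hx hx2
        have h1 : dist x x₀ < ‖θ‖ / 2 := hx.2
        have h2 : dist (x + θ) x₀ < ‖θ‖ / 2 := hx2.2
        have h3 : dist (x + θ) x ≤ dist (x + θ) x₀ + dist x x₀ := dist_triangle_right _ _ _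
        have h4 : dist (x + θ) x = ‖θ‖ := by
          rw [dist_eq_norm, add_sub_cancel_left]
        linarith
      have hM : M ≠ 0 := by
        intro h0
        subst h0
        have h1 := hfew 0 x₀
        have hE2ne : E₂.Nonempty := by
          by_contra hcon
          rw [not_nonempty_iff_eq_empty] at hcon
          apply hE₂0
          rw [hcon, measure_empty]
        obtain ⟨x, hx⟩ := hE2ne
        have h2 := hfew 0 x
        rw [Nat.le_zero, Finset.card_eq_zero, Finset.filter_eq_empty_iff] at h2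
        refine h2 (x := 0) ?_ ?_
        · rw [mem_Hf, smul_zero]
        · rw [add_zero]; exact hx.1.1
      have hfew₂ : ∀ j, Few (t j) (ht j) E₂ (M / 2) := by
        have hbig : ∀ j, j₀ ≤ j → Few (t j) (ht j) E₂ (M / 2) := by
          intro j hj x
          have h0 : t j • θ = 0 := by
            obtain ⟨k, hk⟩ := hd j₀ j hj
            rw [hk, mul_comm, mul_smul, hj₀, smul_zero]
          set A := (Hf (t j) (ht j)).filter fun h => x + h ∈ E₂ with hA
          have h1 : (A ∪ A.image fun h => h + θ).card = A.card + A.card := by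
            rw [Finset.card_union_of_disjoint, Finset.card_image_of_injective _
              (add_left_injective θ)]
            rw [Finset.disjoint_left]
            intro a ha ha2
            rw [Finset.mem_image] at ha2
            obtain ⟨b, hb, rfl⟩ := ha2
            have h3 := (Finset.mem_filter.1 ha).2
            have h4 := (Finset.mem_filter.1 hb).2
            rw [← add_assoc] at h3
            exact hdisj _ h4 h3
          have h2 : A ∪ (A.image fun h => h + θ) ⊆
              (Hf (t j) (ht j)).filter fun h => x + h ∈ E := by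
            intro a ha
            rw [Finset.mem_union] at ha
            rw [Finset.mem_filter]
            rcases ha with ha | ha
            · have h3 := Finset.mem_filter.1 ha
              exact ⟨h3.1, h3.2.1.1⟩
            · rw [Finset.mem_image] at ha
              obtain ⟨b, hb, rfl⟩ := ha
              have h3 := Finset.mem_filter.1 hb
              refine ⟨?_, ?_⟩
              · have h4 := (mem_Hf _).1 h3.1
                rw [mem_Hf, smul_add, h4, h0, add_zero]
              · rw [← add_assoc]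
                exact h3.2.1.2
          have h3 := (Finset.card_le_card h2).trans (hfew j x)
          rw [h1] at h3
          have : A.card ≤ M / 2 := by omega
          convert this
        intro j
        rcases le_total j₀ j with h | h
        · exact hbig j h
        · exact (hbig j₀ le_rfl).mono (ht j) (hd j j₀ h)
      obtain ⟨H, hH1, hH2⟩ := ih (M / 2) (Nat.div_lt_self (Nat.pos_of_ne_zero hM) (by norm_num))
        E₂ hE₂m hE₂0 hfew₂
      exact ⟨H, hH1.trans fun x hx => hx.1.1, hH2⟩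
    · push Not at hret
      set Γ : Set T := {θ | θ ≠ 0 ∧ ∃ j, t j • θ = 0} with hΓ
      have hΓc : Γ.Countable := by
        have : Γ ⊆ ⋃ j, (Hf (t j) (ht j) : Set T) := by
          rintro θ ⟨-, j, hj⟩
          exact mem_iUnion.2 ⟨j, Finset.mem_coe.2 ((mem_Hf _).2 hj)⟩
        exact (countable_iUnion fun j => Finset.countable_toSet _).mono this
      have hNm : MeasurableSet (⋃ θ ∈ Γ, {x | x ∈ E ∧ x + θ ∈ E}) :=
        MeasurableSet.biUnion hΓc fun θ _ => hE.inter (measurable_add_const θ hE)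
      have hN : ω (⋃ θ ∈ Γ, {x | x ∈ E ∧ x + θ ∈ E}) = 0 :=
        (measure_biUnion_null_iff hΓc).2 fun θ hθ => hret θ hθ.1 hθ.2
      refine ⟨E \ ⋃ θ ∈ Γ, {x | x ∈ E ∧ x + θ ∈ E}, sdiff_subset, hE.diff hNm, ?_, ?_⟩
      · rw [measure_sdiff_null hN]
        exact hE0
      · rintro x ⟨hx1, hx2⟩ θ hθ0 hθ ⟨hx3, -⟩
        exact hx2 (mem_iUnion₂.2 ⟨θ, ⟨hθ0, hθ⟩, hx1, hx3⟩)

/-- on a set with boundedly many points in each coset the returns avoid the groups -/
lemma ret_few {t : ℕ → ℕ} (ht : ∀ j, 0 < t j) (hd : ∀ i j, i ≤ j → t i ∣ t j) {ω : Measure T}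
    [IsFiniteMeasure ω] {C : Set T} (hω : Ret (C \ {0}) ω) {F : Set T} (hF : MeasurableSet F)
    {M : ℕ} (hfew : ∀ j, Few (t j) (ht j) F M) :
    Ret {θ | θ ∈ C ∧ ∀ j, t j • θ ≠ 0} (ω.restrict F) := by
  intro E hE hE0
  rw [Measure.restrict_apply hE] at hE0
  obtain ⟨H, hH1, hH2, hH3, hH4⟩ := wander ht hd M (E ∩ F) (hE.inter hF) hE0
    fun j => (hfew j).subset inter_subset_right
  obtain ⟨θ, hθ, hθ2⟩ := hω H hH2 hH3
  refine ⟨θ, ⟨hθ.1, fun j hj => ?_⟩, ?_⟩
  · apply hθ2
    have : {x | x ∈ H ∧ x + θ ∈ H} = ∅ := by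
      rw [eq_empty_iff_forall_notMem]
      rintro x ⟨hx1, hx2⟩
      exact hH4 x hx1 θ hθ.2 ⟨j, hj⟩ hx2
    rw [this, measure_empty]
  · have hm : MeasurableSet {x : T | x ∈ E ∧ x + θ ∈ E} :=
      hE.inter (measurable_add_const θ hE)
    rw [Measure.restrict_apply hm]
    intro h0
    apply hθ2
    refine measure_mono_null ?_ h0
    rintro x ⟨hx1, hx2⟩
    exact ⟨⟨(hH1 hx1).1, (hH1 hx2).1⟩, (hH1 hx1).2⟩

end Pool.Agent.Zk24.NZ
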