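import Mathlib
import Pool.Agent.Zk24.NZ.Rec
import Pool.Agent.Zk24.SC.Series

/-!
Measures ergodic under a countable group of translations, and sums of series with a trivial tail
sigma-algebra, are recurrent.
-/

set_option autoImplicit false

open MeasureTheory Filter Topology Set ProbabilityTheory
open scoped ENNReal NNReal

namespace Pool.Agent.Zk24.NZ

open Pool.Agent.Zk24.SC

/-- the Borel sets invariant under the group have measure zero or at least `c` -/
def ErgH (H : AddSubgroup T) (c : ℝ≥0∞) (ω : Measure T) : Prop :=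
  ∀ A : Set T, MeasurableSet A → (∀ x ∈ A, ∀ θ ∈ H, x + θ ∈ A) → ω A = 0 ∨ c ≤ ω A

lemma ret_of_erg {H : AddSubgroup T} (hH : (H : Set T).Countable) {ω : Measure T}
    [IsProbabilityMeasure ω] (hat : ∀ x : T, ω {x} = 0) {c : ℝ≥0∞} (hc : c ≠ 0)
    (h : ErgH H c ω) : Ret ((H : Set T) \ {0}) ω := by
  intro E hE hE0
  by_contra hcon
  push Not at hcon
  have hHc : ((H : Set T) \ {0}).Countable := hH.mono sdiff_subset
  have hNm : MeasurableSet (⋃ θ ∈ (H : Set T) \ {0}, {x | x ∈ E ∧ x + θ ∈ E}) :=
    MeasurableSet.biUnion hHc fun θ _ => hE.inter (measurable_add_const θ hE)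
  have hN : ω (⋃ θ ∈ (H : Set T) \ {0}, {x | x ∈ E ∧ x + θ ∈ E}) = 0 :=
    (measure_biUnion_null_iff hHc).2 fun θ hθ => hcon θ hθ
  set W : Set T := E \ ⋃ θ ∈ (H : Set T) \ {0}, {x | x ∈ E ∧ x + θ ∈ E} with hW
  have hWm : MeasurableSet W := hE.diff hNm
  have hW0 : ω W ≠ 0 := by
    rw [hW, measure_sdiff_null hN]
    exact hE0
  have hwan : ∀ x, ∀ θ ∈ H, ∀ η ∈ H, x + θ ∈ W → x + η ∈ W → θ = η := by
    intro x θ hθ η hη h1 h2
    by_contra hne
    apply h1.2
    refine mem_iUnion₂.2 ⟨η - θ, ⟨H.sub_mem hη hθ, ?_⟩, h1.1, ?_⟩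
    · rw [mem_singleton_iff, sub_eq_zero]
      exact fun h => hne h.symm
    · have : x + θ + (η - θ) = x + η := by abel
      rw [this]
      exact h2.1
  -- small neighbourhoods
  obtain ⟨x₀, hx₀W, hx₀⟩ := exists_mem_forall_mem_nhdsWithin_pos_measure hW0
  set B : ℕ → Set T := fun n => W ∩ Metric.closedBall x₀ (1 / ((n : ℝ) + 1)) with hB
  have hBm : ∀ n, MeasurableSet (B n) := fun n =>
    hWm.inter Metric.isClosed_closedBall.measurableSet
  have hB0 : ∀ n, 0 < ω (B n) := by
    intro n
    refine hx₀ (B n) (inter_mem self_mem_nhdsWithin (mem_nhdsWithin_of_mem_nhds ?_))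
    exact Metric.closedBall_mem_nhds _ (by positivity)
  -- their saturations
  set A : ℕ → Set T := fun n => ⋃ θ ∈ (H : Set T), {x | x + θ ∈ B n} with hA
  have hAm : ∀ n, MeasurableSet (A n) := fun n =>
    MeasurableSet.biUnion hH fun θ _ => measurable_add_const θ (hBm n)
  have hAinv : ∀ n, ∀ x ∈ A n, ∀ θ ∈ H, x + θ ∈ A n := by
    intro n x hx θ hθ
    obtain ⟨η, hη, hxη⟩ := mem_iUnion₂.1 hx
    refine mem_iUnion₂.2 ⟨η - θ, H.sub_mem hη hθ, ?_⟩
    have : x + θ + (η - θ) = x + η := by abel
    change x + θ + (η - θ) ∈ B n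
    rw [this]
    exact hxη
  have hBA : ∀ n, B n ⊆ A n := by
    intro n x hx
    refine mem_iUnion₂.2 ⟨0, H.zero_mem, ?_⟩
    change x + 0 ∈ B n
    rwa [add_zero]
  have hcA : ∀ n, c ≤ ω (A n) := by
    intro n
    rcases h (A n) (hAm n) (hAinv n) with h0 | h1
    · exact absurd (measure_mono_null (hBA n) h0) (hB0 n).ne'
    · exact h1
  have hanti : Antitone A := by
    intro m n hmn x hx
    obtain ⟨η, hη, hxη⟩ := mem_iUnion₂.1 hx
    refine mem_iUnion₂.2 ⟨η, hη, hxη.1, ?_⟩
    refine Metric.closedBall_subset_closedBall ?_ hxη.2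
    exact one_div_le_one_div_of_le (by positivity) (by
      have : (m : ℝ) ≤ n := by exact_mod_cast hmn
      linarith)
  have hlim := tendsto_measure_iInter_atTop (μ := ω) (fun n => (hAm n).nullMeasurableSet) hanti
    ⟨0, measure_ne_top _ _⟩
  have hint : ω (⋂ n, A n) = 0 := by
    refine measure_mono_null (t := (fun θ : T => x₀ - θ) '' (H : Set T)) ?_ ?_
    · intro x hx
      rw [mem_iInter] at hx
      obtain ⟨θ, hθ, hxθ⟩ := mem_iUnion₂.1 (hx 0)
      refine ⟨θ, hθ, ?_⟩
      have hall : ∀ n, x + θ ∈ B n := by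
        intro n
        obtain ⟨η, hη, hxη⟩ := mem_iUnion₂.1 (hx n)
        rw [hwan x θ hθ η hη hxθ.1 hxη.1]
        exact hxη
      have hx0 : x + θ = x₀ := by
        by_contra hne
        have hd : 0 < dist (x + θ) x₀ := dist_pos.2 hne
        obtain ⟨n, hn⟩ := exists_nat_one_div_lt hd
        exact absurd (hall n).2 (by
          rw [Metric.mem_closedBall, not_le]
          exact hn)
      change x₀ - θ = x
      rw [← hx0]
      abel
    · have hcount : ((fun θ : T => x₀ - θ) '' (H : Set T)).Countable := hH.image _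
      rw [← biUnion_of_singleton ((fun θ : T => x₀ - θ) '' (H : Set T))]
      exact (measure_biUnion_null_iff hcount).2 fun y _ => hat y
  rw [hint] at hlim
  obtain ⟨n, hn⟩ := ((tendsto_order.1 hlim).2 c (pos_iff_ne_zero.2 hc)).exists
  exact absurd (hcA n) (not_le.2 hn)

variable {Ω : Type*} [MeasurableSpace Ω] {P : Measure Ω} [IsProbabilityMeasure P] {X : ℕ → Ω → T}

/-- the sigma-algebra of the terms with index at least `k` -/
@[instance_reducible] def fut (X : ℕ → Ω → T) (k : ℕ) : MeasurableSpace Ω :=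
  ⨆ n : ℕ, MeasurableSpace.comap (X (k + n)) inferInstance

omit [MeasurableSpace Ω] in
lemma fut_mono (X : ℕ → Ω → T) {k l : ℕ} (h : k ≤ l) : fut X l ≤ fut X k := by
  refine iSup_le fun n => ?_
  have e : l + n = k + (l - k + n) := by omega
  rw [e]
  exact le_iSup (fun n => MeasurableSpace.comap (X (k + n)) inferInstance) (l - k + n)

/-- the law of the sum of a series with values in cosets of `H` and with a finite tail is a finite
sum of measures ergodic under `H` -/
lemma erg_series (hX : ∀ n, Measurable (X n)) {S : Ω → T} {H : AddSubgroup T} {a : ℕ → T}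
    (hH : ∀ n, ∀ᵐ ω ∂P, X n ω - a n ∈ H)
    (hlim : ∀ᵐ ω ∂P, Tendsto (fun N => ∑ i ∈ Finset.range N, X i ω) atTop (𝓝 (S ω)))
    {c : ℝ≥0∞} (htail : ∀ D : Set Ω, (∀ k : ℕ, MeasurableSet[fut X k] D) → P D = 0 ∨ c ≤ P D) :
    ErgH H c (P.map S) := by
  intro A hA hinv
  have hS := aemeas hX hlim
  rw [Measure.map_apply_of_aemeasurable hS hA]
  set R : ℕ → Ω → T := fun k ω =>
    limUnder atTop (fun N => ∑ i ∈ Finset.range N, X (k + i) ω) with hR
  have hRm : ∀ k, Measurable[fut X k] (R k) := by
    intro k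
    have h1 : ∀ N, Measurable[fut X k] (fun ω => ∑ i ∈ Finset.range N, X (k + i) ω) := by
      intro N
      refine @Finset.measurable_sum _ _ _ _ _ _ (fut X k) _ (Finset.range N) fun i _ => ?_
      refine Measurable.mono (comap_measurable (X (k + i))) ?_ le_rfl
      exact le_iSup (fun n => MeasurableSpace.comap (X (k + n)) inferInstance) i
    have h2 : ∀ N, @StronglyMeasurable Ω T _ (fut X k)
        (fun ω => ∑ i ∈ Finset.range N, X (k + i) ω) := fun N => (h1 N).stronglyMeasurable
    exact (@StronglyMeasurable.limUnder ℕ Ω T (fut X k) _ _ atTop _ _ _ _ h2).measurable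
  set sa : ℕ → T := fun k => ∑ i ∈ Finset.range k, a i with hsa
  set D' : ℕ → Set Ω := fun k => {ω | R k ω + sa k ∈ A} with hD'
  have hD'm : ∀ k, MeasurableSet[fut X k] (D' k) := by
    intro k
    have h1 : MeasurableSet {x : T | x + sa k ∈ A} := measurable_add_const (sa k) hA
    exact hRm k h1
  set D : Set Ω := {ω | ∀ j, ∃ k, j ≤ k ∧ ω ∈ D' k} with hD
  have hDm : ∀ l, MeasurableSet[fut X l] D := by
    intro l
    have e : D = ⋂ j : ℕ, ⋃ k : ℕ, D' (l + j + k) := by
      ext ω
      simp only [hD, mem_ofPred_eq, mem_iInter, mem_iUnion]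
      constructor
      · intro h j
        obtain ⟨k, hk, hk2⟩ := h (l + j)
        refine ⟨k - (l + j), ?_⟩
        have : l + j + (k - (l + j)) = k := by omega
        rwa [this]
      · intro h j
        obtain ⟨k, hk⟩ := h j
        exact ⟨l + j + k, by omega, hk⟩
    rw [e]
    refine @MeasurableSet.iInter _ _ (fut X l) _ _ fun j => @MeasurableSet.iUnion _ _ (fut X l) _ _
      fun k => ?_
    exact fut_mono X (by omega) _ (hD'm (l + j + k))
  have hae : (S ⁻¹' A : Set Ω) =ᵐ[P] D := by
    filter_upwards [hlim, ae_all_iff.2 hH] with ω h1 h2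
    have h3 : ∀ k, R k ω = S ω - ∑ i ∈ Finset.range k, X i ω := by
      intro k
      refine Tendsto.limUnder_eq ?_
      have h4 := (tendsto_add_atTop_iff_nat k).2 h1
      have h5 := h4.sub_const (∑ i ∈ Finset.range k, X i ω)
      refine h5.congr fun N => ?_
      rw [add_comm N k, Finset.sum_range_add, add_sub_cancel_left]
    have h6 : ∀ k, ω ∈ D' k ↔ S ω ∈ A := by
      intro k
      have h7 : ∑ i ∈ Finset.range k, (X i ω - a i) ∈ H := H.sum_mem fun i _ => h2 i
      have h8 : R k ω + sa k + ∑ i ∈ Finset.range k, (X i ω - a i) = S ω := by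
        rw [h3, Finset.sum_sub_distrib, hsa]
        abel
      constructor
      · intro h
        rw [← h8]
        exact hinv _ h _ h7
      · intro h
        have h9 : R k ω + sa k = S ω + -(∑ i ∈ Finset.range k, (X i ω - a i)) := by
          rw [← h8]; abel
        change R k ω + sa k ∈ A
        rw [h9]
        exact hinv _ h _ (H.neg_mem h7)
    refine propext ?_
    constructor
    · intro h
      exact fun j => ⟨j, le_rfl, (h6 j).2 h⟩
    · intro h
      obtain ⟨k, -, hk⟩ := h 0
      exact (h6 k).1 hk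
  rw [measure_congr hae]
  exact htail D hDm

omit [IsProbabilityMeasure P] in
/-- Kolmogorov -/
lemma tail_of_indep (hX : ∀ n, Measurable (X n)) (hind : iIndepFun X P) {D : Set Ω}
    (hD : ∀ k : ℕ, MeasurableSet[fut X k] D) : P D = 0 ∨ P D = 1 := by
  refine measure_zero_or_one_of_measurableSet_limsup_atTop
    (s := fun n => MeasurableSpace.comap (X n) inferInstance) (fun n => (hX n).comap_le) hind ?_
  rw [limsup_eq_iInf_iSup_of_nat', MeasurableSpace.measurableSet_iInf]
  intro k
  have e : (⨆ i : ℕ, MeasurableSpace.comap (X (i + k)) inferInstance) = fut X k := by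
    unfold fut
    congr 1
    funext i
    rw [add_comm i k]
  rw [e]
  exact hD k

/-- a countable group containing a countable set -/
lemma exists_group {K : Set T} (hK : K.Countable) :
    ∃ H : AddSubgroup T, (H : Set T).Countable ∧ K ⊆ H := by
  have hc : Countable K := hK.to_subtype
  refine ⟨(Submodule.span ℤ K).toAddSubgroup, ?_, Submodule.subset_span⟩
  have h1 : (Submodule.span ℤ K : Set T) = range (Finsupp.linearCombination ℤ (Subtype.val : K → T)) := by
    have h2 := Finsupp.range_linearCombination (M := T) ℤ (v := (Subtype.val : K → T))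
    rw [Subtype.range_coe] at h2
    rw [← h2]
    rfl
  change (Submodule.span ℤ K : Set T).Countable
  rw [h1]
  exact countable_range _

end Pool.Agent.Zk24.NZ
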