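import Mathlib

/-!
Two finite measures on the circle with the same Fourier coefficients agree (the proof of
`T2H28/OT/Circle`).
-/

set_option autoImplicit false

open MeasureTheory

namespace Pool.Agent.Zk24.NZ

/-- Two finite measures on the circle with the same Fourier coefficients agree. -/
lemma ext_of_fourier {μ ν : Measure UnitAddCircle} [IsFiniteMeasure μ] [IsFiniteMeasure ν]
    (h : ∀ n : ℤ, ∫ x, fourier n x ∂μ = ∫ x, fourier n x ∂ν) : μ = ν := by
  have hint : ∀ (ρ : Measure UnitAddCircle) [IsFiniteMeasure ρ] (f : C(UnitAddCircle, ℂ)),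
      Integrable (fun x => f x) ρ := by
    intro ρ _ f
    exact Continuous.integrable_of_hasCompactSupport (map_continuous f)
      (HasCompactSupport.of_compactSpace _)
  have hL : ∀ (ρ : Measure UnitAddCircle) [IsFiniteMeasure ρ],
      Continuous (fun f : C(UnitAddCircle, ℂ) => ∫ x, f x ∂ρ) := by
    intro ρ _
    refine (LipschitzWith.of_dist_le_mul (K := (ρ Set.univ).toNNReal) ?_).continuous
    intro f g
    rw [dist_eq_norm, ← integral_sub (hint ρ f) (hint ρ g)]
    refine (norm_integral_le_of_norm_le_const (C := dist f g) ?_).trans ?_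
    · refine Filter.Eventually.of_forall fun x => ?_
      rw [← dist_eq_norm]
      exact ContinuousMap.dist_apply_le_dist x
    · rw [mul_comm]
      exact le_of_eq rfl
  have key : ∀ f : C(UnitAddCircle, ℂ), ∫ x, f x ∂μ = ∫ x, f x ∂ν := by
    intro f
    have hf : f ∈ closure ((Submodule.span ℂ (Set.range (@fourier (1 : ℝ)))) :
        Set C(UnitAddCircle, ℂ)) := by
      have h1 := span_fourier_closure_eq_top (T := (1 : ℝ))
      have h2 : f ∈ (Submodule.span ℂ (Set.range (@fourier (1 : ℝ)))).topologicalClosure := by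
        rw [h1]; trivial
      exact h2
    refine closure_minimal (s := ((Submodule.span ℂ (Set.range (@fourier (1 : ℝ)))) :
        Set C(UnitAddCircle, ℂ))) (t := {g : C(UnitAddCircle, ℂ) | ∫ x, g x ∂μ = ∫ x, g x ∂ν})
        ?_ (isClosed_eq (hL μ) (hL ν)) hf
    intro g hg
    refine Submodule.span_induction (p := fun g _ => ∫ x, g x ∂μ = ∫ x, g x ∂ν) ?_ ?_ ?_ ?_ hg
    · rintro _ ⟨n, rfl⟩
      exact h n
    · simp
    · intro a b _ _ ha hb
      simp only [ContinuousMap.add_apply]
      rw [integral_add (hint μ a) (hint μ b), integral_add (hint ν a) (hint ν b), ha, hb]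
    · intro c a _ ha
      simp only [ContinuousMap.smul_apply]
      rw [integral_smul, integral_smul, ha]
  refine ext_of_forall_integral_eq_of_IsFiniteMeasure fun f => ?_
  let g : C(UnitAddCircle, ℂ) := ⟨fun x => (f x : ℂ), by fun_prop⟩
  have h1 := key g
  have h2 : ∀ ρ : Measure UnitAddCircle, ∫ x, g x ∂ρ = ((∫ x, f x ∂ρ : ℝ) : ℂ) := by
    intro ρ
    exact integral_complex_ofReal
  rw [h2, h2] at h1
  exact_mod_cast h1

end Pool.Agent.Zk24.NZ
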