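import Mathlib

/-!
The order of `p` modulo the powers of `b`.
-/

set_option autoImplicit false

namespace Pool.Agent.Zk24.NZ

lemma emult_pow_sub_one {l u : ℕ} (hl : l.Prime) (hu : 1 ≤ u) (hlu : l ^ 2 ∣ u - 1) (n : ℕ) :
    emultiplicity l (u ^ n - 1) = emultiplicity l (u - 1) + emultiplicity l n := by
  have hl1 : l ∣ u - 1 := dvd_trans (dvd_pow_self l two_ne_zero) hlu
  have hlnu : ¬ l ∣ u := by
    intro h
    have h1 : l ∣ 1 := by
      have h2 := Nat.dvd_sub h hl1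
      have h3 : u - (u - 1) = 1 := by omega
      rwa [h3] at h2
    exact hl.one_lt.ne' (Nat.dvd_one.1 h1)
  rcases hl.eq_two_or_odd' with h2 | hodd
  · subst h2
    have h3 : (4 : ℤ) ∣ (u : ℤ) - 1 := by
      have h4 : ((2 ^ 2 : ℕ) : ℤ) ∣ ((u - 1 : ℕ) : ℤ) := Int.natCast_dvd_natCast.2 hlu
      rw [Nat.cast_sub hu] at h4
      simpa using h4
    have h5 : ¬ (2 : ℤ) ∣ (u : ℤ) := by
      intro h
      exact hlnu (by exact_mod_cast h)
    have h6 := Int.two_pow_sub_pow' (x := (u : ℤ)) (y := 1) n h3 h5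
    rw [one_pow] at h6
    have e1 : ((u : ℤ) ^ n - 1) = ((u ^ n - 1 : ℕ) : ℤ) := by
      rw [Nat.cast_sub (Nat.one_le_pow _ _ hu)]
      push_cast
      rfl
    have e2 : ((u : ℤ) - 1) = ((u - 1 : ℕ) : ℤ) := by
      rw [Nat.cast_sub hu]
      rfl
    rw [e1, e2] at h6
    have c : ∀ m : ℕ, emultiplicity (2 : ℤ) (m : ℤ) = emultiplicity 2 m := by
      intro m
      exact_mod_cast Int.natCast_emultiplicity 2 m
    rw [c, c, c] at h6
    exact h6
  · have hf : Fact l.Prime := ⟨hl⟩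
    have h6 := Nat.emultiplicity_pow_sub_pow hl hodd (x := u) (y := 1) hl1 hlnu n
    rwa [one_pow] at h6

/-- if `b ^ j` divides `m (p ^ n - 1)` then `b ^ j ≤ c m n` -/
theorem ord_lower {p b : ℕ} (hp : 2 ≤ p) (hb : 1 ≤ b) (hc : Nat.Coprime p b) :
    ∃ c : ℕ, 0 < c ∧ ∀ j n m : ℕ, 0 < n → 0 < m → b ^ j ∣ m * (p ^ n - 1) → b ^ j ≤ c * m * n := by
  set d := Nat.totient (b ^ 2) with hd
  have hd0 : 0 < d := Nat.totient_pos.2 (by positivity)
  set u := p ^ d with hu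
  have hu1 : 1 ≤ u := Nat.one_le_pow _ _ (by omega)
  have hu2 : 2 ≤ u := le_trans hp (Nat.le_self_pow hd0.ne' p)
  have hbu : b ^ 2 ∣ u - 1 := by
    have h1 := Nat.ModEq.pow_totient (Nat.Coprime.pow_right 2 hc)
    exact (Nat.modEq_iff_dvd' hu1).1 h1.symm
  refine ⟨u - 1, by omega, fun j n m hn hm hdiv => ?_⟩
  have h1 : b ^ j ∣ m * (u ^ n - 1) := by
    refine dvd_trans hdiv (Nat.mul_dvd_mul_left m ?_)
    rw [hu, ← pow_mul, mul_comm d n, pow_mul]
    have := Nat.sub_dvd_pow_sub_pow (p ^ n) 1 d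
    rwa [one_pow] at this
  have h2 : b ^ j ∣ m * ((u - 1) * n) := by
    rw [Nat.dvd_iff_prime_pow_dvd_dvd]
    intro l k hl hlk
    rcases Nat.eq_zero_or_pos k with hk | hk
    · subst hk; simp
    have hlb : l ∣ b := hl.dvd_of_dvd_pow (dvd_trans (dvd_pow_self l hk.ne') hlk)
    have hl2 : l ^ 2 ∣ u - 1 := dvd_trans (pow_dvd_pow_of_dvd hlb 2) hbu
    have h3 := dvd_trans hlk h1
    rw [pow_dvd_iff_le_emultiplicity, emultiplicity_mul hl.prime] at h3 ⊢
    rw [emult_pow_sub_one hl hu1 hl2 n] at h3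
    rwa [emultiplicity_mul hl.prime]
  have h3 : 0 < m * ((u - 1) * n) := by
    have : 0 < u - 1 := by omega
    positivity
  calc b ^ j ≤ m * ((u - 1) * n) := Nat.le_of_dvd h3 h2
    _ = (u - 1) * m * n := by ring

end Pool.Agent.Zk24.NZ
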