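import Mathlib
import Pool.Agent.Zk24.NZ.Sep
import Pool.Agent.Zk24.NZ.Ord

/-!
Few points of a coset of a finite group have a bad average of exponentials.
-/

set_option autoImplicit false

open MeasureTheory Filter Topology Set
open scoped ENNReal NNReal ComplexConjugate

namespace Pool.Agent.Zk24.NZ

open Pool.Agent.Zk24.SC

lemma fou_add (n : ℤ) (x y : T) : fourier n (x + y) = (fourier n x : ℂ) * fourier n y := by
  simp only [fourier_apply, smul_add, AddCircle.toCircle_add, Circle.coe_mul]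

lemma fou_smul (m : ℤ) (k : ℕ) (x : T) : (fourier m (k • x) : ℂ) = fourier (m * k) x := by
  simp only [fourier_apply]
  rw [mul_smul, natCast_zsmul]

lemma fou_conj (n : ℤ) (x : T) : conj (fourier n x : ℂ) = fourier (-n) x := fourier_neg.symm

lemma fou_norm (n : ℤ) (x : T) : ‖(fourier n x : ℂ)‖ = 1 := by
  rw [fourier_apply]
  exact Circle.norm_coe _

lemma fou_sum {t : ℕ} (ht : 0 < t) {n : ℤ} (hn : ¬ (t : ℤ) ∣ n) :
    ∑ h ∈ Hf t ht, (fourier n (h : T) : ℂ) = 0 := by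
  have htR : (t : ℝ) ≠ 0 := by exact_mod_cast ht.ne'
  set h₀ : T := ((1 / t : ℝ) : T) with hh₀
  have hmem : t • h₀ = 0 := by
    rw [hh₀, ← AddCircle.coe_nsmul, nsmul_eq_mul, mul_one_div_cancel htR]
    exact AddCircle.coe_period 1
  have hχ : (fourier n h₀ : ℂ) ≠ 1 := by
    intro h1
    apply hn
    rw [fourier_apply] at h1
    have h2 : AddCircle.toCircle (n • h₀) = AddCircle.toCircle (0 : T) := by
      rw [AddCircle.toCircle_zero]
      ext
      rw [h1]
      rfl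
    have h3 := AddCircle.injective_toCircle (T := (1 : ℝ)) one_ne_zero h2
    rw [hh₀, ← AddCircle.coe_zsmul, AddCircle.coe_eq_zero_iff] at h3
    obtain ⟨k, hk⟩ := h3
    refine ⟨k, ?_⟩
    simp only [zsmul_eq_mul, mul_one] at hk
    have : (n : ℝ) = t * k := by
      rw [hk]
      field_simp
    exact_mod_cast this
  have h1 : ∑ h ∈ Hf t ht, (fourier n (h + h₀ : T) : ℂ) = ∑ h ∈ Hf t ht, (fourier n (h : T) : ℂ) := by
    refine Finset.sum_nbij' (fun h => h + h₀) (fun h => h - h₀) ?_ ?_ ?_ ?_ ?_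
    · intro h hh
      rw [mem_Hf] at hh ⊢
      rw [smul_add, hh, hmem, add_zero]
    · intro h hh
      rw [mem_Hf] at hh ⊢
      rw [smul_sub, hh, hmem, sub_zero]
    · intro h _; simp
    · intro h _; simp
    · intro h _; rfl
  have h2 : ∑ h ∈ Hf t ht, (fourier n (h + h₀ : T) : ℂ) =
      (∑ h ∈ Hf t ht, (fourier n (h : T) : ℂ)) * fourier n h₀ := by
    rw [Finset.sum_mul]
    exact Finset.sum_congr rfl fun h _ => fou_add n h h₀
  rw [h2] at h1
  have h3 : (∑ h ∈ Hf t ht, (fourier n (h : T) : ℂ)) * (fourier n h₀ - 1) = 0 := by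
    rw [mul_sub, h1, mul_one, sub_self]
  rcases mul_eq_zero.1 h3 with h4 | h4
  · exact h4
  · exact absurd (sub_eq_zero.1 h4) hχ

lemma card_Hf {t : ℕ} (ht : 0 < t) : (Hf t ht).card ≤ t := by
  classical
  have hsub : Hf t ht ⊆ (Finset.range t).image fun j => Pool.Agent.W764.FB.hh t 1 j := by
    intro h hh
    rw [mem_Hf] at hh
    by_cases h0 : h = 0
    · refine Finset.mem_image.2 ⟨0, Finset.mem_range.2 ht, ?_⟩
      rw [h0, Pool.Agent.W764.FB.hh]
      simp
    · obtain ⟨j, -, hj2, hj⟩ := torsion_rep ht h0 hh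
      exact Finset.mem_image.2 ⟨j, Finset.mem_range.2 hj2, hj.symm⟩
  exact (Finset.card_le_card hsub).trans (Finset.card_image_le.trans (by simp))

/-- the sum over a coset of the squares of the exponential sums -/
lemma sum_sq {t : ℕ} (ht : 0 < t) {K : ℕ} {f : ℕ → ℤ}
    (hne : ∀ a < K, ∀ a' < K, a ≠ a' → ¬ (t : ℤ) ∣ f a - f a') (x : T) :
    ∑ h ∈ Hf t ht, ‖∑ a ∈ Finset.range K, (fourier (f a) (x + h : T) : ℂ)‖ ^ 2 =
      K * (Hf t ht).card := by
  have key : ((∑ h ∈ Hf t ht, ‖∑ a ∈ Finset.range K, (fourier (f a) (x + h : T) : ℂ)‖ ^ 2 : ℝ) : ℂ)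
      = ((K * (Hf t ht).card : ℝ) : ℂ) := by
    push_cast
    have e1 : ∀ h : T, ((‖∑ a ∈ Finset.range K, (fourier (f a) (x + h : T) : ℂ)‖ : ℂ) ^ 2) =
        ∑ a ∈ Finset.range K, ∑ a' ∈ Finset.range K,
          (fourier (f a - f a') x : ℂ) * fourier (f a - f a') h := by
      intro h
      rw [← Complex.mul_conj', map_sum, Finset.sum_mul_sum]
      refine Finset.sum_congr rfl fun a _ => Finset.sum_congr rfl fun a' _ => ?_
      rw [fou_conj, ← fourier_add, ← sub_eq_add_neg, fou_add]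
    rw [Finset.sum_congr rfl fun h _ => e1 h, Finset.sum_comm]
    have e2 : ∀ a ∈ Finset.range K, ∑ h ∈ Hf t ht, ∑ a' ∈ Finset.range K,
        (fourier (f a - f a') x : ℂ) * fourier (f a - f a') h = (Hf t ht).card := by
      intro a ha
      rw [Finset.sum_comm, Finset.sum_eq_single a]
      · simp
      · intro a' ha' hne'
        rw [← Finset.mul_sum, fou_sum ht (hne a (Finset.mem_range.1 ha) a'
          (Finset.mem_range.1 ha') hne'.symm), mul_zero]
      · intro h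
        exact absurd ha h
    rw [Finset.sum_congr rfl e2, Finset.sum_const, Finset.card_range, nsmul_eq_mul]
  exact_mod_cast key

/-- few points of each coset have a large average -/
lemma few_bad {t : ℕ} (ht : 0 < t) {K : ℕ} (hK : 0 < K) {f : ℕ → ℤ}
    (hne : ∀ a < K, ∀ a' < K, a ≠ a' → ¬ (t : ℤ) ∣ f a - f a') {ε : ℝ} (hε : 0 < ε) {M : ℕ}
    (hM : (t : ℝ) ≤ M * (K * ε ^ 2)) :
    Few t ht {x | ε ≤ ‖(K : ℂ)⁻¹ * ∑ a ∈ Finset.range K, (fourier (f a) (x : T) : ℂ)‖} M := by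
  classical
  intro x
  have hKR : (0 : ℝ) < K := by exact_mod_cast hK
  set B := (Hf t ht).filter fun h =>
    x + h ∈ {x | ε ≤ ‖(K : ℂ)⁻¹ * ∑ a ∈ Finset.range K, (fourier (f a) (x : T) : ℂ)‖} with hB
  have h1 : (B.card : ℝ) * (K * ε) ^ 2 ≤ K * t := by
    calc (B.card : ℝ) * (K * ε) ^ 2 = ∑ _h ∈ B, (K * ε) ^ 2 := by
          rw [Finset.sum_const, nsmul_eq_mul]
      _ ≤ ∑ h ∈ B, ‖∑ a ∈ Finset.range K, (fourier (f a) (x + h : T) : ℂ)‖ ^ 2 := by
          refine Finset.sum_le_sum fun h hh => ?_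
          have h2 : ε ≤ ‖(K : ℂ)⁻¹ * ∑ a ∈ Finset.range K, (fourier (f a) (x + h : T) : ℂ)‖ :=
            (Finset.mem_filter.1 hh).2
          rw [norm_mul, norm_inv, Complex.norm_natCast, inv_mul_eq_div, le_div_iff₀ hKR] at h2
          refine pow_le_pow_left₀ (by positivity) ?_ 2
          linarith
      _ ≤ ∑ h ∈ Hf t ht, ‖∑ a ∈ Finset.range K, (fourier (f a) (x + h : T) : ℂ)‖ ^ 2 :=
          Finset.sum_le_sum_of_subset_of_nonneg (Finset.filter_subset _ _) fun _ _ _ => by positivity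
      _ = K * (Hf t ht).card := sum_sq ht hne x
      _ ≤ K * t := by
          have : ((Hf t ht).card : ℝ) ≤ t := by exact_mod_cast card_Hf ht
          gcongr
  have h2 : (B.card : ℝ) * (K * ε ^ 2) ≤ M * (K * ε ^ 2) := by
    have h3 : (B.card : ℝ) * (K * ε) ^ 2 = K * ((B.card : ℝ) * (K * ε ^ 2)) := by ring
    rw [h3] at h1
    exact (le_of_mul_le_mul_left h1 hKR).trans hM
  have h3 : (B.card : ℝ) ≤ M := le_of_mul_le_mul_right h2 (by positivity)
  have h4 : B.card ≤ M := by exact_mod_cast h3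
  convert h4

end Pool.Agent.Zk24.NZ
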