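import Mathlib
import Pool.Agent.Zk24.NZ.Four
import Pool.Agent.Zk24.NZ.Rec
import Pool.Agent.Zk32.Kry
import Pool.Agent.Zk24.NZ.Fext

/-!
Measures for which the sets with few points in each coset of the groups of `b`-adic points have
small measure are singular to every invariant measure singular to Lebesgue measure.
-/

set_option autoImplicit false

open MeasureTheory Filter Topology Set
open scoped ENNReal NNReal

namespace Pool.Agent.Zk24.NZ

open Pool.Agent.Zk24.SC

/-- sets with few points in each coset have small measure -/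
def HD (b : ℕ) (hb : 0 < b) (η : Measure T) : Prop :=
  ∀ (M : ℕ) (ε : ℝ≥0∞), ε ≠ 0 → ∃ j₀ : ℕ, ∀ j, j₀ ≤ j → ∀ E : Set T, MeasurableSet E →
    Few (b ^ j) (pow_pos hb j) E M → η E ≤ ε

/-- averages of the images -/
noncomputable def avg (p K : ℕ) (κ : Measure T) : Measure T :=
  (K : ℝ≥0∞)⁻¹ • ∑ a ∈ Finset.range K, κ.map (fun x : T => p ^ a • x)

lemma avg_prob {p K : ℕ} (hK : 0 < K) (κ : Measure T) [IsProbabilityMeasure κ] :
    IsProbabilityMeasure (avg p K κ) := by
  constructor
  unfold avg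
  rw [Measure.smul_apply, Measure.finsetSum_apply, smul_eq_mul]
  have h2 : ∀ a ∈ Finset.range K, κ.map (fun x : T => p ^ a • x) univ = 1 := by
    intro a _
    rw [Measure.map_apply (meas_nsmul _) MeasurableSet.univ, preimage_univ, measure_univ]
  rw [Finset.sum_congr rfl h2]
  simp only [Finset.sum_const, Finset.card_range, nsmul_eq_mul, mul_one]
  exact ENNReal.inv_mul_cancel (by exact_mod_cast hK.ne') (ENNReal.natCast_ne_top K)

lemma cont_int (κ : Measure T) [IsFiniteMeasure κ] {f : T → ℂ} (hf : Continuous f) :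
    Integrable f κ := by
  obtain ⟨M, hM⟩ := (isCompact_range hf).isBounded.exists_norm_le
  exact Integrable.of_bound (hf.measurable.aestronglyMeasurable) M
    (Eventually.of_forall fun x => hM _ ⟨x, rfl⟩)

lemma avg_int {p K : ℕ} (κ : Measure T) [IsFiniteMeasure κ] {f : T → ℂ} (hf : Continuous f) :
    ∫ x, f x ∂(avg p K κ) = ∫ x, (K : ℂ)⁻¹ * ∑ a ∈ Finset.range K, f (p ^ a • x) ∂κ := by
  have hc : ∀ a : ℕ, Continuous fun x : T => f (p ^ a • x) := fun a => by fun_prop
  unfold avg
  rw [integral_smul_measure, integral_finsetSum_measure (fun a _ => cont_int _ hf),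
    integral_const_mul, integral_finsetSum _ (fun a _ => cont_int _ (hc a))]
  have e : ((K : ℝ≥0∞)⁻¹).toReal • (∑ a ∈ Finset.range K, ∫ x, f x ∂(κ.map fun x : T => p ^ a • x)) =
      (K : ℂ)⁻¹ * (∑ a ∈ Finset.range K, ∫ x, f x ∂(κ.map fun x : T => p ^ a • x)) := by
    rw [Complex.real_smul]
    congr 1
    simp
  rw [e]
  congr 1
  refine Finset.sum_congr rfl fun a _ => ?_
  rw [integral_map (meas_nsmul _).aemeasurable hf.measurable.aestronglyMeasurable]

lemma avg_le {p K : ℕ} (hK : 0 < K) {κ μ : Measure T} {D : ℝ≥0∞} (h : κ ≤ D • μ)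
    (hμ : MeasurePreserving (fun x : T => p • x) μ μ) : avg p K κ ≤ D • μ := by
  unfold avg
  have h1 : ∀ a ∈ Finset.range K, κ.map (fun x : T => p ^ a • x) ≤ D • μ := by
    intro a _
    refine (Measure.map_mono h (meas_nsmul _)).trans (le_of_eq ?_)
    rw [Measure.map_smul, (mp_pow hμ a).map_eq]
  have h2 : ∑ a ∈ Finset.range K, κ.map (fun x : T => p ^ a • x) ≤ (K : ℝ≥0∞) • (D • μ) := by
    refine (Finset.sum_le_sum h1).trans (le_of_eq ?_)
    rw [Finset.sum_const, Finset.card_range, Nat.cast_smul_eq_nsmul]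
  refine Measure.le_intro fun A _ _ => ?_
  rw [Measure.smul_apply, smul_eq_mul]
  calc (K : ℝ≥0∞)⁻¹ * (∑ a ∈ Finset.range K, κ.map (fun x : T => p ^ a • x)) A
      ≤ (K : ℝ≥0∞)⁻¹ * ((K : ℝ≥0∞) • (D • μ)) A := mul_le_mul_right (h2 A) _
    _ = (D • μ) A := by
        rw [Measure.smul_apply (K : ℝ≥0∞), smul_eq_mul, ← mul_assoc,
          ENNReal.inv_mul_cancel (by exact_mod_cast hK.ne') (ENNReal.natCast_ne_top K), one_mul]

/-- small coefficients of the averages -/
lemma small_coef {p b : ℕ} (hp : 2 ≤ p) (hb : 2 ≤ b) (hc : Nat.Coprime p b) {η : Measure T}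
    (hη : HD b (by omega) η) {κ : Measure T} [IsProbabilityMeasure κ] {D : ℝ≥0∞} (hD : D ≠ ∞)
    (hκ : κ ≤ D • η) (n : ℕ) : ∃ K : ℕ, 0 < K ∧ ∀ m : ℤ, m ≠ 0 → m.natAbs ≤ n →
      ‖∫ x, (fourier m (x : T) : ℂ) ∂(avg p K κ)‖ ≤ 2 / (n + 1) := by
  obtain ⟨c, hc0, hcl⟩ := ord_lower hp (by omega : 1 ≤ b) hc
  set ε : ℝ := 1 / (n + 1) with hε
  have hε0 : 0 < ε := by positivity
  set M : ℕ := ⌈2 * (c * (n + 1)) / ε ^ 2⌉₊ with hM
  have hM1 : 2 * (c * (n + 1)) / ε ^ 2 ≤ M := Nat.le_ceil _
  -- the scale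
  have hd0 : ENNReal.ofReal ε / (D + 1) ≠ 0 := by
    rw [Ne, ENNReal.div_eq_zero_iff, not_or]
    exact ⟨(ENNReal.ofReal_pos.2 hε0).ne', ENNReal.add_ne_top.2 ⟨hD, ENNReal.one_ne_top⟩⟩
  obtain ⟨j₀, hj₀⟩ := hη M _ hd0
  obtain ⟨j₁, hj₁⟩ : ∃ j₁, c * (n + 1) < b ^ j₁ := pow_unbounded_of_one_lt _ (by omega)
  set j := max j₀ j₁ with hj
  set t := b ^ j with ht
  have ht0 : 0 < t := by positivity
  have htl : c * (n + 1) < t := hj₁.trans_le (Nat.pow_le_pow_right (by omega) (le_max_right _ _))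
  set N := c * (n + 1) with hN
  have hN0 : 0 < N := by positivity
  set K := t / N with hK
  have hK0 : 0 < K := Nat.div_pos htl.le hN0
  have hKt : N * K ≤ t := Nat.mul_div_le t N
  have htK : t < N * (K + 1) := by
    rw [mul_comm]
    exact Nat.lt_mul_of_div_lt (by omega) hN0
  refine ⟨K, hK0, fun m hm hmn => ?_⟩
  set f : ℕ → ℤ := fun a => m * ((p ^ a : ℕ) : ℤ) with hf
  have hcop : Nat.Coprime t p := (Nat.Coprime.pow_right j hc).symm
  have hne' : ∀ a' a, a' < a → a < K → ¬ (t : ℤ) ∣ f a - f a' := by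
    intro a' a haa haK hdiv
    have e1 : f a - f a' = ((p ^ a' : ℕ) : ℤ) * (m * ((p ^ (a - a') - 1 : ℕ) : ℤ)) := by
      rw [hf, Nat.cast_sub (Nat.one_le_pow _ _ (by omega))]
      have : p ^ a = p ^ a' * p ^ (a - a') := by rw [← pow_add]; congr 1; omega
      simp only [this]
      push_cast
      ring
    rw [e1] at hdiv
    have h1 : (t : ℤ) ∣ m * ((p ^ (a - a') - 1 : ℕ) : ℤ) :=
      (Int.isCoprime_iff_gcd_eq_one.2 (by
        rw [Int.gcd_natCast_natCast]
        exact Nat.Coprime.pow_right a' hcop)).dvd_of_dvd_mul_left hdiv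
    have h2 : t ∣ m.natAbs * (p ^ (a - a') - 1) := by
      have := Int.natAbs_dvd_natAbs.2 h1
      rwa [Int.natAbs_mul, Int.natAbs_natCast, Int.natAbs_natCast] at this
    have h3 := hcl j (a - a') m.natAbs (by omega) (Int.natAbs_pos.2 hm) h2
    have h4 : c * m.natAbs * (a - a') < t := by
      calc c * m.natAbs * (a - a') ≤ c * (n + 1) * (a - a') := by
            gcongr
            omega
        _ < N * K := by
            rw [← hN]
            exact Nat.mul_lt_mul_of_pos_left (by omega) hN0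
        _ ≤ t := hKt
    omega
  have hne : ∀ a < K, ∀ a' < K, a ≠ a' → ¬ (t : ℤ) ∣ f a - f a' := by
    intro a ha a' ha' haa hdiv
    rcases Nat.lt_or_gt_of_ne haa with h | h
    · refine hne' a a' h ha' ?_
      have := (dvd_neg (α := ℤ)).2 hdiv
      rwa [neg_sub] at this
    · exact hne' a' a h ha hdiv
  have htM : (t : ℝ) ≤ M * (K * ε ^ 2) := by
    have h1 : (t : ℝ) ≤ 2 * (c * (n + 1)) * K := by
      have h2 : t ≤ N * K + N * K := by
        have : N * (K + 1) ≤ N * K + N * K := by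
          rw [mul_add, mul_one]
          gcongr
          exact Nat.le_mul_of_pos_right N hK0
        omega
      have h3 : (t : ℝ) ≤ (N : ℝ) * K + N * K := by exact_mod_cast h2
      have h4 : (N : ℝ) = c * (n + 1) := by rw [hN]; push_cast; ring
      rw [h4] at h3
      linarith
    have h5 : 2 * (c * (n + 1)) ≤ M * ε ^ 2 := by
      rwa [div_le_iff₀ (by positivity)] at hM1
    calc (t : ℝ) ≤ 2 * (c * (n + 1)) * K := h1
      _ ≤ M * ε ^ 2 * K := by gcongr
      _ = M * (K * ε ^ 2) := by ring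
  have hfew := few_bad ht0 hK0 hne hε0 htM
  set F : T → ℂ := fun x => (K : ℂ)⁻¹ * ∑ a ∈ Finset.range K, (fourier (f a) (x : T) : ℂ) with hF
  have hFc : Continuous F := by
    refine continuous_const.mul (continuous_finsetSum _ fun a _ => ?_)
    exact (fourier (f a)).continuous
  have hF1 : ∀ x, ‖F x‖ ≤ 1 := by
    intro x
    rw [hF]
    simp only [norm_mul, norm_inv, Complex.norm_natCast]
    have hKR : (0 : ℝ) < K := by exact_mod_cast hK0
    rw [inv_mul_le_iff₀ hKR, mul_one]
    calc ‖∑ a ∈ Finset.range K, (fourier (f a) (x : T) : ℂ)‖ ≤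
        ∑ a ∈ Finset.range K, ‖(fourier (f a) (x : T) : ℂ)‖ := norm_sum_le _ _
      _ = K := by
          simp only [fou_norm, Finset.sum_const, Finset.card_range, nsmul_eq_mul, mul_one]
  have hEm : MeasurableSet {x : T | ε ≤ ‖F x‖} :=
    measurableSet_le measurable_const hFc.norm.measurable
  have hηE := hj₀ j (le_max_left _ _) _ hEm hfew
  have hκE : κ.real {x : T | ε ≤ ‖F x‖} ≤ ε := by
    have h1 : κ {x : T | ε ≤ ‖F x‖} ≤ ENNReal.ofReal ε := by
      calc κ {x : T | ε ≤ ‖F x‖} ≤ D * η {x : T | ε ≤ ‖F x‖} := hκ _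
        _ ≤ (D + 1) * (ENNReal.ofReal ε / (D + 1)) := by
            gcongr
            exact le_self_add
        _ ≤ ENNReal.ofReal ε := ENNReal.mul_div_le
    calc κ.real {x : T | ε ≤ ‖F x‖} ≤ (ENNReal.ofReal ε).toReal :=
          ENNReal.toReal_mono ENNReal.ofReal_ne_top h1
      _ = ε := ENNReal.toReal_ofReal hε0.le
  have e2 : ∫ x, (fourier m (x : T) : ℂ) ∂(avg p K κ) = ∫ x, F x ∂κ := by
    rw [avg_int κ (fourier m).continuous]
    refine integral_congr_ae (Eventually.of_forall fun x => ?_)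
    simp only [hF, hf, fou_smul]
  rw [e2]
  calc ‖∫ x, F x ∂κ‖ ≤ ∫ x, (ε + ({x : T | ε ≤ ‖F x‖}).indicator (fun _ => (1 : ℝ)) x) ∂κ := by
        refine norm_integral_le_of_norm_le
          ((integrable_const _).add ((integrable_const _).indicator hEm))
          (Eventually.of_forall fun x => ?_)
        by_cases hx : ε ≤ ‖F x‖
        · rw [indicator_of_mem (by exact hx)]
          linarith [hF1 x]
        · rw [indicator_of_notMem (by exact hx), add_zero]
          exact (not_le.1 hx).le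
    _ = ε + κ.real {x : T | ε ≤ ‖F x‖} := by
        rw [integral_add (integrable_const _) ((integrable_const _).indicator hEm),
          integral_const, probReal_univ, integral_indicator_const _ hEm]
        simp
    _ ≤ ε + ε := by linarith
    _ = 2 / (n + 1) := by rw [hε]; ring

/-- **Singularity of the diffuse part.** -/
theorem host_sing {p b : ℕ} (hp : 2 ≤ p) (hb : 2 ≤ b) (hc : Nat.Coprime p b) {μ : Measure T}
    [IsProbabilityMeasure μ] (hμp : MeasurePreserving (fun x : T => p • x) μ μ)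
    (hsing : μ ⟂ₘ (volume : Measure T)) {η : Measure T} [IsFiniteMeasure η]
    (hη : HD b (by omega) η) : μ ⟂ₘ η := by
  by_contra hns
  obtain ⟨e, he, E, hE, hE0, hle⟩ := Measure.exists_positive_of_not_mutuallySingular μ η hns
  set w := η E with hw
  have hwt : w ≠ ∞ := measure_ne_top _ _
  have hw0 : w ≠ 0 := hE0.ne'
  set κ : Measure T := w⁻¹ • η.restrict E with hκ
  have hκp : IsProbabilityMeasure κ := by
    constructor
    rw [hκ, Measure.smul_apply, Measure.restrict_apply_univ, smul_eq_mul,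
      ENNReal.inv_mul_cancel hw0 hwt]
  have hκη : κ ≤ w⁻¹ • η := by
    refine Measure.le_intro fun A _ _ => ?_
    rw [hκ, Measure.smul_apply, Measure.smul_apply, smul_eq_mul, smul_eq_mul]
    exact mul_le_mul_right (Measure.restrict_apply_le E A) _
  have heR : (e : ℝ≥0∞) ≠ 0 := by exact_mod_cast he.ne'
  set D : ℝ≥0∞ := (e * w)⁻¹ with hD
  have hDt : D ≠ ∞ := ENNReal.inv_ne_top.2 (mul_ne_zero heR hw0)
  have hκμ : κ ≤ D • μ := by
    refine Measure.le_intro fun A hA _ => ?_
    rw [hκ, Measure.smul_apply, Measure.smul_apply, smul_eq_mul, smul_eq_mul,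
      Measure.restrict_apply hA]
    calc w⁻¹ * η (A ∩ E) = D * (e * η (A ∩ E)) := by
          rw [hD, ENNReal.mul_inv (Or.inl heR) (Or.inl ENNReal.coe_ne_top)]
          rw [show (e : ℝ≥0∞)⁻¹ * w⁻¹ * (e * η (A ∩ E)) = ((e : ℝ≥0∞)⁻¹ * e) * (w⁻¹ * η (A ∩ E)) by
            ring, ENNReal.inv_mul_cancel heR ENNReal.coe_ne_top, one_mul]
      _ ≤ D * μ (A ∩ E) := mul_le_mul_right (hle A hA) _
      _ ≤ D * μ A := mul_le_mul_right (measure_mono inter_subset_left) _
  have hex := small_coef hp hb hc hη (ENNReal.inv_ne_top.2 hw0) hκη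
  choose K hK0 hK using hex
  have hτp : ∀ n, IsProbabilityMeasure (avg p (K n) κ) := fun n => avg_prob (hK0 n) κ
  set τ : ℕ → ProbabilityMeasure T := fun n => ⟨avg p (K n) κ, hτp n⟩ with hτ
  obtain ⟨τ', φ, hφ, hlim⟩ := CompactSpace.tendsto_subseq τ
  rw [ProbabilityMeasure.tendsto_iff_forall_integral_tendsto] at hlim
  have hlimC : ∀ f : C(T, ℂ), Tendsto (fun k => ∫ x, f x ∂(avg p (K (φ k)) κ)) atTop
      (𝓝 (∫ x, f x ∂(τ' : Measure T))) := by
    intro f
    have hre := hlim (BoundedContinuousFunction.mkOfCompact ⟨fun x => (f x).re, by fun_prop⟩)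
    have him := hlim (BoundedContinuousFunction.mkOfCompact ⟨fun x => (f x).im, by fun_prop⟩)
    have e1 : ∀ (σ : Measure T) [IsFiniteMeasure σ], ∫ x, f x ∂σ =
        ((∫ x, (f x).re ∂σ : ℝ) : ℂ) + ((∫ x, (f x).im ∂σ : ℝ) : ℂ) * Complex.I := by
      intro σ _
      exact (integral_re_add_im (cont_int σ f.continuous)).symm
    have h3 : ∀ k, ∫ x, f x ∂(avg p (K (φ k)) κ) =
        ((∫ x, (f x).re ∂(avg p (K (φ k)) κ) : ℝ) : ℂ) +
          ((∫ x, (f x).im ∂(avg p (K (φ k)) κ) : ℝ) : ℂ) * Complex.I := fun k => by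
      have := hτp (φ k)
      exact e1 _
    simp_rw [h3]
    rw [e1 (τ' : Measure T)]
    exact ((Complex.continuous_ofReal.tendsto _).comp hre).add
      (((Complex.continuous_ofReal.tendsto _).comp him).mul_const _)
  have hvol : (τ' : Measure T) = volume := by
    refine ext_of_fourier fun m => ?_
    by_cases hm : m = 0
    · subst hm
      simp
    · have h1 : Tendsto (fun k => ∫ x, (fourier m (x : T) : ℂ) ∂(avg p (K (φ k)) κ)) atTop (𝓝 0) := by
        have h2 : Tendsto (fun k : ℕ => (2 : ℝ) / ((φ k : ℕ) + 1)) atTop (𝓝 0) := by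
          have h3 : Tendsto (fun n : ℕ => (2 : ℝ) / ((n : ℝ) + 1)) atTop (𝓝 0) :=
            Tendsto.div_atTop tendsto_const_nhds
              (tendsto_atTop_add_const_right _ _ tendsto_natCast_atTop_atTop)
          exact h3.comp hφ.tendsto_atTop
        refine squeeze_zero_norm' ?_ h2
        filter_upwards [hφ.tendsto_atTop.eventually_ge_atTop m.natAbs] with k hk
        exact hK (φ k) m hm hk
      have h2 := tendsto_nhds_unique (hlimC (fourier m)) h1
      rw [h2]
      have h3 : ∫ x : T, (fourier m x : ℂ) = 0 :=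
        Pool.Agent.H847R3.XpXq.integral_fourier_zero hm
      rw [h3]
  -- Lebesgue measure is absolutely continuous with respect to `μ`
  have hac : (volume : Measure T) ≪ μ := by
    have hDR : 0 < D.toReal := ENNReal.toReal_pos
      (ENNReal.inv_ne_zero.2 (ENNReal.mul_ne_top ENNReal.coe_ne_top hwt)) hDt
    refine Pool.Agent.Zk32.ac_of_le hDR fun g hg => ?_
    rw [← hvol]
    refine le_of_tendsto (hlim (BoundedContinuousFunction.mkOfCompact g))
      (Eventually.of_forall fun k => ?_)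
    have h1 := avg_le (p := p) (hK0 (φ k)) hκμ hμp
    change ∫ x, g x ∂(avg p (K (φ k)) κ) ≤ _
    have h2 : ∫ x, g x ∂(avg p (K (φ k)) κ) ≤ ∫ x, g x ∂(D • μ) := by
      have hfin : IsFiniteMeasure (D • μ) := ⟨by
        rw [Measure.smul_apply, measure_univ, smul_eq_mul, mul_one]
        exact hDt.lt_top⟩
      exact integral_mono_measure h1 (Eventually.of_forall fun x => hg x)
        (int_cont g.continuous)
    rw [integral_smul_measure, smul_eq_mul] at h2
    exact h2
  have h0 : (volume : Measure T) = 0 :=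
    Measure.eq_zero_of_absolutelyContinuous_of_mutuallySingular hac hsing.symm
  have h1 : (volume : Measure T) univ = 1 := measure_univ
  rw [h0] at h1
  simp at h1

end Pool.Agent.Zk24.NZ
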