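import Mathlib
import Pool.Agent.Zk24.NZ.Rec
import Pool.Agent.Zk32.Chn12

/-!
The part of a measure on which sets with few points in each coset have small measure.
-/

set_option autoImplicit false

open MeasureTheory Filter Topology Set
open scoped ENNReal NNReal

namespace Pool.Agent.Zk24.NZ

open Pool.Agent.Zk24.SC

lemma eq_zero_of_small {t : ℕ} (ht : 0 < t) {u : T} (hu : t • u = 0) (h : ‖u‖ < 1 / t) : u = 0 := by
  by_contra hne
  have hfin : IsOfFinAddOrder u := isOfFinAddOrder_iff_nsmul_eq_zero.2 ⟨t, ht, hu⟩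
  have h1 := AddCircle.le_add_order_smul_norm_of_isOfFinAddOrder (p := (1 : ℝ)) hfin hne
  have h2 : addOrderOf u ≤ t := Nat.le_of_dvd ht (addOrderOf_dvd_of_nsmul_eq_zero hu)
  have h3 : ((addOrderOf u : ℕ) : ℝ) ≤ t := by exact_mod_cast h2
  rw [nsmul_eq_mul] at h1
  have ht' : (0 : ℝ) < t := by exact_mod_cast ht
  rw [lt_div_iff₀ ht'] at h
  nlinarith [norm_nonneg u]

lemma few_near {t : ℕ} (ht : 0 < t) {s : ℕ} (hc : Nat.Coprime s t) {η : ℝ} (hη : 2 * η ≤ 1 / t)
    (y : T) : Few t ht {x | ‖s • x - y‖ < η} 1 := by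
  classical
  intro x
  rw [Finset.card_le_one]
  intro a ha b hb
  have ha' := Finset.mem_filter.1 ha
  have hb' := Finset.mem_filter.1 hb
  have h1 : ‖s • (x + a) - y‖ < η := ha'.2
  have h2 : ‖s • (x + b) - y‖ < η := hb'.2
  have h3 : t • (a - b) = 0 := by
    rw [smul_sub, (mem_Hf ht).1 ha'.1, (mem_Hf ht).1 hb'.1, sub_zero]
  have h4 : t • (s • (a - b)) = 0 := by rw [smul_comm, h3, smul_zero]
  have h5 : ‖s • (a - b)‖ < 1 / t := by
    have e : s • (a - b) = (s • (x + a) - y) - (s • (x + b) - y) := by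
      simp only [smul_add, smul_sub]
      abel
    rw [e]
    exact (norm_sub_le _ _).trans_lt (by linarith)
  have h6 := eq_zero_of_small ht h4 h5
  have h7 : addOrderOf (a - b) ∣ Nat.gcd s t :=
    Nat.dvd_gcd (addOrderOf_dvd_of_nsmul_eq_zero h6) (addOrderOf_dvd_of_nsmul_eq_zero h3)
  rw [hc] at h7
  have h8 : addOrderOf (a - b) = 1 := Nat.dvd_one.1 h7
  rw [AddMonoid.addOrderOf_eq_one_iff] at h8
  exact sub_eq_zero.1 h8

/-- the images under the multipliers in `S` have uniformly small atoms at small scales -/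
def NC (S : Set ℕ) (β : Measure T) : Prop :=
  ∀ ε : ℝ≥0∞, ε ≠ 0 → ∃ η : ℝ, 0 < η ∧ ∀ s ∈ S, ∀ y : T, β {x | ‖s • x - y‖ < η} ≤ ε

lemma near_meas (s : ℕ) (y : T) (η : ℝ) : MeasurableSet {x : T | ‖s • x - y‖ < η} := by
  have h : Continuous fun x : T => ‖s • x - y‖ := by fun_prop
  exact measurableSet_lt h.measurable measurable_const

lemma nc_split {t : ℕ → ℕ} (ht : ∀ j, 0 < t j) {S : Set ℕ} (hS : ∀ s ∈ S, ∀ j, Nat.Coprime s (t j))
    {ω : Measure T} {F : Set T}
    (hF : ∀ (M : ℕ) (ε : ℝ≥0∞), ε ≠ 0 → ∃ j, ∀ E, MeasurableSet E → Few (t j) (ht j) E M →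
        ω (E \ F) ≤ ε) : NC S (ω.restrict Fᶜ) := by
  intro ε hε
  obtain ⟨j, hj⟩ := hF 1 ε hε
  have htj : (0 : ℝ) < t j := by exact_mod_cast ht j
  refine ⟨1 / (2 * t j), by positivity, fun s hs y => ?_⟩
  rw [Measure.restrict_apply (near_meas s y _)]
  refine hj _ (near_meas s y _) (few_near (ht j) (hS s hs j) ?_ y)
  rw [mul_one_div, mul_comm 2 ((t j : ℕ) : ℝ), ← div_div]
  have : (2 : ℝ) / (t j) / 2 = 1 / t j := by ring
  linarith

lemma NC.conv {S : Set ℕ} {β : Measure T} [IsFiniteMeasure β] (h : NC S β) (ν : Measure T)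
    [IsProbabilityMeasure ν] : NC S (β.conv ν) := by
  intro ε hε
  obtain ⟨η, hη, hS⟩ := h ε hε
  refine ⟨η, hη, fun s hs y => ?_⟩
  rw [conv_apply β ν (near_meas s y η)]
  calc ∫⁻ t, β {x | x + t ∈ {x : T | ‖s • x - y‖ < η}} ∂ν ≤ ∫⁻ _t, ε ∂ν := by
        refine lintegral_mono fun t => ?_
        have e : {x : T | x + t ∈ {x : T | ‖s • x - y‖ < η}} =
            {x | ‖s • x - (y - s • t)‖ < η} := by
          ext x
          simp only [mem_ofPred_eq]
          rw [smul_add, sub_sub_eq_add_sub]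
        rw [e]
        exact hS s hs _
    _ = ε := by rw [lintegral_const, measure_univ, mul_one]

lemma NC.smul {S : Set ℕ} {β : Measure T} (h : NC S β) {c : ℝ≥0∞} (hc : c ≠ 0) (hc' : c ≠ ∞) :
    NC S (c • β) := by
  intro ε hε
  obtain ⟨η, hη, hS⟩ := h (c⁻¹ * ε) (mul_ne_zero (ENNReal.inv_ne_zero.2 hc') hε)
  refine ⟨η, hη, fun s hs y => ?_⟩
  rw [Measure.smul_apply, smul_eq_mul]
  calc c * β {x | ‖s • x - y‖ < η} ≤ c * (c⁻¹ * ε) := mul_le_mul_right (hS s hs y) _
    _ = ε := by rw [← mul_assoc, ENNReal.mul_inv_cancel hc hc', one_mul]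

/-- **Noise whose images have uniformly small atoms at small scales.** -/
theorem noise_nc {p q : ℕ} (hp : 2 ≤ p) {μ : Measure T} [IsProbabilityMeasure μ]
    (hμp : MeasurePreserving (fun x : T => p • x) μ μ)
    (hμq : MeasurePreserving (fun x : T => q • x) μ μ)
    (hJ : Pool.Agent.Zk32.JE (fun x : T => p • x) (fun x : T => q • x) μ)
    (hne : μ ≠ volume) {c : ℤ} (hc : c ≠ 0) {β : Measure T} [IsProbabilityMeasure β]
    (hβ : NC {s | ∃ i j : ℕ, s = p ^ i * q ^ j} β) :
    μ ⟂ₘ ((μ.prod β).map (fun z : T × T => c • z.1 + z.2)) := by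
  have hex : ∀ k : ℕ, ∃ τ : ProbabilityMeasure T, ∀ g : C(T, ℝ),
      ∫ x, g x ∂(τ : Measure T) = Pool.Agent.Zk32.RA p q 0 0 (k + 1) (k + 1) β g := fun k =>
    Pool.Agent.Zk32.RA_exists (p := p) (q := q) (a := 0) (b := 0) (Nat.succ_pos k)
      (Nat.succ_pos k) ⟨β, inferInstance⟩
  choose τ hτ using hex
  obtain ⟨ω', φ, hφ, hlim⟩ := CompactSpace.tendsto_subseq τ
  have hφt : Tendsto (fun k => φ k + 1) atTop atTop :=
    (tendsto_add_atTop_nat 1).comp hφ.tendsto_atTop
  have hlim2 : ∀ g : C(T, ℝ), Tendsto (fun k =>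
      Pool.Agent.Zk32.RA p q 0 0 (φ k + 1) (φ k + 1) β g) atTop
        (𝓝 (∫ x, g x ∂(ω' : Measure T))) := by
    intro g
    rw [ProbabilityMeasure.tendsto_iff_forall_integral_tendsto] at hlim
    refine (hlim (BoundedContinuousFunction.mkOfCompact g)).congr fun k => ?_
    exact hτ (φ k) g
  have hat : ∀ y : T, (ω' : Measure T) {y} = 0 := by
    intro y
    by_contra hne0
    set δ := (ω' : Measure T) {y} with hδ
    have hδ2 : δ / 2 ≠ 0 := by simpa using hne0
    have hδt : δ ≠ ∞ := measure_ne_top _ _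
    obtain ⟨η, hη, hS⟩ := hβ (δ / 2) hδ2
    set g : C(T, ℝ) := ⟨fun x => max 0 (1 - ‖x - y‖ / η), by fun_prop⟩ with hg
    have hg0 : ∀ x, 0 ≤ g x := fun x => le_max_left _ _
    have hg1 : ∀ x, g x ≤ 1 := fun x => max_le zero_le_one (by
      have : 0 ≤ ‖x - y‖ / η := by positivity
      linarith)
    have hgz : ∀ x, ¬ ‖x - y‖ < η → g x = 0 := by
      intro x hx
      refine max_eq_left ?_
      rw [not_lt] at hx
      have : 1 ≤ ‖x - y‖ / η := by rwa [le_div_iff₀ hη, one_mul]
      linarith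
    have hgy : g y = 1 := by
      change max 0 (1 - ‖y - y‖ / η) = 1
      simp
    have h1 : ∀ i j : ℕ, ∫ x, g ((p ^ (0 + i) * q ^ (0 + j)) • x) ∂β ≤ (δ / 2).toReal := by
      intro i j
      have hm := near_meas (p ^ (0 + i) * q ^ (0 + j)) y η
      calc ∫ x, g ((p ^ (0 + i) * q ^ (0 + j)) • x) ∂β ≤
          ∫ x, ({x : T | ‖(p ^ (0 + i) * q ^ (0 + j)) • x - y‖ < η}).indicator
            (fun _ => (1 : ℝ)) x ∂β := by
            refine integral_mono ?_ ((integrable_const _).indicator hm) fun x => ?_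
            · have hc2 : Continuous fun x : T => g ((p ^ (0 + i) * q ^ (0 + j)) • x) := by
                fun_prop
              exact int_cont hc2
            · by_cases hx : ‖(p ^ (0 + i) * q ^ (0 + j)) • x - y‖ < η
              · rw [indicator_of_mem (by exact hx)]
                exact hg1 _
              · rw [indicator_of_notMem (by exact hx)]
                exact (hgz _ hx).le
        _ = β.real {x : T | ‖(p ^ (0 + i) * q ^ (0 + j)) • x - y‖ < η} := by
            rw [integral_indicator_const _ hm, smul_eq_mul, mul_one]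
        _ ≤ (δ / 2).toReal :=
            ENNReal.toReal_mono (ENNReal.div_ne_top hδt (by norm_num))
              (hS _ ⟨_, _, rfl⟩ y)
    have h2 : ∀ k, Pool.Agent.Zk32.RA p q 0 0 (φ k + 1) (φ k + 1) β g ≤ (δ / 2).toReal := by
      intro k
      unfold Pool.Agent.Zk32.RA
      have hpos : (0 : ℝ) < ((φ k + 1 : ℕ) : ℝ) := by positivity
      rw [inv_mul_le_iff₀ (by positivity)]
      calc ∑ i ∈ Finset.range (φ k + 1), ∑ j ∈ Finset.range (φ k + 1),
            ∫ x, g ((p ^ (0 + i) * q ^ (0 + j)) • x) ∂β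
          ≤ ∑ _i ∈ Finset.range (φ k + 1), ∑ _j ∈ Finset.range (φ k + 1), (δ / 2).toReal :=
            Finset.sum_le_sum fun i _ => Finset.sum_le_sum fun j _ => h1 i j
        _ = ((φ k + 1 : ℕ) : ℝ) * ((φ k + 1 : ℕ) : ℝ) * (δ / 2).toReal := by
            simp only [Finset.sum_const, Finset.card_range, nsmul_eq_mul]
            ring
    have h3 : ∫ x, g x ∂(ω' : Measure T) ≤ (δ / 2).toReal :=
      le_of_tendsto (hlim2 g) (Eventually.of_forall h2)
    have h4 : (ω' : Measure T).real {y} ≤ ∫ x, g x ∂(ω' : Measure T) := by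
      calc (ω' : Measure T).real {y} = ∫ x, ({y} : Set T).indicator (fun _ => (1 : ℝ)) x
            ∂(ω' : Measure T) := by
            rw [integral_indicator_const _ (measurableSet_singleton y), smul_eq_mul, mul_one]
        _ ≤ _ := by
            refine integral_mono ((integrable_const _).indicator (measurableSet_singleton y))
              (int_cont g.continuous) fun x => ?_
            by_cases hx : x = y
            · subst hx
              rw [indicator_of_mem (mem_singleton x), hgy]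
            · rw [indicator_of_notMem (by simpa using hx)]
              exact hg0 x
    have h5 : δ.toReal ≤ δ.toReal / 2 := by
      have h6 : (δ / 2).toReal = δ.toReal / 2 := by
        rw [ENNReal.toReal_div]; rfl
      rw [h6] at h3
      exact h4.trans h3
    have h6 : 0 < δ.toReal := ENNReal.toReal_pos hne0 hδt
    linarith
  exact Pool.Agent.Zk32.noise_limit hp hμp hμq hJ hne hc β (ω' : Measure T) hat hφt hφt hlim2

end Pool.Agent.Zk24.NZ
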