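import Mathlib
import Pool.Agent.Zk24.NZ.Conc

/-!
A jointly ergodic measure is singular to its images perturbed by a noise which is recurrent under
countably many translations.
-/

set_option autoImplicit false

open MeasureTheory Filter Topology Set
open scoped ENNReal NNReal

namespace Pool.Agent.Zk24.NZ

open Pool.Agent.Zk24.SC

/-- the product of the integers `1 ≤ i ≤ j` prime to `m` -/
def tt (m j : ℕ) : ℕ := ∏ i ∈ (Finset.range (j + 1)).filter (fun i => 0 < i ∧ Nat.Coprime m i), i

lemma tt_pos (m j : ℕ) : 0 < tt m j :=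
  Finset.prod_pos fun i hi => (Finset.mem_filter.1 hi).2.1

lemma tt_dvd (m : ℕ) {i j : ℕ} (h : i ≤ j) : tt m i ∣ tt m j := by
  unfold tt
  refine Finset.prod_dvd_prod_of_subset _ _ _ ?_
  exact Finset.filter_subset_filter _ (Finset.range_mono (by omega))

lemma dvd_tt {m t : ℕ} (ht : 0 < t) (hc : Nat.Coprime m t) : t ∣ tt m t := by
  unfold tt
  refine Finset.dvd_prod_of_mem (fun i => i) ?_
  exact Finset.mem_filter.2 ⟨Finset.mem_range.2 (by omega), ht, hc⟩

lemma tt_coprime (m j : ℕ) : Nat.Coprime m (tt m j) := by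
  unfold tt
  exact Nat.Coprime.prod_right fun i hi => (Finset.mem_filter.1 hi).2.2

lemma sing_pieces {lam ω μ : Measure T} [IsFiniteMeasure lam] [IsFiniteMeasure ω]
    [IsFiniteMeasure μ] (S : ℕ → Set T) (hU : ⋃ i, S i = univ)
    (h : ∀ i, μ ⟂ₘ lam.conv (ω.restrict (S i))) : μ ⟂ₘ lam.conv ω := by
  have h' : ∀ i, ∃ A : Set T, MeasurableSet A ∧ μ Aᶜ = 0 ∧ (lam.conv (ω.restrict (S i))) A = 0 := by
    intro i
    obtain ⟨A, hA, h1, h2⟩ := h i
    exact ⟨Aᶜ, hA.compl, by rwa [compl_compl], h2⟩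
  choose A hA h1 h2 using h'
  have hAm : MeasurableSet (⋂ i, A i) := MeasurableSet.iInter hA
  have hmeas : ∀ B : Set T, MeasurableSet B → Measurable fun t => lam {x | x + t ∈ B} := by
    intro B hB
    have e : (fun t => lam {x | x + t ∈ B}) = fun t =>
        lam (Prod.mk t ⁻¹' ((fun z : T × T => z.1 + z.2) ⁻¹' B)) := by
      funext t
      congr 1
      ext x
      simp [add_comm]
    rw [e]
    exact measurable_measure_prodMk_left (measurable_add hB)
  refine ⟨(⋂ i, A i)ᶜ, hAm.compl, ?_, ?_⟩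
  · rw [compl_iInter]
    exact measure_iUnion_null h1
  · rw [compl_compl, conv_apply _ _ hAm, lintegral_eq_zero_iff (hmeas _ hAm)]
    have key : ∀ᵐ t ∂(ω.restrict (⋃ i, S i)), lam {x | x + t ∈ ⋂ i, A i} = 0 := by
      rw [ae_restrict_iUnion_iff]
      intro i
      have h3 := h2 i
      rw [conv_apply _ _ (hA i), lintegral_eq_zero_iff (hmeas _ (hA i))] at h3
      filter_upwards [h3] with t ht
      refine measure_mono_null ?_ ht
      intro x hx
      exact mem_iInter.1 hx i
    rw [hU, Measure.restrict_univ] at key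
    exact key

lemma conv_zero' (lam : Measure T) : lam.conv (0 : Measure T) = 0 := by
  rw [Measure.conv, Measure.prod_zero, Measure.map_zero]

lemma conv_smul' (lam ω : Measure T) [SFinite lam] [SFinite ω] (c : ℝ≥0∞) :
    lam.conv (c • ω) = c • lam.conv ω := by
  rw [Measure.conv, Measure.conv, Measure.prod_smul_right, Measure.map_smul]

/-- the singularity for a noise recurrent under a countable set of translations -/
theorem noise_rec {p q : ℕ} (hp : 2 ≤ p) (hq : 2 ≤ q) (hpq : Nat.Coprime p q) {μ : Measure T}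
    [IsProbabilityMeasure μ]
    (hμp : MeasurePreserving (fun x : T => p • x) μ μ)
    (hμq : MeasurePreserving (fun x : T => q • x) μ μ)
    (hJ : Pool.Agent.Zk32.JE (fun x : T => p • x) (fun x : T => q • x) μ)
    (hne : μ ≠ volume) {C : Set T} (hC : C.Countable) {ω : Measure T} [IsProbabilityMeasure ω]
    (hω : Ret (C \ {0}) ω) {c : ℤ} (hc : c ≠ 0) (ν : Measure T) [IsProbabilityMeasure ν] :
    μ ⟂ₘ (((μ.map fun x : T => c • x).conv ω).conv ν) := by
  have hcm : Measurable fun x : T => c • x := (continuous_zsmul c).measurable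
  have hsing := sing_of_ne hp hq hμp hμq hJ hne
  have hcμ : IsProbabilityMeasure (μ.map fun x : T => c • x) :=
    Measure.isProbabilityMeasure_map hcm.aemeasurable
  set θ := μ.map fun x : T => c • x with hθ
  have e1 : (θ.conv ω).conv ν = (θ.conv ν).conv ω := by
    rw [Measure.conv_assoc, Measure.conv_comm ω ν, ← Measure.conv_assoc]
  rw [e1]
  have hlam : IsProbabilityMeasure (θ.conv ν) := inferInstance
  have ht := tt_pos (p * q)
  obtain ⟨F, hFm, hF1, hF2⟩ := split ht (fun j => tt_dvd (p * q) (Nat.le_succ j)) ω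
  set S : ℕ → Set T := fun i => if i = 0 then (⋃ n, F n)ᶜ else F (i - 1) with hS
  have hU : ⋃ i, S i = univ := by
    rw [eq_univ_iff_forall]
    intro x
    by_cases hx : x ∈ ⋃ n, F n
    · obtain ⟨n, hn⟩ := mem_iUnion.1 hx
      refine mem_iUnion.2 ⟨n + 1, ?_⟩
      simpa [hS] using hn
    · exact mem_iUnion.2 ⟨0, by simpa [hS] using hx⟩
  refine sing_pieces S hU fun i => ?_
  by_cases hi : i = 0
  · -- the diffuse part
    have hSi : S i = (⋃ n, F n)ᶜ := by simp [hS, hi]
    rw [hSi]
    have hcop : ∀ s ∈ {s : ℕ | ∃ i j : ℕ, s = p ^ i * q ^ j}, ∀ j, Nat.Coprime s (tt (p * q) j) := by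
      rintro s ⟨i, l, rfl⟩ j
      have h1 := tt_coprime (p * q) j
      exact Nat.Coprime.mul_left (Nat.Coprime.pow_left _ h1.coprime_mul_right)
        (Nat.Coprime.pow_left _ h1.coprime_mul_left)
    have hNC := nc_split ht hcop (ω := ω) (F := ⋃ n, F n) hF2
    by_cases h0 : ω (⋃ n, F n)ᶜ = 0
    · rw [Measure.restrict_zero_set h0, conv_zero']
      exact Measure.MutuallySingular.zero_right
    · have hc0 : (ω (⋃ n, F n)ᶜ)⁻¹ ≠ 0 := ENNReal.inv_ne_zero.2 (measure_ne_top _ _)
      have hct : (ω (⋃ n, F n)ᶜ)⁻¹ ≠ ∞ := ENNReal.inv_ne_top.2 h0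
      set β : Measure T := (ω (⋃ n, F n)ᶜ)⁻¹ • ω.restrict (⋃ n, F n)ᶜ with hβ
      have hβp : IsProbabilityMeasure β := by
        constructor
        rw [hβ, Measure.smul_apply, Measure.restrict_apply_univ, smul_eq_mul,
          ENNReal.inv_mul_cancel h0 (measure_ne_top _ _)]
      have hβν := (hNC.smul hc0 hct).conv ν
      have h1 := noise_nc (q := q) hp hμp hμq hJ hne hc hβν
      have e2 : (μ.prod (β.conv ν)).map (fun z : T × T => c • z.1 + z.2) =
          (θ.conv ν).conv β := by
        rw [← Pool.Agent.Zk32.law_conv]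
        change θ.conv (β.conv ν) = _
        rw [Measure.conv_comm β ν, ← Measure.conv_assoc]
      rw [e2, hβ, conv_smul'] at h1
      have h2 : (ω (⋃ n, F n)ᶜ) • ((ω (⋃ n, F n)ᶜ)⁻¹ • (θ.conv ν).conv
          (ω.restrict (⋃ n, F n)ᶜ)) = (θ.conv ν).conv (ω.restrict (⋃ n, F n)ᶜ) := by
        rw [smul_smul, ENNReal.mul_inv_cancel h0 (measure_ne_top _ _), one_smul]
      rw [← h2]
      exact (h1.symm.smul _).symm
  · -- the part with few points in each coset
    have hSi : S i = F (i - 1) := by simp [hS, hi]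
    rw [hSi]
    have h1 := ret_few ht (fun i j h => tt_dvd (p * q) h) hω (hFm (i - 1)) (hF1 (i - 1))
    have hC' : {θ | θ ∈ C ∧ ∀ j, tt (p * q) j • θ ≠ 0}.Countable := hC.mono fun _ h => h.1
    have h2 := h1.conv hC' (θ.conv ν)
    rw [Measure.conv_comm] at h2
    refine ret_sing hC' h2 ?_
    rintro θ' ⟨-, h3⟩ κ hκ
    by_contra hκ0
    obtain ⟨t, ht1, ht2, ht3⟩ := tors_part hp hq hpq hμp hμq hsing hκ hκ0
    apply h3 t
    obtain ⟨k, hk⟩ := dvd_tt (m := p * q) ht1 ht2
    rw [hk, mul_comm, mul_smul, ht3, smul_zero]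

/-- one set for all images and all translates -/
theorem noise_rec_set {p q : ℕ} (hp : 2 ≤ p) (hq : 2 ≤ q) (hpq : Nat.Coprime p q) {μ : Measure T}
    [IsProbabilityMeasure μ]
    (hμp : MeasurePreserving (fun x : T => p • x) μ μ)
    (hμq : MeasurePreserving (fun x : T => q • x) μ μ)
    (hJ : Pool.Agent.Zk32.JE (fun x : T => p • x) (fun x : T => q • x) μ)
    (hne : μ ≠ volume) {C : Set T} (hC : C.Countable) {ω : Measure T} [IsProbabilityMeasure ω]
    (hω : Ret (C \ {0}) ω) :
    ∃ A : Set T, MeasurableSet A ∧ μ A = 1 ∧ ∀ c : ℤ, c ≠ 0 → ∀ t : T,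
      (μ.prod ω) {z : T × T | c • z.1 + z.2 + t ∈ A} = 0 := by
  have hex : ∀ c : ℤ, ∃ A : Set T, MeasurableSet A ∧ μ Aᶜ = 0 ∧ (c ≠ 0 → ∀ t : T,
      (μ.prod ω) {z : T × T | c • z.1 + z.2 + t ∈ A} = 0) := by
    intro c
    by_cases hc : c = 0
    · exact ⟨univ, MeasurableSet.univ, by simp, fun h => absurd hc h⟩
    · have hcm : Measurable fun x : T => c • x := (continuous_zsmul c).measurable
      have hcμ : IsProbabilityMeasure (μ.map fun x : T => c • x) :=
        Measure.isProbabilityMeasure_map hcm.aemeasurable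
      have hθ : IsProbabilityMeasure ((μ.map fun x : T => c • x).conv ω) := inferInstance
      obtain ⟨A, hA, hA1, hA2⟩ := Pool.Agent.Zk32.unif_set (μ := μ)
        (θ := (μ.map fun x : T => c • x).conv ω) fun ν hν =>
          noise_rec hp hq hpq hμp hμq hJ hne hC hω hc ν
      refine ⟨A, hA, hA1, fun _ t => ?_⟩
      have h1 := hA2 t
      have e : (μ.map fun x : T => c • x).conv ω =
          (μ.prod ω).map (fun z : T × T => c • z.1 + z.2) := Pool.Agent.Zk32.law_conv μ ω c
      have hm : Measurable (fun z : T × T => c • z.1 + z.2) := by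
        exact (hcm.comp measurable_fst).add measurable_snd
      have hAt : MeasurableSet {x : T | x + t ∈ A} := measurable_add_const t hA
      rw [e, Measure.map_apply hm hAt] at h1
      exact h1
  choose A hA hA1 hA2 using hex
  refine ⟨⋂ c, A c, MeasurableSet.iInter hA, ?_, fun c hc t => ?_⟩
  · rw [← prob_compl_eq_zero_iff (MeasurableSet.iInter hA), compl_iInter]
    exact measure_iUnion_null hA1
  · refine measure_mono_null ?_ (hA2 c hc t)
    intro z hz
    exact mem_iInter.1 hz c

end Pool.Agent.Zk24.NZ
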