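import Mathlib
import Pool.Agent.Zk24.NZ.Main
import Pool.Agent.Zk24.NZ.Host

/-!
Measures recurrent under a countable set of translations are singular to the invariant measures
which are singular to Lebesgue measure, when the torsion involves finitely many primes.
-/

set_option autoImplicit false

open MeasureTheory Filter Topology Set
open scoped ENNReal NNReal

namespace Pool.Agent.Zk24.NZ

open Pool.Agent.Zk24.SC

lemma Few.trans {t : ℕ} {ht : 0 < t} {E : Set T} {M : ℕ} (h : Few t ht E M) (y : T) :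
    Few t ht {x | x + y ∈ E} M := by
  classical
  intro x
  refine le_trans (le_of_eq ?_) (h (x + y))
  congr 1
  ext a
  simp only [Finset.mem_filter, mem_ofPred_eq, add_right_comm]

lemma HD.conv {b : ℕ} {hb : 0 < b} {η : Measure T} [IsFiniteMeasure η] (h : HD b hb η)
    (ν : Measure T) [IsProbabilityMeasure ν] : HD b hb (η.conv ν) := by
  intro M ε hε
  obtain ⟨j₀, hj₀⟩ := h M ε hε
  refine ⟨j₀, fun j hj E hE hfew => ?_⟩
  rw [conv_apply η ν hE]
  calc ∫⁻ y, η {x | x + y ∈ E} ∂ν ≤ ∫⁻ _y, ε ∂ν :=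
        lintegral_mono fun y => hj₀ j hj _ (measurable_add_const y hE) (hfew.trans y)
    _ = ε := by rw [lintegral_const, measure_univ, mul_one]

/-- the splitting -/
theorem sing_split {v : ℕ} (hv : 0 < v) {ω lam μ : Measure T} [IsFiniteMeasure ω]
    [IsFiniteMeasure lam] [IsFiniteMeasure μ]
    (hD : ∀ D : Set T, MeasurableSet D → HD v hv (ω.restrict D) → μ ⟂ₘ lam.conv (ω.restrict D))
    (hF : ∀ (F : Set T) (M : ℕ), MeasurableSet F → (∀ j, Few (v ^ j) (pow_pos hv j) F M) →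
      μ ⟂ₘ lam.conv (ω.restrict F)) : μ ⟂ₘ lam.conv ω := by
  obtain ⟨F, hFm, hF1, hF2⟩ := split (t := fun j => v ^ j) (fun j => pow_pos hv j)
    (fun j => pow_dvd_pow v (Nat.le_succ j)) ω
  set S : ℕ → Set T := fun i => if i = 0 then (⋃ n, F n)ᶜ else F (i - 1) with hS
  have hU : ⋃ i, S i = univ := by
    rw [eq_univ_iff_forall]
    intro x
    by_cases hx : x ∈ ⋃ n, F n
    · obtain ⟨n, hn⟩ := mem_iUnion.1 hx
      refine mem_iUnion.2 ⟨n + 1, ?_⟩
      simpa [hS] using hn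
    · exact mem_iUnion.2 ⟨0, by simpa [hS] using hx⟩
  refine sing_pieces S hU fun i => ?_
  by_cases hi : i = 0
  · have hSi : S i = (⋃ n, F n)ᶜ := by simp [hS, hi]
    rw [hSi]
    refine hD _ (MeasurableSet.iUnion hFm).compl ?_
    intro M ε hε
    obtain ⟨j₀, hj₀⟩ := hF2 M ε hε
    refine ⟨j₀, fun j hj E hE hfew => ?_⟩
    rw [Measure.restrict_apply hE]
    exact hj₀ E hE (hfew.mono (pow_pos hv j₀) (pow_dvd_pow v hj))
  · have hSi : S i = F (i - 1) := by simp [hS, hi]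
    rw [hSi]
    exact hF _ _ (hFm (i - 1)) (hF1 (i - 1))

/-- the parts with few points in each coset -/
lemma few_part {v : ℕ} (hv : 0 < v) {μ : Measure T} [IsProbabilityMeasure μ] {C : Set T}
    (hC : C.Countable) {ω : Measure T} [IsFiniteMeasure ω] (hω : Ret (C \ {0}) ω)
    (hΓ : ∀ θ ∈ C, (∀ n, v ^ n • θ ≠ 0) → ∀ κ : Measure T, Part μ κ θ → κ = 0)
    (lam : Measure T) [IsFiniteMeasure lam] {F : Set T} {M : ℕ} (hFm : MeasurableSet F)
    (hF : ∀ j, Few (v ^ j) (pow_pos hv j) F M) : μ ⟂ₘ lam.conv (ω.restrict F) := by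
  have h1 := ret_few (t := fun j => v ^ j) (fun j => pow_pos hv j)
    (fun i j h => pow_dvd_pow v h) hω hFm hF
  have hC' : {θ | θ ∈ C ∧ ∀ j, v ^ j • θ ≠ 0}.Countable := hC.mono fun _ h => h.1
  have h2 := h1.conv hC' lam
  rw [Measure.conv_comm] at h2
  exact ret_sing hC' h2 fun θ hθ κ hκ => hΓ θ hθ.1 hθ.2 κ hκ

/-- the singularity when the torsion has order prime to `p` -/
theorem rec_sing_gen {p v : ℕ} (hp : 2 ≤ p) (hv : 2 ≤ v) (hc : Nat.Coprime p v) {μ : Measure T}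
    [IsProbabilityMeasure μ] (hμp : MeasurePreserving (fun x : T => p • x) μ μ)
    (hsing : μ ⟂ₘ (volume : Measure T)) {C : Set T} (hC : C.Countable) {ω : Measure T}
    [IsProbabilityMeasure ω] (hω : Ret (C \ {0}) ω)
    (hΓ : ∀ θ ∈ C, (∀ n, v ^ n • θ ≠ 0) → ∀ κ : Measure T, Part μ κ θ → κ = 0)
    (lam : Measure T) [IsProbabilityMeasure lam] : μ ⟂ₘ lam.conv ω := by
  refine sing_split (v := v) (by omega) ?_ ?_
  · intro D _ hD
    rw [Measure.conv_comm]
    exact host_sing hp hv hc hμp hsing (hD.conv lam)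
  · intro F M hFm hF
    exact few_part (by omega) hC hω hΓ lam hFm hF

/-- the largest part prime to `m` -/
lemma exists_prime_part {m : ℕ} (hm : 1 ≤ m) (b : ℕ) (hb : 1 ≤ b) : ∃ v : ℕ, 1 ≤ v ∧
    Nat.Coprime m v ∧ ∀ t : ℕ, Nat.Coprime m t → ∀ n, t ∣ b ^ n → t ∣ v ^ n := by
  induction b using Nat.strong_induction_on with
  | _ b ih =>
    by_cases hc : Nat.Coprime m b
    · exact ⟨b, hb, hc, fun t _ n h => h⟩
    · set g := Nat.gcd m b with hg
      have hg1 : 1 < g := by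
        have h0 : 0 < g := Nat.gcd_pos_of_pos_left _ hm
        have h1 : g ≠ 1 := hc
        omega
      have hgb : g ∣ b := Nat.gcd_dvd_right m b
      obtain ⟨k, hk⟩ := hgb
      have hk1 : 1 ≤ k := by
        rcases Nat.eq_zero_or_pos k with h | h
        · subst h
          omega
        · exact h
      have hkb : k < b := by
        rw [hk]
        exact (Nat.lt_mul_iff_one_lt_left hk1).2 hg1
      obtain ⟨v, hv1, hv2, hv3⟩ := ih k hkb hk1
      refine ⟨v, hv1, hv2, fun t ht n h => hv3 t ht n ?_⟩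
      rw [hk, mul_pow] at h
      have hcop : Nat.Coprime t (g ^ n) :=
        Nat.Coprime.pow_right n (Nat.Coprime.coprime_dvd_right (Nat.gcd_dvd_left m b) ht.symm)
      exact hcop.dvd_of_dvd_mul_left h

/-- the case of coprime `p`, `q` -/
theorem rec_sing_cop {p q b : ℕ} (hp : 2 ≤ p) (hq : 2 ≤ q) (hpq : Nat.Coprime p q) (hb : 1 ≤ b)
    {μ : Measure T} [IsProbabilityMeasure μ]
    (hμp : MeasurePreserving (fun x : T => p • x) μ μ)
    (hμq : MeasurePreserving (fun x : T => q • x) μ μ)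
    (hsing : μ ⟂ₘ (volume : Measure T)) {C : Set T} (hC : C.Countable)
    (hCb : ∀ θ ∈ C, ∀ t : ℕ, 1 ≤ t → Nat.Coprime (p * q) t → t • θ = 0 → ∃ n : ℕ, b ^ n • θ = 0)
    {ω : Measure T} [IsProbabilityMeasure ω] (hω : Ret (C \ {0}) ω)
    (lam : Measure T) [IsProbabilityMeasure lam] : μ ⟂ₘ lam.conv ω := by
  obtain ⟨v₀, hv1, hv2, hv3⟩ := exists_prime_part (m := p * q) (by nlinarith) b hb
  have hpq1 : Nat.Coprime (p * q) (p * q + 1) := by simp
  have hvc : Nat.Coprime (p * q) (v₀ * (p * q + 1)) := Nat.Coprime.mul_right hv2 hpq1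
  have hpq0 : 0 < p * q := by positivity
  have hv : 2 ≤ v₀ * (p * q + 1) :=
    le_trans (by omega) (Nat.le_mul_of_pos_left (p * q + 1) hv1)
  refine rec_sing_gen hp hv hvc.coprime_mul_right hμp hsing hC hω ?_ lam
  intro θ hθ hn κ hκ
  by_contra hκ0
  obtain ⟨t, ht1, ht2, ht3⟩ := tors_part hp hq hpq hμp hμq hsing hκ hκ0
  obtain ⟨n, hbn⟩ := hCb θ hθ t ht1 ht2 ht3
  apply hn n
  have h1 : addOrderOf θ ∣ t := addOrderOf_dvd_of_nsmul_eq_zero ht3
  have h2 : addOrderOf θ ∣ b ^ n := addOrderOf_dvd_of_nsmul_eq_zero hbn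
  have h3 := hv3 _ (Nat.Coprime.coprime_dvd_right h1 ht2) n h2
  have h4 : addOrderOf θ ∣ (v₀ * (p * q + 1)) ^ n := by
    rw [mul_pow]
    exact h3.mul_right _
  obtain ⟨k, hk⟩ := h4
  rw [hk, mul_comm, mul_smul, addOrderOf_nsmul_eq_zero, smul_zero]

end Pool.Agent.Zk24.NZ
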