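import Mathlib
import Pool.Agent.Zk24.NZ.MainB

/-!
The diffuse part when the torsion has order prime to `p` up to factors whose points lie in a set with
few points in each coset.
-/

set_option autoImplicit false

open MeasureTheory Filter Topology Set
open scoped ENNReal NNReal

namespace Pool.Agent.Zk24.NZ

open Pool.Agent.Zk24.SC

/-- the averages of the exponentials -/
noncomputable def AF (p K : ℕ) (m : ℤ) (x : T) : ℂ :=
  (K : ℂ)⁻¹ * ∑ a ∈ Finset.range K, (fourier (m * ((p ^ a : ℕ) : ℤ)) (x : T) : ℂ)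

lemma AF_cont (p K : ℕ) (m : ℤ) : Continuous (AF p K m) := by
  unfold AF
  refine continuous_const.mul (continuous_finsetSum _ fun a _ => ?_)
  exact (fourier _).continuous

lemma AF_le {p K : ℕ} (hK : 0 < K) (m : ℤ) (x : T) : ‖AF p K m x‖ ≤ 1 := by
  unfold AF
  rw [norm_mul, norm_inv, Complex.norm_natCast]
  have hKR : (0 : ℝ) < K := by exact_mod_cast hK
  rw [inv_mul_le_iff₀ hKR, mul_one]
  calc ‖∑ a ∈ Finset.range K, (fourier (m * ((p ^ a : ℕ) : ℤ)) (x : T) : ℂ)‖ ≤
      ∑ a ∈ Finset.range K, ‖(fourier (m * ((p ^ a : ℕ) : ℤ)) (x : T) : ℂ)‖ := norm_sum_le _ _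
    _ = K := by
        simp only [fou_norm, Finset.sum_const, Finset.card_range, nsmul_eq_mul, mul_one]

/-- small sets of points with large averages, uniformly for the translates -/
def SB (p : ℕ) (η : Measure T) : Prop :=
  ∀ (n : ℕ) (ε : ℝ) (δ : ℝ≥0∞), 0 < ε → δ ≠ 0 → ∃ K : ℕ, 0 < K ∧ ∀ m : ℤ, m ≠ 0 → m.natAbs ≤ n →
    ∀ y : T, η {x | ε ≤ ‖AF p K m (x + y)‖} ≤ δ

lemma bad_meas (p K : ℕ) (m : ℤ) (ε : ℝ) (y : T) : MeasurableSet {x : T | ε ≤ ‖AF p K m (x + y)‖} :=
  measurableSet_le measurable_const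
    ((AF_cont p K m).comp (continuous_add_const y)).norm.measurable

lemma SB.conv {p : ℕ} {η : Measure T} [IsFiniteMeasure η] (h : SB p η) (ν : Measure T)
    [IsProbabilityMeasure ν] : SB p (η.conv ν) := by
  intro n ε δ hε hδ
  obtain ⟨K, hK, hK2⟩ := h n ε δ hε hδ
  refine ⟨K, hK, fun m hm hmn y => ?_⟩
  rw [conv_apply η ν (bad_meas p K m ε y)]
  calc ∫⁻ z, η {x | x + z ∈ {x : T | ε ≤ ‖AF p K m (x + y)‖}} ∂ν ≤ ∫⁻ _z, δ ∂ν := by
        refine lintegral_mono fun z => ?_
        refine le_trans (le_of_eq ?_) (hK2 m hm hmn (z + y))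
        congr 1
        ext x
        simp only [mem_ofPred_eq, add_assoc]
    _ = δ := by rw [lintegral_const, measure_univ, mul_one]

/-- the singularity from small sets of bad points -/
theorem sb_sing {p : ℕ} {μ : Measure T}
    [IsProbabilityMeasure μ] (hμp : MeasurePreserving (fun x : T => p • x) μ μ)
    (hsing : μ ⟂ₘ (volume : Measure T)) {η : Measure T} [IsFiniteMeasure η]
    (hη : SB p η) : μ ⟂ₘ η := by
  by_contra hns
  obtain ⟨e, he, E, hE, hE0, hle⟩ := Measure.exists_positive_of_not_mutuallySingular μ η hns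
  set w := η E with hw
  have hwt : w ≠ ∞ := measure_ne_top _ _
  have hw0 : w ≠ 0 := hE0.ne'
  set κ : Measure T := w⁻¹ • η.restrict E with hκ
  have hκp : IsProbabilityMeasure κ := by
    constructor
    rw [hκ, Measure.smul_apply, Measure.restrict_apply_univ, smul_eq_mul,
      ENNReal.inv_mul_cancel hw0 hwt]
  have hκη : ∀ A : Set T, κ A ≤ w⁻¹ * η A := by
    intro A
    rw [hκ, Measure.smul_apply, smul_eq_mul]
    exact mul_le_mul_right (Measure.restrict_apply_le E A) _
  have heR : (e : ℝ≥0∞) ≠ 0 := by exact_mod_cast he.ne'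
  set D : ℝ≥0∞ := (e * w)⁻¹ with hD
  have hDt : D ≠ ∞ := ENNReal.inv_ne_top.2 (mul_ne_zero heR hw0)
  have hκμ : κ ≤ D • μ := by
    refine Measure.le_intro fun A hA _ => ?_
    rw [hκ, Measure.smul_apply, Measure.smul_apply, smul_eq_mul, smul_eq_mul,
      Measure.restrict_apply hA]
    calc w⁻¹ * η (A ∩ E) = D * (e * η (A ∩ E)) := by
          rw [hD, ENNReal.mul_inv (Or.inl heR) (Or.inl ENNReal.coe_ne_top)]
          rw [show (e : ℝ≥0∞)⁻¹ * w⁻¹ * (e * η (A ∩ E)) = ((e : ℝ≥0∞)⁻¹ * e) * (w⁻¹ * η (A ∩ E)) by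
            ring, ENNReal.inv_mul_cancel heR ENNReal.coe_ne_top, one_mul]
      _ ≤ D * μ (A ∩ E) := mul_le_mul_right (hle A hA) _
      _ ≤ D * μ A := mul_le_mul_right (measure_mono inter_subset_left) _
  have hex : ∀ n : ℕ, ∃ K : ℕ, 0 < K ∧ ∀ m : ℤ, m ≠ 0 → m.natAbs ≤ n →
      ‖∫ x, (fourier m (x : T) : ℂ) ∂(avg p K κ)‖ ≤ 2 / (n + 1) := by
    intro n
    set ε : ℝ := 1 / (n + 1) with hε
    have hε0 : 0 < ε := by positivity
    obtain ⟨K, hK0, hK⟩ := hη n ε (w * ENNReal.ofReal ε) hε0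
      (mul_ne_zero hw0 (ENNReal.ofReal_pos.2 hε0).ne')
    refine ⟨K, hK0, fun m hm hmn => ?_⟩
    have hEm : MeasurableSet {x : T | ε ≤ ‖AF p K m x‖} :=
      measurableSet_le measurable_const (AF_cont p K m).norm.measurable
    have h0 := hK m hm hmn 0
    simp only [add_zero] at h0
    have hκE : κ.real {x : T | ε ≤ ‖AF p K m x‖} ≤ ε := by
      have h1 : κ {x : T | ε ≤ ‖AF p K m x‖} ≤ ENNReal.ofReal ε := by
        calc κ {x : T | ε ≤ ‖AF p K m x‖} ≤ w⁻¹ * η {x : T | ε ≤ ‖AF p K m x‖} := hκη _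
          _ ≤ w⁻¹ * (w * ENNReal.ofReal ε) := mul_le_mul_right h0 _
          _ = ENNReal.ofReal ε := by
              rw [← mul_assoc, ENNReal.inv_mul_cancel hw0 hwt, one_mul]
      calc κ.real {x : T | ε ≤ ‖AF p K m x‖} ≤ (ENNReal.ofReal ε).toReal :=
            ENNReal.toReal_mono ENNReal.ofReal_ne_top h1
        _ = ε := ENNReal.toReal_ofReal hε0.le
    have e2 : ∫ x, (fourier m (x : T) : ℂ) ∂(avg p K κ) = ∫ x, AF p K m x ∂κ := by
      rw [avg_int κ (fourier m).continuous]
      refine integral_congr_ae (Eventually.of_forall fun x => ?_)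
      simp only [AF, fou_smul]
    rw [e2]
    calc ‖∫ x, AF p K m x ∂κ‖ ≤
        ∫ x, (ε + ({x : T | ε ≤ ‖AF p K m x‖}).indicator (fun _ => (1 : ℝ)) x) ∂κ := by
          refine norm_integral_le_of_norm_le
            ((integrable_const _).add ((integrable_const _).indicator hEm))
            (Eventually.of_forall fun x => ?_)
          by_cases hx : ε ≤ ‖AF p K m x‖
          · rw [indicator_of_mem (by exact hx)]
            linarith [AF_le hK0 m x (p := p)]
          · rw [indicator_of_notMem (by exact hx), add_zero]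
            exact (not_le.1 hx).le
      _ = ε + κ.real {x : T | ε ≤ ‖AF p K m x‖} := by
          rw [integral_add (integrable_const _) ((integrable_const _).indicator hEm),
            integral_const, probReal_univ, integral_indicator_const _ hEm]
          simp
      _ ≤ ε + ε := by linarith
      _ = 2 / (n + 1) := by rw [hε]; ring
  choose K hK0 hK using hex
  have hτp : ∀ n, IsProbabilityMeasure (avg p (K n) κ) := fun n => avg_prob (hK0 n) κ
  set τ : ℕ → ProbabilityMeasure T := fun n => ⟨avg p (K n) κ, hτp n⟩ with hτ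
  obtain ⟨τ', φ, hφ, hlim⟩ := CompactSpace.tendsto_subseq τ
  rw [ProbabilityMeasure.tendsto_iff_forall_integral_tendsto] at hlim
  have hlimC : ∀ f : C(T, ℂ), Tendsto (fun k => ∫ x, f x ∂(avg p (K (φ k)) κ)) atTop
      (𝓝 (∫ x, f x ∂(τ' : Measure T))) := by
    intro f
    have hre := hlim (BoundedContinuousFunction.mkOfCompact ⟨fun x => (f x).re, by fun_prop⟩)
    have him := hlim (BoundedContinuousFunction.mkOfCompact ⟨fun x => (f x).im, by fun_prop⟩)
    have e1 : ∀ (σ : Measure T) [IsFiniteMeasure σ], ∫ x, f x ∂σ =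
        ((∫ x, (f x).re ∂σ : ℝ) : ℂ) + ((∫ x, (f x).im ∂σ : ℝ) : ℂ) * Complex.I := by
      intro σ _
      exact (integral_re_add_im (cont_int σ f.continuous)).symm
    have h3 : ∀ k, ∫ x, f x ∂(avg p (K (φ k)) κ) =
        ((∫ x, (f x).re ∂(avg p (K (φ k)) κ) : ℝ) : ℂ) +
          ((∫ x, (f x).im ∂(avg p (K (φ k)) κ) : ℝ) : ℂ) * Complex.I := fun k => by
      have := hτp (φ k)
      exact e1 _
    simp_rw [h3]
    rw [e1 (τ' : Measure T)]
    exact ((Complex.continuous_ofReal.tendsto _).comp hre).add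
      (((Complex.continuous_ofReal.tendsto _).comp him).mul_const _)
  have hvol : (τ' : Measure T) = volume := by
    refine ext_of_fourier fun m => ?_
    by_cases hm : m = 0
    · subst hm
      simp
    · have h1 : Tendsto (fun k => ∫ x, (fourier m (x : T) : ℂ) ∂(avg p (K (φ k)) κ)) atTop (𝓝 0) := by
        have h2 : Tendsto (fun k : ℕ => (2 : ℝ) / ((φ k : ℕ) + 1)) atTop (𝓝 0) := by
          have h3 : Tendsto (fun n : ℕ => (2 : ℝ) / ((n : ℝ) + 1)) atTop (𝓝 0) :=
            Tendsto.div_atTop tendsto_const_nhds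
              (tendsto_atTop_add_const_right _ _ tendsto_natCast_atTop_atTop)
          exact h3.comp hφ.tendsto_atTop
        refine squeeze_zero_norm' ?_ h2
        filter_upwards [hφ.tendsto_atTop.eventually_ge_atTop m.natAbs] with k hk
        exact hK (φ k) m hm hk
      have h2 := tendsto_nhds_unique (hlimC (fourier m)) h1
      rw [h2]
      have h3 : ∫ x : T, (fourier m x : ℂ) = 0 :=
        Pool.Agent.H847R3.XpXq.integral_fourier_zero hm
      rw [h3]
  have hac : (volume : Measure T) ≪ μ := by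
    have hDR : 0 < D.toReal := ENNReal.toReal_pos
      (ENNReal.inv_ne_zero.2 (ENNReal.mul_ne_top ENNReal.coe_ne_top hwt)) hDt
    refine Pool.Agent.Zk32.ac_of_le hDR fun g hg => ?_
    rw [← hvol]
    refine le_of_tendsto (hlim (BoundedContinuousFunction.mkOfCompact g))
      (Eventually.of_forall fun k => ?_)
    have h1 := avg_le (p := p) (hK0 (φ k)) hκμ hμp
    change ∫ x, g x ∂(avg p (K (φ k)) κ) ≤ _
    have h2 : ∫ x, g x ∂(avg p (K (φ k)) κ) ≤ ∫ x, g x ∂(D • μ) := by
      have hfin : IsFiniteMeasure (D • μ) := ⟨by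
        rw [Measure.smul_apply, measure_univ, smul_eq_mul, mul_one]
        exact hDt.lt_top⟩
      exact integral_mono_measure h1 (Eventually.of_forall fun x => hg x)
        (int_cont g.continuous)
    rw [integral_smul_measure, smul_eq_mul] at h2
    exact h2
  have h0 : (volume : Measure T) = 0 :=
    Measure.eq_zero_of_absolutelyContinuous_of_mutuallySingular hac hsing.symm
  have h1 : (volume : Measure T) univ = 1 := measure_univ
  rw [h0] at h1
  simp at h1

end Pool.Agent.Zk24.NZ
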