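import Mathlib
import Pool.Agent.Zk24.NZ.Mix

/-!
The diffuse part: torsion of order prime to `p` up to factors whose points lie in a set with few
points in each coset.
-/

set_option autoImplicit false

open MeasureTheory Filter Topology Set
open scoped ENNReal NNReal

namespace Pool.Agent.Zk24.NZ

open Pool.Agent.Zk24.SC

/-- distinct frequencies modulo `v ^ j` -/
lemma freq_ne {p v c N K j n : ℕ} (hp : 2 ≤ p) (hc : Nat.Coprime p v)
    (hcl : ∀ j n m : ℕ, 0 < n → 0 < m → v ^ j ∣ m * (p ^ n - 1) → v ^ j ≤ c * m * n)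
    (hN : N = c * (n + 1)) (hN0 : 0 < N) (hK : N * K ≤ v ^ j) {m : ℤ} (hm : m ≠ 0)
    (hmn : m.natAbs ≤ n) : ∀ a < K, ∀ a' < K, a ≠ a' →
      ¬ ((v ^ j : ℕ) : ℤ) ∣ m * ((p ^ a : ℕ) : ℤ) - m * ((p ^ a' : ℕ) : ℤ) := by
  have hcop : Nat.Coprime (v ^ j) p := (Nat.Coprime.pow_right j hc).symm
  have hne' : ∀ a' a, a' < a → a < K →
      ¬ ((v ^ j : ℕ) : ℤ) ∣ m * ((p ^ a : ℕ) : ℤ) - m * ((p ^ a' : ℕ) : ℤ) := by
    intro a' a haa haK hdiv
    have e1 : m * ((p ^ a : ℕ) : ℤ) - m * ((p ^ a' : ℕ) : ℤ) =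
        ((p ^ a' : ℕ) : ℤ) * (m * ((p ^ (a - a') - 1 : ℕ) : ℤ)) := by
      rw [Nat.cast_sub (Nat.one_le_pow _ _ (by omega))]
      have : p ^ a = p ^ a' * p ^ (a - a') := by rw [← pow_add]; congr 1; omega
      rw [this]
      push_cast
      ring
    rw [e1] at hdiv
    have h1 : ((v ^ j : ℕ) : ℤ) ∣ m * ((p ^ (a - a') - 1 : ℕ) : ℤ) :=
      (Int.isCoprime_iff_gcd_eq_one.2 (by
        rw [Int.gcd_natCast_natCast]
        exact Nat.Coprime.pow_right a' hcop)).dvd_of_dvd_mul_left hdiv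
    have h2 : v ^ j ∣ m.natAbs * (p ^ (a - a') - 1) := by
      have := Int.natAbs_dvd_natAbs.2 h1
      rwa [Int.natAbs_mul, Int.natAbs_natCast, Int.natAbs_natCast] at this
    have h3 := hcl j (a - a') m.natAbs (by omega) (Int.natAbs_pos.2 hm) h2
    have h4 : c * m.natAbs * (a - a') < v ^ j := by
      calc c * m.natAbs * (a - a') ≤ c * (n + 1) * (a - a') := by
            gcongr
            omega
        _ < N * K := by
            rw [← hN]
            exact Nat.mul_lt_mul_of_pos_left (by omega) hN0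
        _ ≤ v ^ j := hK
    omega
  intro a ha a' ha' haa hdiv
  rcases Nat.lt_or_gt_of_ne haa with h | h
  · refine hne' a a' h ha' ?_
    have := (dvd_neg (α := ℤ)).2 hdiv
    rwa [neg_sub] at this
  · exact hne' a' a h ha hdiv

/-- the average at a translate by a point killed by `p ^ A` -/
lemma AF_near {p K A : ℕ} (hK : 0 < K) (m : ℤ) (z h : T) (hh : p ^ A • h = 0) :
    ‖AF p K m (z + h) - AF p K m z‖ ≤ 2 * A / K := by
  have hKR : (0 : ℝ) < K := by exact_mod_cast hK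
  unfold AF
  rw [← mul_sub, ← Finset.sum_sub_distrib, norm_mul, norm_inv, Complex.norm_natCast,
    inv_mul_eq_div]
  gcongr
  have hterm : ∀ a ∈ Finset.range K, ‖(fourier (m * ((p ^ a : ℕ) : ℤ)) (z + h : T) : ℂ) -
      fourier (m * ((p ^ a : ℕ) : ℤ)) z‖ ≤ if a < A then 2 else 0 := by
    intro a _
    by_cases ha : a < A
    · rw [if_pos ha]
      calc _ ≤ ‖(fourier (m * ((p ^ a : ℕ) : ℤ)) (z + h : T) : ℂ)‖ +
            ‖(fourier (m * ((p ^ a : ℕ) : ℤ)) z : ℂ)‖ := norm_sub_le _ _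
        _ = 2 := by rw [fou_norm, fou_norm]; norm_num
    · rw [if_neg ha, fou_add]
      have h1 : (fourier (m * ((p ^ a : ℕ) : ℤ)) h : ℂ) = 1 := by
        rw [← fou_smul]
        have h2 : p ^ a • h = 0 := by
          have : p ^ a = p ^ (a - A) * p ^ A := by rw [← pow_add]; congr 1; omega
          rw [this, mul_smul, hh, smul_zero]
        rw [h2]
        simp
      rw [h1, mul_one, sub_self, norm_zero]
  calc ‖∑ a ∈ Finset.range K, ((fourier (m * ((p ^ a : ℕ) : ℤ)) (z + h : T) : ℂ) -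
      fourier (m * ((p ^ a : ℕ) : ℤ)) z)‖ ≤ ∑ a ∈ Finset.range K,
        ‖(fourier (m * ((p ^ a : ℕ) : ℤ)) (z + h : T) : ℂ) -
          fourier (m * ((p ^ a : ℕ) : ℤ)) z‖ := norm_sum_le _ _
    _ ≤ ∑ a ∈ Finset.range K, if a < A then (2 : ℝ) else 0 := Finset.sum_le_sum hterm
    _ = ∑ a ∈ (Finset.range K).filter (fun a => a < A), (2 : ℝ) := by
        rw [Finset.sum_filter]
    _ ≤ ∑ a ∈ Finset.range A, (2 : ℝ) := by
        refine Finset.sum_le_sum_of_subset_of_nonneg ?_ fun _ _ _ => by norm_num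
        intro a ha
        exact Finset.mem_range.2 (Finset.mem_filter.1 ha).2
    _ = 2 * A := by
        rw [Finset.sum_const, Finset.card_range, nsmul_eq_mul, mul_comm]

/-- the mixed case -/
theorem mixed_sb {p v₁ v₂ s M₀ : ℕ} (hp : 2 ≤ p) (hv₁ : 2 ≤ v₁) (hc : Nat.Coprime p v₁)
    (hv₂ : 0 < v₂) (hv₂p : v₂ ∣ p ^ s) {η : Measure T} {F : Set T}
    (hFm : MeasurableSet F) (hF : η Fᶜ = 0) (hfewF : ∀ j, Few (v₂ ^ j) (pow_pos hv₂ j) F M₀)
    (hvv : 0 < v₁ * v₂) (hη : HD (v₁ * v₂) hvv η) : SB p η := by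
  classical
  intro n ε δ hε hδ
  obtain ⟨c, hc0, hcl⟩ := ord_lower hp (by omega : 1 ≤ v₁) hc
  set N := c * (n + 1) with hN
  have hN0 : 0 < N := by positivity
  have hNR : (0 : ℝ) < N := by exact_mod_cast hN0
  set M₁ : ℕ := ⌈2 * N / (ε / 2) ^ 2⌉₊ with hM₁
  have hM1 : 2 * (N : ℝ) / (ε / 2) ^ 2 ≤ M₁ := Nat.le_ceil _
  obtain ⟨j₀, hj₀⟩ := hη (M₀ * M₁) δ hδ
  -- the scale
  have hv₁R : (1 : ℝ) < v₁ := by exact_mod_cast (by omega : 1 < v₁)
  have ev1 := (tendsto_pow_const_div_const_pow_of_one_lt 1 hv₁R).eventually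
    (gt_mem_nhds (show (0 : ℝ) < ε / (8 * N * (s + 1)) by positivity))
  have ev2 := (tendsto_pow_atTop_atTop_of_one_lt (by omega : 1 < v₁)).eventually_gt_atTop N
  obtain ⟨j, hj1, hj2, hj3⟩ := (ev1.and (ev2.and (eventually_ge_atTop j₀))).exists
  set t := v₁ ^ j with ht
  have ht0 : 0 < t := by positivity
  have htR : (0 : ℝ) < t := by exact_mod_cast ht0
  set K := t / N with hK
  have hK0 : 0 < K := Nat.div_pos hj2.le hN0
  have hKR : (0 : ℝ) < K := by exact_mod_cast hK0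
  have hKt : N * K ≤ t := Nat.mul_div_le t N
  have htK : t < N * (K + 1) := by
    rw [mul_comm]
    exact Nat.lt_mul_of_div_lt (by omega) hN0
  have htK2 : (t : ℝ) ≤ 2 * N * K := by
    have h2 : t ≤ N * K + N * K := by
      have : N * (K + 1) ≤ N * K + N * K := by
        rw [mul_add, mul_one]
        gcongr
        exact Nat.le_mul_of_pos_right N hK0
      omega
    have h3 : (t : ℝ) ≤ (N : ℝ) * K + N * K := by exact_mod_cast h2
    linarith
  have htM : (t : ℝ) ≤ M₁ * (K * (ε / 2) ^ 2) := by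
    have h5 : 2 * (N : ℝ) ≤ M₁ * (ε / 2) ^ 2 := by
      rwa [div_le_iff₀ (by positivity)] at hM1
    calc (t : ℝ) ≤ 2 * N * K := htK2
      _ ≤ M₁ * (ε / 2) ^ 2 * K := by gcongr
      _ = M₁ * (K * (ε / 2) ^ 2) := by ring
  have hnear : 2 * ((s * j : ℕ) : ℝ) / K ≤ ε / 2 := by
    rw [pow_one, div_lt_iff₀ (by positivity)] at hj1
    have h1 : (j : ℝ) < ε / (8 * N * (s + 1)) * t := by
      rw [ht]; push_cast; exact hj1
    rw [div_mul_eq_mul_div, lt_div_iff₀ (by positivity)] at h1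
    rw [div_le_iff₀ hKR]
    push_cast
    have h2 : (j : ℝ) * (8 * N * (s + 1)) ≤ ε * (2 * N * K) :=
      h1.le.trans (by gcongr)
    have h3 : (j : ℝ) * (4 * (s + 1)) ≤ ε * K := by
      have h4 : (2 * (N : ℝ)) * ((j : ℝ) * (4 * (s + 1))) ≤ (2 * N) * (ε * K) := by
        calc (2 * (N : ℝ)) * ((j : ℝ) * (4 * (s + 1))) = (j : ℝ) * (8 * N * (s + 1)) := by ring
          _ ≤ ε * (2 * N * K) := h2
          _ = (2 * N) * (ε * K) := by ring
      exact le_of_mul_le_mul_left h4 (by positivity)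
    have h5 : (0 : ℝ) ≤ j := by positivity
    nlinarith
  refine ⟨K, hK0, fun m hm hmn y => ?_⟩
  have hne := freq_ne hp hc hcl hN hN0 hKt hm hmn
  set E : Set T := {x : T | ε ≤ ‖AF p K m (x + y)‖} with hE
  have hEm : MeasurableSet E := bad_meas p K m ε y
  have hbad := few_bad ht0 hK0 hne (half_pos hε) htM
  have hfew : Few ((v₁ * v₂) ^ j) (pow_pos hvv j) (E ∩ F) (M₀ * M₁) := by
    intro x
    -- a Bezout relation
    have hcop12 : Nat.Coprime (v₁ ^ j) (v₂ ^ j) := by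
      refine Nat.Coprime.pow _ _ ?_
      exact Nat.Coprime.coprime_dvd_right hv₂p (Nat.Coprime.pow_right s hc.symm)
    obtain ⟨u, w, huw⟩ := (Nat.isCoprime_iff_coprime.2 hcop12)
    set π : T → T := fun h => w • (((v₂ ^ j : ℕ) : ℤ) • h) with hπ
    set T₀ := (Hf ((v₁ * v₂) ^ j) (pow_pos hvv j)).filter fun h => x + h ∈ E ∩ F with hT₀
    set B₁ := (Hf t ht0).filter fun h => x + y + h ∈
      {x | ε / 2 ≤ ‖(K : ℂ)⁻¹ * ∑ a ∈ Finset.range K,
        (fourier (m * ((p ^ a : ℕ) : ℤ)) (x : T) : ℂ)‖} with hB₁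
    have hB₁c : B₁.card ≤ M₁ := by
      have := hbad (x + y)
      convert this
    have hkill : ∀ h : T, (v₁ * v₂) ^ j • h = 0 → v₁ ^ j • (π h) = 0 ∧
        v₂ ^ j • (h - π h) = 0 := by
      intro h hh
      have h1 : (((v₁ ^ j : ℕ) : ℤ) * ((v₂ ^ j : ℕ) : ℤ)) • h = 0 := by
        have : ((v₁ ^ j : ℕ) : ℤ) * ((v₂ ^ j : ℕ) : ℤ) = (((v₁ * v₂) ^ j : ℕ) : ℤ) := by
          push_cast; ring
        rw [this, natCast_zsmul]
        exact hh
      constructor
      · rw [← natCast_zsmul, hπ]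
        simp only
        rw [smul_comm, smul_smul ((v₁ ^ j : ℕ) : ℤ), h1, smul_zero]
      · have h2 : h - π h = u • (((v₁ ^ j : ℕ) : ℤ) • h) := by
          have h3 : (u * ((v₁ ^ j : ℕ) : ℤ) + w * ((v₂ ^ j : ℕ) : ℤ)) • h = h := by
            rw [huw, one_smul]
          rw [add_smul, mul_smul, mul_smul] at h3
          rw [sub_eq_iff_eq_add]
          exact h3.symm
        rw [h2, ← natCast_zsmul, smul_comm, smul_smul ((v₂ ^ j : ℕ) : ℤ),
          mul_comm ((v₂ ^ j : ℕ) : ℤ), h1, smul_zero]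
    have hmaps : ∀ h ∈ T₀, π h ∈ B₁ := by
      intro h hh
      have hh' := Finset.mem_filter.1 hh
      have hk := hkill h ((mem_Hf _).1 hh'.1)
      refine Finset.mem_filter.2 ⟨(mem_Hf _).2 hk.1, ?_⟩
      change ε / 2 ≤ ‖AF p K m (x + y + π h)‖
      have h1 : ε ≤ ‖AF p K m (x + h + y)‖ := hh'.2.1
      have h2 : x + h + y = (x + y + π h) + (h - π h) := by abel
      have h3 : p ^ (s * j) • (h - π h) = 0 := by
        obtain ⟨k, hk2⟩ := pow_dvd_pow_of_dvd hv₂p j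
        rw [← pow_mul] at hk2
        rw [hk2, mul_comm, mul_smul, hk.2, smul_zero]
      have h4 := AF_near hK0 m (x + y + π h) (h - π h) h3
      rw [← h2] at h4
      have h5 := norm_sub_norm_le (AF p K m (x + h + y)) (AF p K m (x + y + π h))
      linarith
    have hfib : ∀ h₁ ∈ B₁, (T₀.filter fun h => π h = h₁).card ≤ M₀ := by
      intro h₁ _
      refine le_trans ?_ (hfewF j (x + h₁))
      rw [← Finset.card_image_of_injective _ (sub_left_injective (b := h₁))]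
      refine Finset.card_le_card ?_
      intro a ha
      obtain ⟨h, hh, rfl⟩ := Finset.mem_image.1 ha
      have hh1 := Finset.mem_filter.1 hh
      have hh2 := Finset.mem_filter.1 hh1.1
      have hk := hkill h ((mem_Hf _).1 hh2.1)
      rw [hh1.2] at hk
      refine Finset.mem_filter.2 ⟨(mem_Hf _).2 hk.2, ?_⟩
      have : x + h₁ + (h - h₁) = x + h := by abel
      rw [this]
      exact hh2.2.2
    have h6 := Finset.card_le_mul_card_image_of_maps_to hmaps M₀ hfib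
    have h7 : T₀.card ≤ M₀ * M₁ := h6.trans (Nat.mul_le_mul_left _ hB₁c)
    convert h7
  calc η E ≤ η ((E ∩ F) ∪ Fᶜ) := measure_mono (by
        intro x hx
        by_cases hxF : x ∈ F
        · exact Or.inl ⟨hx, hxF⟩
        · exact Or.inr hxF)
    _ ≤ η (E ∩ F) + η Fᶜ := measure_union_le _ _
    _ = η (E ∩ F) := by rw [hF, add_zero]
    _ ≤ δ := hj₀ j hj3 _ (hEm.inter hFm) hfew

end Pool.Agent.Zk24.NZ
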