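import Mathlib
import Pool.Agent.Zk24.NZ.MixB

/-!
The general case: no prime divides `p`, `q` and `b`.
-/

set_option autoImplicit false

open MeasureTheory Filter Topology Set
open scoped ENNReal NNReal

namespace Pool.Agent.Zk24.NZ

open Pool.Agent.Zk24.SC

lemma exists_fact {p : ℕ} (hp : 1 ≤ p) (b : ℕ) (hb : 1 ≤ b) : ∃ v₁ v₂ s : ℕ, b = v₁ * v₂ ∧
    Nat.Coprime p v₁ ∧ v₂ ∣ p ^ s := by
  induction b using Nat.strong_induction_on with
  | _ b ih =>
    by_cases hc : Nat.Coprime p b
    · exact ⟨b, 1, 0, by simp, hc, one_dvd _⟩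
    · set g := Nat.gcd p b with hg
      have hg1 : 1 < g := by
        have h0 : 0 < g := Nat.gcd_pos_of_pos_left _ hp
        have h1 : g ≠ 1 := hc
        omega
      obtain ⟨k, hk⟩ : g ∣ b := Nat.gcd_dvd_right p b
      have hk1 : 1 ≤ k := by
        rcases Nat.eq_zero_or_pos k with h | h
        · subst h
          omega
        · exact h
      have hkb : k < b := by
        rw [hk]
        exact (Nat.lt_mul_iff_one_lt_left hk1).2 hg1
      obtain ⟨v₁, v₂, s, h1, h2, h3⟩ := ih k hkb hk1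
      refine ⟨v₁, g * v₂, s + 1, ?_, h2, ?_⟩
      · rw [hk, h1]; ring
      · rw [pow_succ, mul_comm]
        exact Nat.mul_dvd_mul h3 (Nat.gcd_dvd_left p b)

/-- the singularity, general case -/
theorem rec_sing_mix {p q b : ℕ} (hp : 2 ≤ p) (hq : 2 ≤ q)
    (hirr : Irrational (Real.log p / Real.log q)) (hb : 1 ≤ b)
    (hgcd : Nat.gcd (Nat.gcd p q) b = 1)
    {μ : Measure T} [IsProbabilityMeasure μ]
    (hμp : MeasurePreserving (fun x : T => p • x) μ μ)
    (hμq : MeasurePreserving (fun x : T => q • x) μ μ)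
    (hsing : μ ⟂ₘ (volume : Measure T)) {C : Set T} (hC : C.Countable)
    (hCb : ∀ θ ∈ C, IsOfFinAddOrder θ → ∃ n : ℕ, b ^ n • θ = 0)
    {ω : Measure T} [IsProbabilityMeasure ω] (hω : Ret (C \ {0}) ω)
    (lam : Measure T) [IsProbabilityMeasure lam] : μ ⟂ₘ lam.conv ω := by
  obtain ⟨v, v₂, s, hv, hvc, hv₂⟩ := exists_fact (p := p) (by omega) b hb
  have hv0 : 0 < v := by
    rcases Nat.eq_zero_or_pos v with h | h
    · subst h; omega
    · exact h
  have hv₂0 : 0 < v₂ := by
    rcases Nat.eq_zero_or_pos v₂ with h | h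
    · subst h; omega
    · exact h
  have hv₁ : 2 ≤ v * (p + 1) := le_trans (by omega) (Nat.le_mul_of_pos_left (p + 1) hv0)
  have hc : Nat.Coprime p (v * (p + 1)) := Nat.Coprime.mul_right hvc (by simp)
  have hΓ : ∀ θ ∈ C, (∀ n, (v * (p + 1) * v₂) ^ n • θ ≠ 0) → ∀ κ : Measure T, Part μ κ θ → κ = 0 := by
    intro θ hθ hn κ hκ
    by_contra hκ0
    obtain ⟨n, hbn⟩ := hCb θ hθ (inf_part hp hq hirr hμp hμq hsing hκ hκ0)
    apply hn n
    have e : (v * (p + 1) * v₂) ^ n = (p + 1) ^ n * b ^ n := by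
      rw [hv, ← mul_pow]
      congr 1
      ring
    rw [e, mul_smul, hbn, smul_zero]
  rcases Nat.lt_or_ge 1 v₂ with h2 | h2
  · have hq2 : Nat.Coprime q v₂ := by
      rw [Nat.coprime_iff_gcd_eq_one]
      by_contra hne
      obtain ⟨l, hl, hl2⟩ := Nat.exists_prime_and_dvd hne
      have hlq : l ∣ q := hl2.trans (Nat.gcd_dvd_left _ _)
      have hlv : l ∣ v₂ := hl2.trans (Nat.gcd_dvd_right _ _)
      have hlp : l ∣ p := hl.dvd_of_dvd_pow (hlv.trans hv₂)
      have hlb : l ∣ b := by rw [hv]; exact hlv.mul_left _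
      have h3 : l ∣ Nat.gcd (Nat.gcd p q) b := Nat.dvd_gcd (Nat.dvd_gcd hlp hlq) hlb
      rw [hgcd] at h3
      exact hl.one_lt.ne' (Nat.dvd_one.1 h3)
    refine sing_split (v := v₂) hv₂0 ?_ ?_
    · intro D _ hD
      rw [Measure.conv_comm]
      exact host_sing hq h2 hq2 hμq hsing (hD.conv lam)
    · intro F M hFm hF
      have hvv : 0 < v * (p + 1) * v₂ := by positivity
      refine sing_split (v := v * (p + 1) * v₂) hvv ?_ ?_
      · intro D hDm hD
        rw [Measure.conv_comm]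
        refine sb_sing hμp hsing ((mixed_sb hp hv₁ hc hv₂0 hv₂ hFm ?_ hF hvv hD).conv lam)
        rw [Measure.restrict_apply hFm.compl]
        refine measure_mono_null inter_subset_left ?_
        rw [Measure.restrict_apply hFm.compl, compl_inter_self, measure_empty]
      · intro F' M' hFm' hF'
        rw [Measure.restrict_restrict hFm']
        exact few_part hvv hC hω hΓ lam (hFm'.inter hFm) fun j => (hF' j).subset inter_subset_left
  · have h3 : v₂ = 1 := by omega
    subst h3
    refine rec_sing_gen hp hv₁ hc hμp hsing hC hω ?_ lam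
    intro θ hθ hn
    refine hΓ θ hθ ?_
    intro n
    rw [mul_one]
    exact hn n

end Pool.Agent.Zk24.NZ
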