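import Mathlib
import Pool.Agent.Zk24.NZ.MixC
import Pool.Agent.Zk24.NZ.Erg

/-!
Multiples, one set for all translates, and series.
-/

set_option autoImplicit false

open MeasureTheory Filter Topology Set
open scoped ENNReal NNReal

namespace Pool.Agent.Zk24.NZ

open Pool.Agent.Zk24.SC

lemma zsmul_meas' (m : ℤ) : Measurable fun x : T => m • x := (continuous_zsmul m).measurable

/-- the image under a multiplication is recurrent -/
lemma ret_mul {C : Set T} {ω : Measure T} [IsFiniteMeasure ω] (h : Ret (C \ {0}) ω) {m : ℤ}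
    (hm : m ≠ 0) : Ret (((fun x : T => m • x) '' C) \ {0}) (ω.map fun x : T => m • x) := by
  intro E hE hE0
  have hmm := zsmul_meas' m
  rw [Measure.map_apply hmm hE] at hE0
  set E' : Set T := (fun x : T => m • x) ⁻¹' E with hE'
  have hE'm : MeasurableSet E' := hmm hE
  obtain ⟨x₀, -, hx₀⟩ := exists_mem_forall_mem_nhdsWithin_pos_measure hE0
  have hk : 0 < m.natAbs := Int.natAbs_pos.2 hm
  have hkR : (0 : ℝ) < m.natAbs := by exact_mod_cast hk
  set B : Set T := E' ∩ Metric.ball x₀ (1 / (2 * m.natAbs)) with hB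
  have hBm : MeasurableSet B := hE'm.inter measurableSet_ball
  have hB0 : ω B ≠ 0 := by
    refine (hx₀ B (inter_mem self_mem_nhdsWithin (mem_nhdsWithin_of_mem_nhds ?_))).ne'
    exact Metric.ball_mem_nhds _ (by positivity)
  obtain ⟨θ, ⟨hθC, hθ0⟩, hθ⟩ := h B hBm hB0
  have hne : {x | x ∈ B ∧ x + θ ∈ B}.Nonempty := by
    by_contra hcon
    rw [not_nonempty_iff_eq_empty] at hcon
    apply hθ
    rw [hcon, measure_empty]
  obtain ⟨x, hx1, hx2⟩ := hne
  have hsmall : ‖θ‖ < 1 / m.natAbs := by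
    have h1 : dist (x + θ) x < 1 / (2 * m.natAbs) + 1 / (2 * m.natAbs) :=
      (dist_triangle_right _ _ x₀).trans_lt (add_lt_add hx2.2 hx1.2)
    rw [dist_eq_norm, add_sub_cancel_left] at h1
    have h2 : (1 : ℝ) / (2 * m.natAbs) + 1 / (2 * m.natAbs) = 1 / m.natAbs := by
      field_simp
      norm_num
    rwa [h2] at h1
  have hmθ : m • θ ≠ 0 := by
    intro h0
    apply hθ0
    rw [mem_singleton_iff]
    refine eq_zero_of_small hk ?_ hsmall
    rcases Int.natAbs_eq m with h1 | h1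
    · rw [h1, natCast_zsmul] at h0
      exact h0
    · rw [h1, neg_smul, neg_eq_zero, natCast_zsmul] at h0
      exact h0
  refine ⟨m • θ, ⟨⟨θ, hθC, rfl⟩, hmθ⟩, ?_⟩
  have hm2 : MeasurableSet {y : T | y ∈ E ∧ y + m • θ ∈ E} :=
    hE.inter (measurable_add_const _ hE)
  rw [Measure.map_apply hmm hm2]
  intro h0
  apply hθ
  refine measure_mono_null ?_ h0
  rintro y ⟨hy1, hy2⟩
  refine ⟨hy1.1, ?_⟩
  have : m • y + m • θ = m • (y + θ) := (smul_add m y θ).symm
  change m • y + m • θ ∈ E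
  rw [this]
  exact hy2.1

/-- the arithmetic hypothesis -/
def Hyp (p q b : ℕ) : Prop :=
  Irrational (Real.log p / Real.log q) ∧ Nat.gcd (Nat.gcd p q) b = 1

/-- the singularity under the arithmetic hypothesis -/
theorem rec_sing_hyp {p q b : ℕ} (hp : 2 ≤ p) (hq : 2 ≤ q) (hb : 1 ≤ b) (hpq : Hyp p q b)
    {μ : Measure T} [IsProbabilityMeasure μ]
    (hμp : MeasurePreserving (fun x : T => p • x) μ μ)
    (hμq : MeasurePreserving (fun x : T => q • x) μ μ)
    (hsing : μ ⟂ₘ (volume : Measure T)) {C : Set T} (hC : C.Countable)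
    (hCb : ∀ θ ∈ C, IsOfFinAddOrder θ → ∃ n : ℕ, b ^ n • θ = 0)
    {ω : Measure T} [IsProbabilityMeasure ω] (hω : Ret (C \ {0}) ω)
    (lam : Measure T) [IsProbabilityMeasure lam] : μ ⟂ₘ lam.conv ω :=
  rec_sing_mix hp hq hpq.1 hb hpq.2 hμp hμq hsing hC hCb hω lam

/-- one set for all multiples and translates -/
theorem rec_set {p q b : ℕ} (hp : 2 ≤ p) (hq : 2 ≤ q) (hb : 1 ≤ b) (hpq : Hyp p q b)
    {μ : Measure T} [IsProbabilityMeasure μ]
    (hμp : MeasurePreserving (fun x : T => p • x) μ μ)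
    (hμq : MeasurePreserving (fun x : T => q • x) μ μ)
    (hsing : μ ⟂ₘ (volume : Measure T)) {C : Set T} (hC : C.Countable)
    (hCb : ∀ θ ∈ C, IsOfFinAddOrder θ → ∃ n : ℕ, b ^ n • θ = 0)
    {ω : Measure T} [IsProbabilityMeasure ω] (hω : Ret (C \ {0}) ω) :
    ∃ A : Set T, MeasurableSet A ∧ μ A = 1 ∧ ∀ m : ℤ, m ≠ 0 → ∀ t : T,
      ω {x | m • x + t ∈ A} = 0 := by
  have hex : ∀ m : ℤ, ∃ A : Set T, MeasurableSet A ∧ μ Aᶜ = 0 ∧ (m ≠ 0 → ∀ t : T,
      ω {x | m • x + t ∈ A} = 0) := by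
    intro m
    by_cases hm : m = 0
    · exact ⟨univ, MeasurableSet.univ, by simp, fun h => absurd hm h⟩
    · have hmm := zsmul_meas' m
      have hprob : IsProbabilityMeasure (ω.map fun x : T => m • x) :=
        Measure.isProbabilityMeasure_map hmm.aemeasurable
      have hret := ret_mul hω hm
      have hC' : ((fun x : T => m • x) '' C).Countable := hC.image _
      have hCb' : ∀ θ ∈ (fun x : T => m • x) '' C, IsOfFinAddOrder θ → ∃ n : ℕ, b ^ n • θ = 0 := by
        rintro _ ⟨θ, hθ, rfl⟩ hfin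
        obtain ⟨k, hk, hk2⟩ := isOfFinAddOrder_iff_nsmul_eq_zero.1 hfin
        have h1 : IsOfFinAddOrder θ := by
          refine isOfFinAddOrder_iff_nsmul_eq_zero.2 ⟨k * m.natAbs,
            Nat.mul_pos hk (Int.natAbs_pos.2 hm), ?_⟩
          rw [mul_smul]
          have h2 : k • (m • θ) = 0 := hk2
          rcases Int.natAbs_eq m with h3 | h3
          · rw [h3, natCast_zsmul] at h2
            exact h2
          · rw [h3, neg_smul, smul_neg, neg_eq_zero, natCast_zsmul] at h2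
            exact h2
        obtain ⟨n, hn⟩ := hCb θ hθ h1
        refine ⟨n, ?_⟩
        change b ^ n • (m • θ) = 0
        rw [smul_comm, hn, smul_zero]
      obtain ⟨A, hA, hA1, hA2⟩ := Pool.Agent.Zk32.unif_set (μ := μ)
        (θ := ω.map fun x : T => m • x) fun ν hν => by
          have h1 := rec_sing_hyp hp hq hb hpq hμp hμq hsing hC' hCb' hret ν
          rw [Measure.conv_comm] at h1
          exact h1
      refine ⟨A, hA, hA1, fun _ t => ?_⟩
      have h1 := hA2 t
      have hAt : MeasurableSet {x : T | x + t ∈ A} := measurable_add_const t hA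
      rw [Measure.map_apply hmm hAt] at h1
      exact h1
  choose A hA hA1 hA2 using hex
  refine ⟨⋂ c, A c, MeasurableSet.iInter hA, ?_, fun m hm t => ?_⟩
  · rw [← prob_compl_eq_zero_iff (MeasurableSet.iInter hA), compl_iInter]
    exact measure_iUnion_null hA1
  · refine measure_mono_null ?_ (hA2 m hm t)
    intro z hz
    exact mem_iInter.1 hz m

/-- rigidity -/
theorem rec_rigid {p q b : ℕ} (hp : 2 ≤ p) (hq : 2 ≤ q) (hb : 1 ≤ b) (hpq : Hyp p q b)
    {μ : Measure T} [IsProbabilityMeasure μ]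
    (hμp : MeasurePreserving (fun x : T => p • x) μ μ)
    (hμq : MeasurePreserving (fun x : T => q • x) μ μ) {C : Set T} (hC : C.Countable)
    (hCb : ∀ θ ∈ C, IsOfFinAddOrder θ → ∃ n : ℕ, b ^ n • θ = 0)
    {ω : Measure T} [IsProbabilityMeasure ω] (hω : Ret (C \ {0}) ω) {m : ℤ} (hm : m ≠ 0)
    (ν : Measure T) [IsProbabilityMeasure ν] (hac : μ ≪ (ω.map fun x : T => m • x).conv ν) :
    μ = (volume : Measure T) := by
  have hmm := zsmul_meas' m
  have hprob : IsProbabilityMeasure (ω.map fun x : T => m • x) :=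
    Measure.isProbabilityMeasure_map hmm.aemeasurable
  refine rigid_of_sing hp hq (η := (ω.map fun x : T => m • x).conv ν) ?_ hμp hμq hac
  intro σ hσ hσp hσq hσs
  obtain ⟨A, hA, hA1, hA2⟩ := rec_set hp hq hb hpq hσp hσq hσs hC hCb hω
  refine sing_of_set hA ((prob_compl_eq_zero_iff hA).2 hA1) fun t => ?_
  have hmA : MeasurableSet {x : T | x + t ∈ A} := measurable_add_const t hA
  rw [Measure.map_apply hmm hmA]
  exact hA2 m hm t

end Pool.Agent.Zk24.NZ
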