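import Mathlib
import Pool.Agent.Zk24.NZ.Fin
import Pool.Agent.Zk32.TrD

/-!
Totally ergodic measures.
-/

set_option autoImplicit false

open MeasureTheory Filter Topology Set
open scoped ENNReal NNReal

namespace Pool.Agent.Zk24.NZ

open Pool.Agent.Zk24.SC

/-- jointly ergodic for all the powers -/
def TErg (p q : ℕ) (μ : Measure T) : Prop :=
  ∀ n : ℕ, 1 ≤ n → Pool.Agent.Zk32.JE (fun x : T => p ^ n • x) (fun x : T => q ^ n • x) μ

lemma fix_of_coprime {p t : ℕ} (hp : 1 ≤ p) (hc : Nat.Coprime p t) {θ : T} (hθ : t • θ = 0) :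
    p ^ Nat.totient t • θ = θ := by
  have h1 : 1 ≤ p ^ Nat.totient t := Nat.one_le_pow _ _ hp
  have h2 : t ∣ p ^ Nat.totient t - 1 :=
    (Nat.modEq_iff_dvd' h1).1 (Nat.ModEq.pow_totient hc).symm
  obtain ⟨k, hk⟩ := h2
  have h3 : p ^ Nat.totient t = k * t + 1 := by
    rw [mul_comm]; omega
  rw [h3, add_smul, mul_smul, hθ, smul_zero, one_smul, zero_add]

/-- translates by points of order prime to `p q` are equal to the measure or singular to it -/
lemma trans_te {p q t : ℕ} (hp : 2 ≤ p) (hq : 2 ≤ q) {μ : Measure T} [IsProbabilityMeasure μ]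
    (hμp : MeasurePreserving (fun x : T => p • x) μ μ)
    (hμq : MeasurePreserving (fun x : T => q • x) μ μ) (hTE : TErg p q μ) (ht : 1 ≤ t)
    (hc : Nat.Coprime (p * q) t) {θ : T} (hθ : t • θ = 0) :
    μ = μ.map (fun x => x + θ) ∨ μ ⟂ₘ μ.map (fun x => x + θ) := by
  by_cases hns : μ ⟂ₘ μ.map (fun x => x + θ)
  · exact Or.inr hns
  · left
    have hpr : IsProbabilityMeasure (μ.map (fun x => x + θ)) :=
      Measure.isProbabilityMeasure_map (measurable_add_const θ).aemeasurable
    have hn : 1 ≤ Nat.totient t := Nat.totient_pos.2 ht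
    have e1 : ∀ r : ℕ, r • θ = θ → ∀ x : T, r • (x + θ) = r • x + θ := by
      intro r hr x
      rw [smul_add, hr]
    have hinv : ∀ r : ℕ, r • θ = θ → MeasurePreserving (fun x : T => r • x) μ μ →
        MeasurePreserving (fun x : T => r • x) (μ.map (fun x => x + θ)) (μ.map (fun x => x + θ)) := by
      intro r hr h
      refine ⟨meas_nsmul r, ?_⟩
      rw [Measure.map_map (meas_nsmul r) (measurable_add_const θ)]
      conv_rhs => rw [← h.map_eq]
      rw [Measure.map_map (measurable_add_const θ) (meas_nsmul r)]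
      congr 1
      funext x
      exact e1 r hr x
    have hp' := fix_of_coprime (by omega : 1 ≤ p) hc.coprime_mul_right hθ
    have hq' := fix_of_coprime (by omega : 1 ≤ q) hc.coprime_mul_left hθ
    have hJ := hTE _ hn
    have hJ2 : Pool.Agent.Zk32.JE (fun x : T => p ^ Nat.totient t • x)
        (fun x : T => q ^ Nat.totient t • x) (μ.map (fun x => x + θ)) := by
      intro E hE h1 h2
      rw [Measure.map_apply (measurable_add_const θ) hE]
      refine hJ _ (measurable_add_const θ hE) ?_ ?_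
      · ext x
        change p ^ Nat.totient t • x + θ ∈ E ↔ x + θ ∈ E
        rw [← e1 _ hp' x]
        change x + θ ∈ (fun x : T => p ^ Nat.totient t • x) ⁻¹' E ↔ _
        rw [h1]
      · ext x
        change q ^ Nat.totient t • x + θ ∈ E ↔ x + θ ∈ E
        rw [← e1 _ hq' x]
        change x + θ ∈ (fun x : T => q ^ Nat.totient t • x) ⁻¹' E ↔ _
        rw [h2]
    exact Pool.Agent.Zk32.JE.eq_of_not_singular (mp_pow hμp _) (mp_pow hμq _)
      (hinv _ hp' (mp_pow hμp _)) (hinv _ hq' (mp_pow hμq _)) hJ hJ2 hns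

/-- the stabiliser is finite -/
lemma stab_finite {μ : Measure T} [IsProbabilityMeasure μ] (hne : μ ≠ volume) :
    {θ : T | μ = μ.map (fun x => x + θ)}.Finite := by
  by_contra hinf
  apply hne
  refine ext_of_fourier fun m => ?_
  by_cases hm : m = 0
  · subst hm
    simp
  · rw [show ∫ x : T, (fourier m x : ℂ) = 0 from Pool.Agent.H847R3.XpXq.integral_fourier_zero hm]
    have hk : 0 < m.natAbs := Int.natAbs_pos.2 hm
    have hfin := AddCircle.finite_torsion (p := (1 : ℝ)) hk
    obtain ⟨θ, hθ, hθ2⟩ : ∃ θ ∈ {θ : T | μ = μ.map (fun x => x + θ)}, m.natAbs • θ ≠ 0 := by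
      by_contra hcon
      push Not at hcon
      exact hinf (hfin.subset fun θ hθ => hcon θ hθ)
    have hmθ : m • θ ≠ 0 := by
      intro h0
      apply hθ2
      rcases Int.natAbs_eq m with h1 | h1
      · rw [h1, natCast_zsmul] at h0
        exact h0
      · rw [h1, neg_smul, neg_eq_zero, natCast_zsmul] at h0
        exact h0
    have hχ : (fourier m θ : ℂ) ≠ 1 := by
      intro h1
      apply hmθ
      rw [fourier_apply] at h1
      refine AddCircle.injective_toCircle (T := (1 : ℝ)) one_ne_zero ?_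
      rw [AddCircle.toCircle_zero]
      ext
      rw [h1]
      rfl
    have h2 : ∫ x, (fourier m x : ℂ) ∂μ = (∫ x, (fourier m x : ℂ) ∂μ) * fourier m θ := by
      have e : ∫ x, (fourier m x : ℂ) ∂μ = ∫ x, (fourier m x : ℂ) ∂(μ.map fun x => x + θ) := by
        have h : μ = μ.map (fun x => x + θ) := hθ
        rw [← h]
      have e3 : ∫ x, (fourier m x : ℂ) ∂(μ.map fun x => x + θ) =
          ∫ x, (fourier m (x + θ : T) : ℂ) ∂μ :=
        integral_map (measurable_add_const θ).aemeasurable
          (fourier m).continuous.measurable.aestronglyMeasurable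
      rw [← integral_mul_const]
      refine (e.trans e3).trans ?_
      exact integral_congr_ae (Eventually.of_forall fun x => fou_add m x θ)
    have h3 : (∫ x, (fourier m x : ℂ) ∂μ) * (fourier m θ - 1) = 0 := by
      rw [mul_sub, ← h2, mul_one, sub_self]
    rcases mul_eq_zero.1 h3 with h4 | h4
    · exact h4
    · exact absurd (sub_eq_zero.1 h4) hχ

/-- a set of full measure with few points in each coset of the torsion of order prime to `p q` -/
lemma te_set {p q : ℕ} (hp : 2 ≤ p) (hq : 2 ≤ q) {μ : Measure T} [IsProbabilityMeasure μ]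
    (hμp : MeasurePreserving (fun x : T => p • x) μ μ)
    (hμq : MeasurePreserving (fun x : T => q • x) μ μ) (hTE : TErg p q μ) (hne : μ ≠ volume) :
    ∃ (W : Set T) (M : ℕ), MeasurableSet W ∧ μ Wᶜ = 0 ∧
      ∀ j, Few (tt (p * q) j) (tt_pos (p * q) j) W M := by
  classical
  have hst := stab_finite (μ := μ) hne
  set Γ : Set T := {θ | (∃ j, tt (p * q) j • θ = 0) ∧ μ ≠ μ.map (fun x => x + θ)} with hΓ
  have hΓc : Γ.Countable := by
    have : Γ ⊆ ⋃ j, (Hf (tt (p * q) j) (tt_pos (p * q) j) : Set T) := by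
      rintro θ ⟨⟨j, hj⟩, -⟩
      exact mem_iUnion.2 ⟨j, Finset.mem_coe.2 ((mem_Hf _).2 hj)⟩
    exact (countable_iUnion fun j => Finset.countable_toSet _).mono this
  have hS : ∀ θ ∈ Γ, ∃ S : Set T, MeasurableSet S ∧ μ Sᶜ = 0 ∧ μ {x | x + θ ∈ S} = 0 := by
    rintro θ ⟨⟨j, hj⟩, hθ⟩
    rcases trans_te hp hq hμp hμq hTE (tt_pos (p * q) j) (tt_coprime (p * q) j) hj with h | h
    · exact absurd h hθ
    · obtain ⟨S, hS, h1, h2⟩ := h
      refine ⟨Sᶜ, hS.compl, by rwa [compl_compl], ?_⟩
      rwa [Measure.map_apply (measurable_add_const θ) hS.compl] at h2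
  choose! S hSm hS1 hS2 using hS
  refine ⟨⋂ θ ∈ Γ, (S θ ∩ {x | x + θ ∉ S θ}), hst.toFinset.card, ?_, ?_, ?_⟩
  · exact MeasurableSet.biInter hΓc fun θ hθ =>
      (hSm θ hθ).inter (measurable_add_const θ (hSm θ hθ)).compl
  · rw [compl_iInter₂]
    refine (measure_biUnion_null_iff hΓc).2 fun θ hθ => ?_
    rw [compl_inter]
    refine measure_union_null (hS1 θ hθ) ?_
    refine measure_mono_null ?_ (hS2 θ hθ)
    intro x hx
    by_contra hcon
    exact hx hcon
  · intro j x
    set A := (Hf (tt (p * q) j) (tt_pos (p * q) j)).filter fun h =>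
      x + h ∈ ⋂ θ ∈ Γ, (S θ ∩ {x | x + θ ∉ S θ}) with hA
    have hAc : A.card ≤ hst.toFinset.card := by
      rcases A.eq_empty_or_nonempty with h0 | ⟨h₀, hh₀⟩
      · rw [h0]; simp
      · rw [← Finset.card_image_of_injective _ (sub_left_injective (b := h₀))]
        refine Finset.card_le_card ?_
        intro a ha
        obtain ⟨h, hh, rfl⟩ := Finset.mem_image.1 ha
        rw [Set.Finite.mem_toFinset]
        by_contra hcon
        have k1 := Finset.mem_filter.1 hh
        have k2 := Finset.mem_filter.1 hh₀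
        have hmem : h - h₀ ∈ Γ := by
          refine ⟨⟨j, ?_⟩, hcon⟩
          rw [smul_sub, (mem_Hf _).1 k1.1, (mem_Hf _).1 k2.1, sub_zero]
        have k3 := (mem_iInter₂.1 k1.2 _ hmem).1
        have k4 := (mem_iInter₂.1 k2.2 _ hmem).2
        apply k4
        have : x + h₀ + (h - h₀) = x + h := by abel
        change x + h₀ + (h - h₀) ∈ S (h - h₀)
        rw [this]
        exact k3
    convert hAc

/-- the singularity for totally ergodic measures -/
theorem te_sing {p q : ℕ} (hp : 2 ≤ p) (hq : 2 ≤ q) (hpq : Nat.Coprime p q) {μ : Measure T}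
    [IsProbabilityMeasure μ]
    (hμp : MeasurePreserving (fun x : T => p • x) μ μ)
    (hμq : MeasurePreserving (fun x : T => q • x) μ μ) (hTE : TErg p q μ)
    (hne : μ ≠ volume) {C : Set T} (hC : C.Countable) {ω : Measure T} [IsProbabilityMeasure ω]
    (hω : Ret (C \ {0}) ω) (lam : Measure T) [IsProbabilityMeasure lam] : μ ⟂ₘ lam.conv ω := by
  have hJ : Pool.Agent.Zk32.JE (fun x : T => p • x) (fun x : T => q • x) μ := by
    have := hTE 1 le_rfl
    simpa using this
  have hsing := sing_of_ne hp hq hμp hμq hJ hne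
  have ht := tt_pos (p * q)
  obtain ⟨F, hFm, hF1, hF2⟩ := split ht (fun j => tt_dvd (p * q) (Nat.le_succ j)) ω
  set S : ℕ → Set T := fun i => if i = 0 then (⋃ n, F n)ᶜ else F (i - 1) with hS
  have hU : ⋃ i, S i = univ := by
    rw [eq_univ_iff_forall]
    intro x
    by_cases hx : x ∈ ⋃ n, F n
    · obtain ⟨n, hn⟩ := mem_iUnion.1 hx
      refine mem_iUnion.2 ⟨n + 1, ?_⟩
      simpa [hS] using hn
    · exact mem_iUnion.2 ⟨0, by simpa [hS] using hx⟩
  refine sing_pieces S hU fun i => ?_
  by_cases hi : i = 0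
  · have hSi : S i = (⋃ n, F n)ᶜ := by simp [hS, hi]
    rw [hSi]
    obtain ⟨W, M, hW, hW1, hW2⟩ := te_set hp hq hμp hμq hTE hne
    refine ⟨Wᶜ, hW.compl, hW1, ?_⟩
    rw [compl_compl, Measure.conv_comm, conv_apply _ _ hW]
    rw [← lintegral_zero (μ := lam)]
    refine lintegral_congr fun y => ?_
    have hWy : MeasurableSet {x : T | x + y ∈ W} := measurable_add_const y hW
    rw [Measure.restrict_apply hWy]
    by_contra h0
    obtain ⟨j, hj⟩ := hF2 M (ω ({x : T | x + y ∈ W} ∩ (⋃ n, F n)ᶜ) / 2) (by simpa using h0)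
    have h1 := hj _ hWy ((hW2 j).trans y)
    exact absurd h1 (not_le.2 (ENNReal.half_lt_self h0 (measure_ne_top _ _)))
  · have hSi : S i = F (i - 1) := by simp [hS, hi]
    rw [hSi]
    have h1 := ret_few ht (fun i j h => tt_dvd (p * q) h) hω (hFm (i - 1)) (hF1 (i - 1))
    have hC' : {θ | θ ∈ C ∧ ∀ j, tt (p * q) j • θ ≠ 0}.Countable := hC.mono fun _ h => h.1
    have h2 := h1.conv hC' lam
    rw [Measure.conv_comm] at h2
    refine ret_sing hC' h2 ?_
    rintro θ' ⟨-, h3⟩ κ hκ
    by_contra hκ0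
    obtain ⟨t, ht1, ht2, ht3⟩ := tors_part hp hq hpq hμp hμq hsing hκ hκ0
    apply h3 t
    obtain ⟨k, hk⟩ := dvd_tt (m := p * q) ht1 ht2
    rw [hk, mul_comm, mul_smul, ht3, smul_zero]

/-- one set for all multiples and translates -/
theorem te_rec_set {p q : ℕ} (hp : 2 ≤ p) (hq : 2 ≤ q) (hpq : Nat.Coprime p q) {μ : Measure T}
    [IsProbabilityMeasure μ]
    (hμp : MeasurePreserving (fun x : T => p • x) μ μ)
    (hμq : MeasurePreserving (fun x : T => q • x) μ μ) (hTE : TErg p q μ)
    (hne : μ ≠ volume) {C : Set T} (hC : C.Countable) {ω : Measure T} [IsProbabilityMeasure ω]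
    (hω : Ret (C \ {0}) ω) :
    ∃ A : Set T, MeasurableSet A ∧ μ A = 1 ∧ ∀ m : ℤ, m ≠ 0 → ∀ t : T,
      ω {x | m • x + t ∈ A} = 0 := by
  have hex : ∀ m : ℤ, ∃ A : Set T, MeasurableSet A ∧ μ Aᶜ = 0 ∧ (m ≠ 0 → ∀ t : T,
      ω {x | m • x + t ∈ A} = 0) := by
    intro m
    by_cases hm : m = 0
    · exact ⟨univ, MeasurableSet.univ, by simp, fun h => absurd hm h⟩
    · have hmm := zsmul_meas' m
      have hprob : IsProbabilityMeasure (ω.map fun x : T => m • x) :=
        Measure.isProbabilityMeasure_map hmm.aemeasurable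
      have hret := ret_mul hω hm
      have hC' : ((fun x : T => m • x) '' C).Countable := hC.image _
      obtain ⟨A, hA, hA1, hA2⟩ := Pool.Agent.Zk32.unif_set (μ := μ)
        (θ := ω.map fun x : T => m • x) fun ν hν => by
          have h1 := te_sing hp hq hpq hμp hμq hTE hne hC' hret ν
          rw [Measure.conv_comm] at h1
          exact h1
      refine ⟨A, hA, hA1, fun _ t => ?_⟩
      have h1 := hA2 t
      have hAt : MeasurableSet {x : T | x + t ∈ A} := measurable_add_const t hA
      rw [Measure.map_apply hmm hAt] at h1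
      exact h1
  choose A hA hA1 hA2 using hex
  refine ⟨⋂ c, A c, MeasurableSet.iInter hA, ?_, fun m hm t => ?_⟩
  · rw [← prob_compl_eq_zero_iff (MeasurableSet.iInter hA), compl_iInter]
    exact measure_iUnion_null hA1
  · refine measure_mono_null ?_ (hA2 m hm t)
    intro z hz
    exact mem_iInter.1 hz m

end Pool.Agent.Zk24.NZ
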