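import Mathlib
import Pool.Agent.Zk24.NZ.Rec
import Pool.Agent.Zk24.SC.Series

/-!
Laws of convergent series of independent discrete terms are recurrent under a countable group of
translations when they have no atoms.
-/

set_option autoImplicit false

open MeasureTheory Filter Topology Set ProbabilityTheory
open scoped ENNReal NNReal

namespace Pool.Agent.Zk24.NZ

open Pool.Agent.Zk24.SC

lemma two_mul_le (a b : ℝ≥0∞) : 2 * a * b ≤ a ^ 2 + b ^ 2 := by
  by_cases ha : a = ∞
  · subst ha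
    simp
  by_cases hb : b = ∞
  · subst hb
    simp
  lift a to ℝ≥0 using ha
  lift b to ℝ≥0 using hb
  exact_mod_cast two_mul_le_add_sq a b

/-- the square of the mean is at most the mean of the square -/
lemma sq_lintegral_le {ρ : Measure T} [IsProbabilityMeasure ρ] {f : T → ℝ≥0∞} (hf : Measurable f)
    (hfin : ∫⁻ x, f x ∂ρ ≠ ∞) : (∫⁻ x, f x ∂ρ) ^ 2 ≤ ∫⁻ x, f x ^ 2 ∂ρ := by
  set c := ∫⁻ x, f x ∂ρ with hc
  have h1 : 2 * c * c ≤ ∫⁻ x, f x ^ 2 ∂ρ + c ^ 2 := by
    calc 2 * c * c = ∫⁻ x, 2 * c * f x ∂ρ := by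
          rw [lintegral_const_mul _ hf]
      _ ≤ ∫⁻ x, (f x ^ 2 + c ^ 2) ∂ρ := by
          refine lintegral_mono fun x => ?_
          calc 2 * c * f x = 2 * f x * c := by ring
            _ ≤ _ := two_mul_le (f x) c
      _ = ∫⁻ x, f x ^ 2 ∂ρ + c ^ 2 := by
          rw [lintegral_add_right _ measurable_const, lintegral_const, measure_univ, mul_one]
  have h2 : c ^ 2 + c ^ 2 ≤ ∫⁻ x, f x ^ 2 ∂ρ + c ^ 2 := by
    calc c ^ 2 + c ^ 2 = 2 * c * c := by ring
      _ ≤ _ := h1
  exact (ENNReal.add_le_add_iff_right (ENNReal.pow_ne_top hfin)).1 h2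

/-- a criterion for recurrence -/
lemma ret_of_small {η : Measure T} [IsProbabilityMeasure η] {C : Set T} (hC : C.Countable)
    (h : ∀ ε : ℝ≥0∞, ε ≠ 0 → ∃ (α ρ : Measure T) (K : Set T), IsProbabilityMeasure α ∧
      IsProbabilityMeasure ρ ∧ MeasurableSet K ∧ α Kᶜ = 0 ∧ (∀ a ∈ K, ∀ b ∈ K, b - a ∈ C) ∧
      η = ρ.conv α ∧ (α.prod α) {z | z.1 = z.2} ≤ ε) : Ret (C \ {0}) η := by
  intro E hE hE0
  by_contra hcon
  push Not at hcon
  have hε : (η E) ^ 2 / 2 ≠ 0 := by simpa using hE0
  obtain ⟨α, ρ, K, hα, hρ, hK, hαK, hKC, hconv, hdiag⟩ := h _ hε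
  -- the no-return set
  have hFm : ∀ θ, MeasurableSet {x : T | x ∈ E ∧ x + θ ∈ E} := fun θ =>
    hE.inter (measurable_add_const θ hE)
  have hmeas : ∀ B : Set T, MeasurableSet B → Measurable fun t => ρ {x | x + t ∈ B} := by
    intro B hB
    have e : (fun t => ρ {x | x + t ∈ B}) = fun t =>
        ρ (Prod.mk t ⁻¹' ((fun z : T × T => z.1 + z.2) ⁻¹' B)) := by
      funext t
      congr 1
      ext x
      simp [add_comm]
    rw [e]
    exact measurable_measure_prodMk_left (measurable_add hB)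
  have hmeas' : ∀ B : Set T, MeasurableSet B → Measurable fun t => α {x | x + t ∈ B} := by
    intro B hB
    have e : (fun t => α {x | x + t ∈ B}) = fun t =>
        α (Prod.mk t ⁻¹' ((fun z : T × T => z.1 + z.2) ⁻¹' B)) := by
      funext t
      congr 1
      ext x
      simp [add_comm]
    rw [e]
    exact measurable_measure_prodMk_left (measurable_add hB)
  have h1 : ∀ᵐ a ∂α, ∀ θ ∈ C \ {0}, ρ {x | x + a ∈ {x : T | x ∈ E ∧ x + θ ∈ E}} = 0 := by
    refine (ae_ball_iff (hC.mono sdiff_subset)).2 fun θ hθ => ?_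
    have h2 := hcon θ hθ
    rw [hconv, conv_apply ρ α (hFm θ)] at h2
    exact (lintegral_eq_zero_iff (hmeas _ (hFm θ))).1 h2
  have hKae : ∀ᵐ a ∂α, a ∈ K := hαK
  -- the mass of `E`
  have e1 : η E = ∫⁻ r, α {a | a + r ∈ E} ∂ρ := by
    rw [hconv, Measure.conv_comm, conv_apply α ρ hE]
  have hBm : MeasurableSet {w : T × (T × T) | w.2.1 + w.1 ∈ E ∧ w.2.2 + w.1 ∈ E} := by
    have m1 : Measurable fun w : T × (T × T) => w.2.1 + w.1 := by fun_prop
    have m2 : Measurable fun w : T × (T × T) => w.2.2 + w.1 := by fun_prop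
    exact (m1 hE).inter (m2 hE)
  have h3 : (η E) ^ 2 ≤ (η E) ^ 2 / 2 := by
    calc (η E) ^ 2 = (∫⁻ r, α {a | a + r ∈ E} ∂ρ) ^ 2 := by rw [e1]
      _ ≤ ∫⁻ r, (α {a | a + r ∈ E}) ^ 2 ∂ρ :=
          sq_lintegral_le (hmeas' E hE) (by rw [← e1]; exact measure_ne_top _ _)
      _ = (ρ.prod (α.prod α)) {w : T × (T × T) | w.2.1 + w.1 ∈ E ∧ w.2.2 + w.1 ∈ E} := by
          rw [Measure.prod_apply hBm]
          refine lintegral_congr fun r => ?_
          have e2 : Prod.mk r ⁻¹' {w : T × (T × T) | w.2.1 + w.1 ∈ E ∧ w.2.2 + w.1 ∈ E} =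
              {a | a + r ∈ E} ×ˢ {a | a + r ∈ E} := by
            ext z
            simp
          rw [e2, Measure.prod_prod, sq]
      _ = ∫⁻ z, ρ {r | z.1 + r ∈ E ∧ z.2 + r ∈ E} ∂(α.prod α) := by
          rw [Measure.prod_apply_symm hBm]
          rfl
      _ ≤ ∫⁻ z, ({z : T × T | z.1 = z.2}).indicator 1 z ∂(α.prod α) := by
          refine lintegral_mono_ae ?_
          have hq1 := (Measure.quasiMeasurePreserving_fst (μ := α) (ν := α)).ae h1
          have hq2 := (Measure.quasiMeasurePreserving_fst (μ := α) (ν := α)).ae hKae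
          have hq3 := (Measure.quasiMeasurePreserving_snd (μ := α) (ν := α)).ae hKae
          filter_upwards [hq1, hq2, hq3] with z hz1 hz2 hz3
          by_cases hz : z.1 = z.2
          · rw [indicator_of_mem (by exact hz)]
            exact prob_le_one
          · rw [indicator_of_notMem (by exact hz), nonpos_iff_eq_zero]
            have h4 := hz1 (z.2 - z.1) ⟨hKC _ hz2 _ hz3, by
              rw [mem_singleton_iff, sub_eq_zero]
              exact fun h => hz h.symm⟩
            rw [← h4]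
            congr 1
            ext r
            simp only [mem_ofPred_eq]
            have e5 : r + z.1 + (z.2 - z.1) = z.2 + r := by abel
            rw [e5, add_comm r z.1]
      _ = (α.prod α) {z | z.1 = z.2} := by
          rw [lintegral_indicator_one (measurableSet_eq_fun measurable_fst measurable_snd)]
      _ ≤ (η E) ^ 2 / 2 := hdiag
  have hne : (η E) ^ 2 ≠ ∞ := ENNReal.pow_ne_top (measure_ne_top _ _)
  have hne0 : (η E) ^ 2 ≠ 0 := pow_ne_zero 2 hE0
  exact absurd h3 (not_le.2 (ENNReal.half_lt_self hne0 hne))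

variable {Ω : Type*} [MeasurableSpace Ω] {P : Measure Ω} [IsProbabilityMeasure P] {X : ℕ → Ω → T}

/-- two independent copies of the partial sums agree with small probability -/
lemma diag_small (hX : ∀ n, Measurable (X n)) {S : Ω → T} (hS : Measurable S)
    (hlim : ∀ᵐ ω ∂P, Tendsto (fun N => ∑ i ∈ Finset.range N, X i ω) atTop (𝓝 (S ω)))
    (hat : ∀ x : T, P {ω | S ω = x} = 0) {ε : ℝ≥0∞} (hε : ε ≠ 0) :
    ∃ k, ((P.map fun ω => ∑ i ∈ Finset.range k, X i ω).prod
      (P.map fun ω => ∑ i ∈ Finset.range k, X i ω)) {z | z.1 = z.2} ≤ ε := by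
  set A : ℕ → Ω → T := fun k ω => ∑ i ∈ Finset.range k, X i ω with hA
  have mA : ∀ k, Measurable (A k) := fun k => Finset.measurable_sum _ fun i _ => hX i
  set Z : ℕ → Set (Ω × Ω) := fun k => {w | A k w.1 = A k w.2} with hZ
  have mZ : ∀ k, MeasurableSet (Z k) := fun k =>
    measurableSet_eq_fun ((mA k).comp measurable_fst) ((mA k).comp measurable_snd)
  have mdiag : MeasurableSet {z : T × T | z.1 = z.2} :=
    measurableSet_eq_fun measurable_fst measurable_snd
  have e1 : ∀ k, ((P.map (A k)).prod (P.map (A k))) {z | z.1 = z.2} = (P.prod P) (Z k) := by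
    intro k
    rw [Measure.map_prod_map _ _ (mA k) (mA k),
      Measure.map_apply ((mA k).prodMap (mA k)) mdiag]
    rfl
  set U : ℕ → Set (Ω × Ω) := fun n => ⋃ k ≥ n, Z k with hU
  have mU : ∀ n, MeasurableSet (U n) := fun n =>
    MeasurableSet.iUnion fun k => MeasurableSet.iUnion fun _ => mZ k
  have hanti : Antitone U := by
    intro m n hmn x hx
    obtain ⟨k, hk, hxk⟩ := mem_iUnion₂.1 hx
    exact mem_iUnion₂.2 ⟨k, hmn.trans hk, hxk⟩
  have hlimU := tendsto_measure_iInter_atTop (μ := P.prod P) (fun n => (mU n).nullMeasurableSet)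
    hanti ⟨0, measure_ne_top _ _⟩
  have h0 : (P.prod P) (⋂ n, U n) = 0 := by
    have h1 : (P.prod P) {w : Ω × Ω | S w.1 = S w.2} = 0 := by
      have hm : MeasurableSet {w : Ω × Ω | S w.1 = S w.2} :=
        measurableSet_eq_fun (hS.comp measurable_fst) (hS.comp measurable_snd)
      rw [Measure.prod_apply hm]
      have : ∀ a : Ω, P (Prod.mk a ⁻¹' {w : Ω × Ω | S w.1 = S w.2}) = 0 := by
        intro a
        rw [← hat (S a)]
        congr 1
        ext b
        simp [eq_comm]
      simp only [this, lintegral_zero]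
    have h2 : ∀ᵐ w ∂(P.prod P), w ∉ ⋂ n, U n := by
      have hq1 := (Measure.quasiMeasurePreserving_fst (μ := P) (ν := P)).ae hlim
      have hq2 := (Measure.quasiMeasurePreserving_snd (μ := P) (ν := P)).ae hlim
      have hq3 : ∀ᵐ w ∂(P.prod P), ¬ S w.1 = S w.2 := by
        rw [ae_iff]
        simpa using h1
      filter_upwards [hq1, hq2, hq3] with w hw1 hw2 hw3 hmem
      apply hw3
      have hfr : ∃ᶠ k in atTop, A k w.1 = A k w.2 := by
        rw [frequently_atTop]
        intro n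
        obtain ⟨k, hk, hxk⟩ := mem_iUnion₂.1 (mem_iInter.1 hmem n)
        exact ⟨k, hk, hxk⟩
      have hd := hw1.sub hw2
      have hfr2 : ∃ᶠ k in atTop, ∑ i ∈ Finset.range k, X i w.1 -
          ∑ i ∈ Finset.range k, X i w.2 = 0 := by
        refine hfr.mono fun k hk => ?_
        exact sub_eq_zero.2 hk
      by_contra hne
      have hne' : S w.1 - S w.2 ≠ 0 := sub_ne_zero.2 hne
      have hev := hd.eventually_ne hne'
      obtain ⟨k, hk1, hk2⟩ := (hfr2.and_eventually hev).exists
      exact hk2 hk1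
    rw [ae_iff] at h2
    simp only [not_not] at h2
    exact h2
  rw [h0] at hlimU
  obtain ⟨n, hn⟩ := ((tendsto_order.1 hlimU).2 ε (pos_iff_ne_zero.2 hε)).exists
  refine ⟨n, ?_⟩
  rw [e1 n]
  refine (measure_mono ?_).trans hn.le
  intro w hw
  exact mem_iUnion₂.2 ⟨n, le_rfl, hw⟩

/-- **Jessen-Wintner laws are recurrent.** -/
theorem ret_series (hX : ∀ n, Measurable (X n)) (hind : iIndepFun X P) {S : Ω → T}
    (hdis : ∀ n, ∃ K : Set T, K.Countable ∧ ∀ᵐ ω ∂P, X n ω ∈ K)
    (hlim : ∀ᵐ ω ∂P, Tendsto (fun N => ∑ i ∈ Finset.range N, X i ω) atTop (𝓝 (S ω)))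
    (hat : ∀ x : T, P {ω | S ω = x} = 0) :
    ∃ C : Set T, C.Countable ∧ Ret (C \ {0}) (P.map S) := by
  choose K hK hXK using hdis
  set D : ℕ → Set T := fun k => Nat.rec {0} (fun k D => image2 (fun x y => x + y) D (K k)) k
    with hD
  have hDs : ∀ k, D (k + 1) = image2 (fun x y => x + y) (D k) (K k) := fun k => rfl
  have hDc : ∀ k, (D k).Countable := by
    intro k
    induction k with
    | zero => exact countable_singleton _
    | succ k ih => rw [hDs]; exact ih.image2 (hK k) _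
  set C : Set T := ⋃ k, image2 (fun x y => y - x) (D k) (D k) with hCdef
  have hC : C.Countable := countable_iUnion fun k => (hDc k).image2 (hDc k) _
  refine ⟨C, hC, ?_⟩
  have hSa := aemeas hX hlim
  set S' := hSa.mk S with hS'
  have hSS : S =ᵐ[P] S' := hSa.ae_eq_mk
  have hS'm : Measurable S' := hSa.measurable_mk
  have hlim' : ∀ᵐ ω ∂P, Tendsto (fun N => ∑ i ∈ Finset.range N, X i ω) atTop (𝓝 (S' ω)) := by
    filter_upwards [hlim, hSS] with ω h1 h2
    rwa [← h2]
  have hat' : ∀ x : T, P {ω | S' ω = x} = 0 := by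
    intro x
    rw [← hat x]
    refine measure_congr ?_
    filter_upwards [hSS] with ω hω
    refine propext ?_
    change S' ω = x ↔ S ω = x
    rw [hω]
  rw [Measure.map_congr hSS]
  have hp : IsProbabilityMeasure (P.map S') := Measure.isProbabilityMeasure_map hS'm.aemeasurable
  refine ret_of_small hC fun ε hε => ?_
  obtain ⟨k, hk⟩ := diag_small hX hS'm hlim' hat' hε
  have mA : Measurable fun ω => ∑ i ∈ Finset.range k, X i ω :=
    Finset.measurable_sum _ fun i _ => hX i
  refine ⟨P.map fun ω => ∑ i ∈ Finset.range k, X i ω,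
    P.map fun ω => S' ω - ∑ i ∈ Finset.range k, X i ω, D k,
    Measure.isProbabilityMeasure_map mA.aemeasurable,
    Measure.isProbabilityMeasure_map (hS'm.sub mA).aemeasurable, (hDc k).measurableSet, ?_,
    fun a ha b hb => mem_iUnion.2 ⟨k, mem_image2_of_mem ha hb⟩, factor hX hind hlim' _, hk⟩
  rw [Measure.map_apply mA (hDc k).measurableSet.compl]
  have h1 : ∀ᵐ ω ∂P, ∀ n, X n ω ∈ K n := ae_all_iff.2 hXK
  have h2 : ∀ᵐ ω ∂P, ∑ i ∈ Finset.range k, X i ω ∈ D k := by
    filter_upwards [h1] with ω hω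
    clear hk mA
    induction k with
    | zero => simp [hD]
    | succ k ih =>
      rw [Finset.sum_range_succ, hDs]
      exact mem_image2_of_mem ih (hω k)
  exact h2

end Pool.Agent.Zk24.NZ
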